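import Mathlib
import Pool.Agent.H75.PR.Chart

/-! Reeb flows preserving a Lorentzian metric: definitions used by the modules. -/

open scoped Topology ContDiff Manifold
open Set Filter Pool.Agent.H826R2.WStmt Pool.Agent.W671.RStmt
open Pool.Agent.H75.PRStmt Pool.Agent.H75.PR

noncomputable section

set_option maxSynthPendingDepth 3
set_option linter.unusedSectionVars false

namespace Pool.Agent.H75.LR

section local_

variable {E : Type*} [NormedAddCommGroup E] [NormedSpace ℝ E]

/-- the exterior derivative of a one-form on (an open subset of) `E` -/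
def dd (a : E → E →L[ℝ] ℝ) (z : E) (u w : E) : ℝ := fderiv ℝ a z u w - fderiv ℝ a z w u

/-- the bilinear form `da + a ⊗ a` -/
def BB (a : E → E →L[ℝ] ℝ) (z : E) : E →L[ℝ] E →L[ℝ] ℝ :=
  fderiv ℝ a z - (fderiv ℝ a z).flip + ContinuousLinearMap.smulRight (a z) (a z)

lemma BB_apply (a : E → E →L[ℝ] ℝ) (z u w : E) : BB a z u w = dd a z u w + a z u * a z w := by
  simp [BB, dd]

/-- the density `√|det (Q (b i) (b j))|` of a bilinear form with respect to a basis -/
def dens {ι : Type*} [Fintype ι] [DecidableEq ι] (b : Module.Basis ι ℝ E)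
    (Q : E →L[ℝ] E →L[ℝ] ℝ) : ℝ :=
  Real.sqrt |(Matrix.of fun i j => Q (b i) (b j)).det|

/-- the divergence `∑ ∂_i X^i` of a vector field on (an open subset of) `E` -/
def divE (X : E → E) (z : E) : ℝ := LinearMap.trace ℝ E (fderiv ℝ X z : E →ₗ[ℝ] E)

end local_

section global_

variable {E : Type*} [NormedAddCommGroup E] [NormedSpace ℝ E]
  {M : Type*} [TopologicalSpace M] [ChartedSpace E M]

/-- the vector field `X` read in the chart at `p` -/
def cVec (X : M → E) (p : M) (y : E) : E :=
  D (E := E) (E' := E) (ch E p) ((ch E p).symm y) (X ((ch E p).symm y))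

/-- smooth vector fields -/
def SmoothVec (X : M → E) : Prop := ∀ p : M, ContDiffOn ℝ ∞ (cVec X p) (ch E p).target

/-- smooth bilinear forms -/
def SmoothBil (B : M → Bil E) : Prop := ∀ p : M, ContDiffOn ℝ ∞ (cBil B p) (ch E p).target

end global_

end Pool.Agent.H75.LR
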