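import Mathlib
import Pool.Agent.H75.LR.Defs

/-! Reeb flows preserving a Lorentzian metric: the statements of the modules. -/

open scoped Topology ContDiff Manifold
open Set Filter Pool.Agent.H826R2.WStmt Pool.Agent.W671.RStmt
open Pool.Agent.H75.PRStmt Pool.Agent.H75.PR

noncomputable section

set_option maxSynthPendingDepth 3
set_option linter.unusedSectionVars false

namespace Pool.Agent.H75.LR

universe u v

/-- **Module DV, divergence theorem on a closed manifold** with the density of a nondegenerate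
bilinear form `B` (no symmetry of `B` is assumed). There is a strictly positive linear functional
`I` on the continuous functions (the integral against `√|det B|`), which is invariant under the smooth
bijections preserving `B`, and such that integrals of divergences vanish, in the following robust
form: for every smooth vector field `Y` there is `K` such that, if the divergence of the `C^1` vector
field `X` differs in every chart from `f` times the density at most by `ε` times the absolute value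
of the divergence of `Y`, then `|I f| ≤ K ε`. (For `ε = 0`: `I f = 0` if `f` is the divergence of
`X`.) -/
def S_DV : Prop :=
  ∀ (E : Type u) [NormedAddCommGroup E] [NormedSpace ℝ E] [FiniteDimensional ℝ E]
    (M : Type v) [TopologicalSpace M] [ChartedSpace E M] [IsManifold 𝓘(ℝ, E) ∞ M]
    [T2Space M] [CompactSpace M] (ι : Type) [Fintype ι] [DecidableEq ι]
    (b : Module.Basis ι ℝ E) (B : M → Bil E), SmoothBil B →
    (∀ x u, (∀ v, bev (B x) u v = 0) → u = 0) →
    ∃ I : C(M, ℝ) →ₗ[ℝ] ℝ,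
      (∀ f : C(M, ℝ), (∀ x, 0 ≤ f x) → (∃ x, f x ≠ 0) → 0 < I f) ∧
      (∀ F : C(M, M), ContMDiff 𝓘(ℝ, E) 𝓘(ℝ, E) ∞ F → Function.Bijective F →
        (∀ x u v, bev (B (F x)) (D (E := E) (E' := E) F x u) (D (E := E) (E' := E) F x v) =
          bev (B x) u v) → ∀ f : C(M, ℝ), I (f.comp F) = I f) ∧
      ∀ Y : M → E, SmoothVec Y → ∃ K : ℝ, 0 ≤ K ∧ ∀ X : M → E,
        (∀ p : M, ContDiffOn ℝ 1 (cVec X p) (ch E p).target) → ∀ (f : C(M, ℝ)) (ε : ℝ), 0 ≤ ε →
        (∀ p : M, ∀ z ∈ (ch E p).target,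
          |divE (fun y => dens b (cBil B p y) • cVec X p y) z -
            dens b (cBil B p z) * f ((ch E p).symm z)| ≤
          ε * |divE (fun y => dens b (cBil B p y) • cVec Y p y) z|) → |I f| ≤ K * ε

/-- **Module LD, two divergences** (local, on an open subset `U` of `E`, `dim E = 2n + 1`). `a` is a
contact form with Reeb field `R`, `ω = da`; `P` is a field of projections of rank two onto a subspace
of `ker a`, along a subspace which contains `R`, and the image and kernel of `P` are `ω`-orthogonal;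
`θ` is a one-form with `dθ = c ω (P ·, ·)`; `X` is given by `a X = 0`, `ω (X, ·) = θ - θ(R) a`. With
respect to the density of `da + a ⊗ a` the divergence of `X` is `c - n θ(R)`, and that of
`c (X - P X)` is `- (n - 1) c θ(R)`.

Proof: for a small real number `s` put `ω_s = ω + s dθ = (1 + s c) ω_P + ω_Q`, which is closed,
`B_s = ω_s + a ⊗ a`, `v_s = √|det B_s| = (1 + s c) v_0`, and let `X_s` be given by
`B_s (X_s, ·) = θ - θ(R) a =: θh`, i.e. `X_s = P X / (1 + s c) + (X - P X)`. For any `C^1` bilinear form `B'`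
and vector field `V`, `div (v' V) = v' / 2 * tr (B'⁻¹ L_V B')`, `v' = √|det B'|` (derivative of
`log |det|`), where `L_V B' (u, w) = D_V B' (u, w) + B' (DV u, w) + B' (u, DV w)`. Here
`L_{X_s} ω_s = d (i_{X_s} ω_s) = d θh = dθ - d(θ(R)) ∧ a - θ(R) ω` (as `ω_s` is closed) and
`L_{X_s} a = ω (X_s, ·)`, which vanishes on `R`. So the trace is
`tr (B_s⁻¹ (dθ - θ(R) ω)) = 2 c / (1 + s c) - θ(R) (2 (n - 1) + 2 / (1 + s c))`, and
`div (v_0 (1 + s c) X_s) = v_0 (c - θ(R) (1 + (n - 1) (1 + s c)))`, where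
`(1 + s c) X_s = X + s c (X - P X)`. Take `s = 0` and a small `s ≠ 0`. -/
def S_LD : Prop :=
  ∀ (E : Type u) [NormedAddCommGroup E] [NormedSpace ℝ E] [FiniteDimensional ℝ E] (n : ℕ),
    Module.finrank ℝ E = 2 * n + 1 → ∀ (ι : Type) [Fintype ι] [DecidableEq ι]
    (b : Module.Basis ι ℝ E) (U : Set E), IsOpen U →
    ∀ (a : E → E →L[ℝ] ℝ), ContDiffOn ℝ ∞ a U → ∀ R : E → E, ContDiffOn ℝ ∞ R U →
    (∀ z ∈ U, a z (R z) = 1) → (∀ z ∈ U, ∀ w, dd a z (R z) w = 0) →
    (∀ z ∈ U, ∀ u, a z u = 0 → (∀ w, a z w = 0 → dd a z u w = 0) → u = 0) →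
    ∀ P : E → E →L[ℝ] E, ContDiffOn ℝ ∞ P U → (∀ z ∈ U, ∀ u, P z (P z u) = P z u) →
    (∀ z ∈ U, LinearMap.trace ℝ E (P z : E →ₗ[ℝ] E) = 2) → (∀ z ∈ U, P z (R z) = 0) →
    (∀ z ∈ U, ∀ u, a z (P z u) = 0) →
    (∀ z ∈ U, ∀ u w, dd a z (P z u) w = dd a z u (P z w)) →
    ∀ θ : E → E →L[ℝ] ℝ, ContDiffOn ℝ ∞ θ U → ∀ c : E → ℝ, ContDiffOn ℝ ∞ c U →
    (∀ z ∈ U, ∀ u w, dd θ z u w = c z * dd a z (P z u) w) →
    ∀ X : E → E, ContDiffOn ℝ ∞ X U → (∀ z ∈ U, a z (X z) = 0) →
    (∀ z ∈ U, ∀ w, dd a z (X z) w = θ z w - θ z (R z) * a z w) →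
    ∀ z ∈ U,
      divE (fun y => dens b (BB a y) • X y) z = dens b (BB a z) * (c z - n * θ z (R z)) ∧
      divE (fun y => dens b (BB a y) • (c y • (X y - P y (X y)))) z =
        - (dens b (BB a z) * (((n : ℝ) - 1) * c z * θ z (R z)))

/-- **Module EL, the null eigenlines** (local). `g` is a Lorentzian metric, `a` a contact form with
Reeb field `R` and `g (R, ·) = a`, `ω = da`. Near every point there are smooth vector fields `s`, `t` and a
smooth positive function `lam` with `ω (s, ·) = lam g (s, ·)`, `ω (t, ·) = - lam g (t, ·)`,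
`g (s, t) = 1`.

Proof at a point: put `g (A u, v) = ω (u, v)`; `A` maps `ker a` (orthogonal to `R`, even-dimensional, Lorentzian)
to itself, bijectively; the determinant of this restriction is `det ω / det g < 0`
(`det` of a nondegenerate skew matrix is positive, e.g. a square; or: deform; or use a power series
free argument: the characteristic polynomial `p` of an invertible `g`-skew map of an even-dimensional space is even), so
the characteristic polynomial has a positive root `lam` and a negative root `mu`; eigenvectors are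
null (`lam g(s,s) = ω(s,s) = 0`), `s`, `t` are independent null vectors, so `g (s, t) ≠ 0`, and
`lam g(s,t) = ω(s,t) = - ω(t,s) = - mu g(s,t)`. Uniqueness (see the module U below) shows that
`(A - lam) u = m s`, `l u = 0` implies `u = 0`, `m = 0` (`l` a linear form with `l s = 1`), and the
implicit (or inverse) function theorem for `(z, u, m) ↦ (z, A_z u - m u, l u - 1)` gives smooth `s`, `lam`; in
the same way `t` (for `- lam`), and rescale `t`. -/
def S_EL : Prop :=
  ∀ (E : Type u) [NormedAddCommGroup E] [NormedSpace ℝ E] [FiniteDimensional ℝ E]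
    (U : Set E), IsOpen U →
    ∀ (a : E → E →L[ℝ] ℝ), ContDiffOn ℝ ∞ a U → ∀ R : E → E,
    (∀ z ∈ U, a z (R z) = 1) → (∀ z ∈ U, ∀ w, dd a z (R z) w = 0) →
    (∀ z ∈ U, ∀ u, a z u = 0 → (∀ w, a z w = 0 → dd a z u w = 0) → u = 0) →
    ∀ g : E → E →L[ℝ] E →L[ℝ] ℝ, ContDiffOn ℝ ∞ g U → (∀ z ∈ U, ∀ u v, g z u v = g z v u) →
    (∀ z ∈ U, ∃ w, g z w w < 0 ∧ ∀ u, u ≠ 0 → g z u w = 0 → 0 < g z u u) →
    (∀ z ∈ U, ∀ u, g z (R z) u = a z u) → 1 < Module.finrank ℝ E →
    ∀ z₀ ∈ U, ∃ (V : Set E) (s t : E → E) (lam : E → ℝ), IsOpen V ∧ z₀ ∈ V ∧ V ⊆ U ∧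
      ContDiffOn ℝ ∞ s V ∧ ContDiffOn ℝ ∞ t V ∧ ContDiffOn ℝ ∞ lam V ∧ ∀ z ∈ V,
        0 < lam z ∧ (∀ w, dd a z (s z) w = lam z * g z (s z) w) ∧
        (∀ w, dd a z (t z) w = - (lam z * g z (t z) w)) ∧ g z (s z) (t z) = 1

/-- **Module U, pointwise uniqueness.** `g` Lorentzian, `ω` skew, `s`, `t` eigenvectors
as above. Then `s`, `t` are null, the eigenlines are unique, and `g` is positive definite on the
orthogonal complement of `s` and `t`. -/
def S_U : Prop :=
  ∀ (E : Type u) [NormedAddCommGroup E] [NormedSpace ℝ E] [FiniteDimensional ℝ E]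
    (g w : E →L[ℝ] E →L[ℝ] ℝ), (∀ u v, g u v = g v u) →
    (∃ e, g e e < 0 ∧ ∀ u, u ≠ 0 → g u e = 0 → 0 < g u u) → (∀ u v, w u v = - w v u) →
    ∀ (s t : E) (lam : ℝ), 0 < lam → (∀ v, w s v = lam * g s v) → (∀ v, w t v = - (lam * g t v)) →
      g s t = 1 → g s s = 0 ∧ g t t = 0 ∧
      (∀ u, u ≠ 0 → g u s = 0 → g u t = 0 → 0 < g u u) ∧
      ∀ (u : E) (mu : ℝ), u ≠ 0 → mu ≠ 0 → (∀ v, w u v = mu * g u v) →
        (mu = lam ∧ u = g u t • s) ∨ (mu = - lam ∧ u = g u s • t)

end Pool.Agent.H75.LR
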