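import Mathlib
import Pool.Agent.H75.LR.Defs
import Pool.Agent.H75.PR.Fin

/-! Reeb flows preserving a Lorentzian metric: the statements of the modules, second part. -/

open scoped Topology ContDiff Manifold
open Set Filter Pool.Agent.H826R2.WStmt Pool.Agent.W671.RStmt
open Pool.Agent.H75.PRStmt Pool.Agent.H75.PR

noncomputable section

set_option maxSynthPendingDepth 3
set_option linter.unusedSectionVars false

namespace Pool.Agent.H75.LR

universe u v

/-- **Module UD, uniform divergence of the derivatives.** If the Reeb flow preserves a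
pseudo-Riemannian metric and does not have two disjoint closed orbits, then for every `C` there is
one time `T > 0` such that at EVERY point `x` the derivative of the time `T` map has norm larger than `C`
(norms measured by the immersion `e`).

Proof: otherwise (take `T = k = 1, 2, ...`) there are points `x k` with
`‖D (e ∘ Φ_k) (x k) v‖ ≤ C ‖D e (x k) v‖` for all `v`. Along an ultrafilter `l`, `x k → x'` and
`Φ_k (x k) → y`. In the charts at `x'` and at `y` the maps `Φ_k` are isometries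
`f` from `G₁ = cBil g x'` to `G₂ = cBil g y` with `‖Df‖ ≤ C'` at `z k = ch (x k)`, `z k → ch x'`.
Koszul's formula (Calc.lean, `koszul`, there with `G₁ = G₂`) gives
`2 G₂ (D²f (w,u), Df v) = S (w,u,v) + S (u,w,v) - S (v,w,u)`,
`S (w,u,v) = DG₁ w (u,v) - DG₂ (Df w) (Df u, Df v)`, and
`‖G₁ u‖ ≤ ‖Df‖ ‖G₂ (Df u)‖` bounds the inverse of `Df` by a multiple of `‖Df‖`, so `‖D²f‖ ≤ K (‖Df‖)`
with a bounded function `K`, and `‖Df‖` is bounded from below. The lemma `continuation` of Ode.lean,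
for `F s = (κ (f (z + s w) - f z), Df (z + s w))`, shows that `‖Df‖ ≤ 2 C'` and `f` stays in the chart
on the ball of radius `ρ (C') > 0` around `z k`, hence at `ch x'` for large `k`. So the derivatives
`hD y Φ_k x'` are bounded along `l` and `Φ_k x' → y`: now `exists_near` (Rec.lean) and
`periodic_of_near` (see the proof of `main` in Fin.lean, also for `bdd_of_imm`) give two closed
orbits. -/
def S_UD : Prop :=
  ∀ (E : Type u) [NormedAddCommGroup E] [NormedSpace ℝ E] [FiniteDimensional ℝ E],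
    1 < Module.finrank ℝ E →
    ∀ (M : Type v) [TopologicalSpace M] [ChartedSpace E M] [IsManifold 𝓘(ℝ, E) ∞ M]
    [T2Space M] [CompactSpace M] [ConnectedSpace M] (α : M → Cov E), IsContact α →
    ∀ R : M → E, IsReeb α R → ∀ Φ : M → ℝ → M, IsFlow R Φ →
    ∀ g : M → Bil E, IsPseudoMetric g → Preserves Φ g →
    ∀ (m : ℕ) (e : M → EuclideanSpace ℝ (Fin m)), IsInjImmersion (E := E) e →
    (¬ ∃ (c₁ c₂ : ℝ → M) (T₁ T₂ : ℝ), IsPeriodicOrbit R c₁ T₁ ∧ IsPeriodicOrbit R c₂ T₂ ∧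
      Disjoint (Set.range c₁) (Set.range c₂)) →
    ∀ C : ℝ, ∃ T : ℝ, 0 < T ∧ ∀ x : M, ∃ v : E,
      C * ‖D (E := E) (E' := EuclideanSpace ℝ (Fin m)) e x v‖ <
        ‖D (E := E) (E' := EuclideanSpace ℝ (Fin m)) (fun y => e (Φ y T)) x v‖

/-- **Module GR, the growth rate.** In the chart at `p` let `s` be a vector field of length one
(length measured by `e`), `ep` a one-form with `ep s = 1`, `ep R = 0`, and let the derivatives of
the flow for small times map `s z₀` to multiples of `s`. Then the logarithm of the length of the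
image of `s z₀` under the derivative of the time `t` map has at `t = 0` the derivative
`- (d ep) (s, R)`.

Proof: `ψ_t = ch ∘ Φ_t ∘ ch⁻¹` is smooth in `(t, z)` near `(0, z₀)`, `∂_t ψ_t = R_p ∘ ψ_t`, so
`∂_t Dψ_t = D R_p` at `t = 0`. If `Dψ_t (z₀) (s z₀) = h t • s (ψ_t z₀)` then
`h t = ep (ψ_t z₀) (Dψ_t (z₀) (s z₀))`, `h 0 = 1`,
`h' 0 = (D ep) (R) (s) + ep (DR s) = (D ep) (R) (s) - (D ep) (s) (R)` (differentiate `ep R = 0`), and the length is
`|h t|`. -/
def S_GR : Prop :=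
  ∀ (E : Type u) [NormedAddCommGroup E] [NormedSpace ℝ E] [FiniteDimensional ℝ E]
    (M : Type v) [TopologicalSpace M] [ChartedSpace E M] [IsManifold 𝓘(ℝ, E) ∞ M]
    [T2Space M] [CompactSpace M] (R : M → E) (Φ : M → ℝ → M), IsFlow R Φ →
    ContMDiff (𝓘(ℝ, E).prod 𝓘(ℝ, ℝ)) 𝓘(ℝ, E) ∞ (fun q : M × ℝ => Φ q.1 q.2) →
    ∀ (m : ℕ) (e : M → EuclideanSpace ℝ (Fin m)),
    ContMDiff 𝓘(ℝ, E) 𝓘(ℝ, EuclideanSpace ℝ (Fin m)) ∞ e →
    ∀ (p : M), ∀ z₀ ∈ (ch E p).target, ∀ (s : E → E) (ep : E → E →L[ℝ] ℝ),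
    ContDiffAt ℝ ∞ s z₀ → ContDiffAt ℝ ∞ ep z₀ →
    (∀ᶠ z in 𝓝 z₀, ep z (s z) = 1 ∧ ep z (cVec R p z) = 0 ∧
      ‖fderiv ℝ (e ∘ (ch E p).symm) z (s z)‖ = 1) →
    (∀ᶠ t in 𝓝 (0:ℝ), ∃ h : ℝ, fderiv ℝ (hat E p (fun y => Φ y t)) z₀ (s z₀) =
      h • s (hat E p (fun y => Φ y t) z₀)) →
    HasDerivAt (fun t : ℝ => Real.log
      ‖fderiv ℝ (e ∘ (fun y => Φ y t) ∘ (ch E p).symm) z₀ (s z₀)‖)
      (- dd ep z₀ (s z₀) (cVec R p z₀)) 0

end Pool.Agent.H75.LR
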