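import Mathlib
import Pool.Agent.H75.LR.Defs

/-! Reeb flows preserving a Lorentzian metric: definitions used by the modules, second part. -/

open scoped Topology ContDiff Manifold
open Set Filter Pool.Agent.H826R2.WStmt Pool.Agent.W671.RStmt
open Pool.Agent.H75.PRStmt Pool.Agent.H75.PR

noncomputable section

set_option maxSynthPendingDepth 3
set_option linter.unusedSectionVars false

namespace Pool.Agent.H75.LR

variable {E : Type*} [NormedAddCommGroup E] [NormedSpace ℝ E]
  {M : Type*} [TopologicalSpace M] [ChartedSpace E M]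

/-- the one-form `θ` read in the chart at `p` -/
def cCov (θ : M → Cov E) (p : M) (y : E) : E →L[ℝ] ℝ :=
  (show E →L[ℝ] ℝ from θ ((ch E p).symm y)).comp (Dsy E p y)

/-- the field of endomorphisms `P` read in the chart at `p` -/
def cEnd (P : M → E →L[ℝ] E) (p : M) (y : E) : E →L[ℝ] E :=
  (D (E := E) (E' := E) (ch E p) ((ch E p).symm y)).comp ((P ((ch E p).symm y)).comp (Dsy E p y))

/-- smooth one-forms -/
def SmoothCov (θ : M → Cov E) : Prop := ∀ p : M, ContDiffOn ℝ ∞ (cCov θ p) (ch E p).target

lemma cCov_apply (θ : M → Cov E) (p : M) (y u : E) :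
    cCov θ p y u = ev (θ ((ch E p).symm y)) (Dsy E p y u) := rfl

lemma cEnd_apply (P : M → E →L[ℝ] E) (p : M) (y u : E) :
    cEnd P p y u = D (E := E) (E' := E) (ch E p) ((ch E p).symm y)
      (P ((ch E p).symm y) (Dsy E p y u)) := rfl

end Pool.Agent.H75.LR
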