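import Mathlib
import Pool.Agent.H75.LR.Defs2

/-! Reeb flows preserving a Lorentzian metric: the statements of the modules, third part. -/

open scoped Topology ContDiff Manifold
open Set Filter Pool.Agent.H826R2.WStmt Pool.Agent.W671.RStmt
open Pool.Agent.H75.PRStmt Pool.Agent.H75.PR

noncomputable section

set_option maxSynthPendingDepth 3
set_option linter.unusedSectionVars false

namespace Pool.Agent.H75.LR

universe u v

/-- **Module RD, reduction to `g (R, ·) = α`.** If `g (R, R) > 0` everywhere then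
`g' = g - (g (R, ·) ⊗ g (R, ·)) / g (R, R) + α ⊗ α` is a Lorentzian metric, preserved by the flow,
with `g' (R, ·) = α`.

Proof: with `π u = u - g (R, u) / g (R, R) • R` (orthogonal projection onto `R^⊥`) one has
`g' (u, v) = g (π u, π v) + α u * α v`. For `w₁` from `IsLorentz g` put `w₀ = π w₁`; then
`g (w₀, w₀) = g (w₁, w₁) - g (R, w₁)² / g (R, R) < 0`, and for `w = w₀ - α w₀ • R` one has `π w = w₀`,
`α w = 0`; `g` is positive definite on the complement of `w₀` (`pos_of_causal` in PR/Fin.lean with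
`r = w₀`, `a = g (w₀, ·) / g (w₀, w₀)`), and `g' (u, u) = 0` with `g' (u, w) = 0` gives `π u = 0`,
`α u = 0`, so `u = 0`. Invariance: `DΦ_t R = R ∘ Φ_t`, `α` is invariant (see `WU.RF` in
Pool/Graph/R_seed8/W671, `rf_of` in PR/Fin.lean). Smoothness of `v ↦ g' (v, v)` on the tangent bundle:
`v ↦ R + v` is smooth on the tangent bundle and
`g (R, v) = (g (R + v, R + v) - g (R, R) - g (v, v)) / 2`; or prove smoothness of
`cBil g' p` for all `p` and use `contMDiff_tangentBundleModelSpaceHomeomorph` or similar. -/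
def S_RD : Prop :=
  ∀ (E : Type u) [NormedAddCommGroup E] [NormedSpace ℝ E] [FiniteDimensional ℝ E]
    (M : Type v) [TopologicalSpace M] [ChartedSpace E M] [IsManifold 𝓘(ℝ, E) ∞ M]
    [T2Space M] [CompactSpace M] (α : M → Cov E), IsContact α →
    ∀ R : M → E, IsReeb α R → ∀ Φ : M → ℝ → M, IsFlow R Φ →
    ∀ g : M → Bil E, IsPseudoMetric g → (∀ x, IsLorentz (g x)) → Preserves Φ g →
    (∀ x, 0 < bev (g x) (R x) (R x)) →
    ∃ g' : M → Bil E, IsPseudoMetric g' ∧ (∀ x, IsLorentz (g' x)) ∧ Preserves Φ g' ∧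
      ∀ x u, bev (g' x) (R x) u = ev (α x) u

/-- **Module IN, integral of an additive cocycle.** Proof: for invariant `k` the function
`F s = I (L s * k)` is additive, as `I` and `k` are invariant. `L` has at every time `t` the derivative
`ρ (Φ x t)` in `t`, so `‖L s / s - ρ‖ → 0` (`s → 0`) uniformly on `M` (mean value inequality and
uniform continuity of `ρ ∘ Φ`), so `F s / s → I (ρ * k)` because `|I f| ≤ I 1 * ‖f‖`. Take `s = T / m`,
`m → ∞`. -/
def S_IN : Prop :=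
  ∀ (M : Type v) [TopologicalSpace M] [T2Space M] [CompactSpace M] (Φ : M → ℝ → M),
    Continuous (fun q : M × ℝ => Φ q.1 q.2) → (∀ x, Φ x 0 = x) →
    (∀ x s t, Φ x (s + t) = Φ (Φ x s) t) → ∀ I : C(M, ℝ) →ₗ[ℝ] ℝ,
    (∀ f : C(M, ℝ), (∀ x, 0 ≤ f x) → 0 ≤ I f) →
    (∀ (t : ℝ) (F : C(M, M)), (∀ x, F x = Φ x t) → ∀ f : C(M, ℝ), I (f.comp F) = I f) →
    ∀ L : ℝ → C(M, ℝ), (∀ s t x, L (s + t) x = L s x + L t (Φ x s)) →
    ∀ ρ : C(M, ℝ), (∀ x, HasDerivAt (fun t => L t x) (ρ x) 0) →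
    ∀ k : C(M, ℝ), (∀ x t, k (Φ x t) = k x) → ∀ T : ℝ, I (L T * k) = T * I (ρ * k)

/-- **Module CM, comparison** of a positive definite metric (continuous in the charts) with the
metric induced by an immersion, on a compact manifold. -/
def S_CM : Prop :=
  ∀ (E : Type u) [NormedAddCommGroup E] [NormedSpace ℝ E] [FiniteDimensional ℝ E]
    (M : Type v) [TopologicalSpace M] [ChartedSpace E M] [IsManifold 𝓘(ℝ, E) ∞ M]
    [T2Space M] [CompactSpace M] (h : M → Bil E),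
    (∀ p : M, ContinuousOn (cBil h p) (ch E p).target) →
    (∀ x u, u ≠ 0 → 0 < bev (h x) u u) →
    ∀ (m : ℕ) (e : M → EuclideanSpace ℝ (Fin m)), IsInjImmersion (E := E) e →
    ∃ C : ℝ, 0 < C ∧ ∀ (x : M) (v : E),
      ‖D (E := E) (E' := EuclideanSpace ℝ (Fin m)) e x v‖ ^ 2 ≤ C * bev (h x) v v ∧
      bev (h x) v v ≤ C * ‖D (E := E) (E' := EuclideanSpace ℝ (Fin m)) e x v‖ ^ 2

/-- **Module VF, vector fields from one-forms**: `B (X, ·) = θ` has a smooth solution `X`, if `B` is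
a smooth nondegenerate bilinear form, and `θ` a smooth one-form. (In a chart:
`contDiffAt_map_inverse`.) -/
def S_VF : Prop :=
  ∀ (E : Type u) [NormedAddCommGroup E] [NormedSpace ℝ E] [FiniteDimensional ℝ E]
    (M : Type v) [TopologicalSpace M] [ChartedSpace E M] [IsManifold 𝓘(ℝ, E) ∞ M]
    (B : M → Bil E), SmoothBil B → (∀ x u, (∀ v, bev (B x) u v = 0) → u = 0) →
    ∀ θ : M → Cov E, SmoothCov θ →
    ∃ X : M → E, SmoothVec X ∧ ∀ x v, bev (B x) (X x) v = ev (θ x) v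

/-- **Module EN, the end of the proof** (uses DV, LD, IN, VF). `W = dα + α ⊗ α`.

Proof. `X` is given by `W (X, ·) = θ - θ(R) α` (then `α X = 0`, as `W (X, R) = α X`), and
`XQ = X - P X`; both are smooth vector fields. `ρ = - θ(R)`. By LD in every chart, with the density
`v = dens b (cBil W p)` (which is `dens b (BB (cCov α p))`),
`div (v X) = v (c + n ρ)`, `div (v c XQ) = v (n - 1) c ρ`. For `ε > 0` and `r = √(c² + ε)` this gives
`div (v r XQ) = v (n - 1) ρ c² / r + (ε / r) div (v XQ)` (write `δ = div (v XQ)`, then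
`v dc(XQ) = v (n - 1) c ρ - c δ` and `div (v r XQ) = v (c / r) dc(XQ) + r δ`), and
`0 ≤ ε / r ≤ √ε`, so DV with `Y = XQ` gives `|I ((n - 1) ρ c² / r)| ≤ K √ε` with `K` independent of `ε`.
By IN, `I (ρ k) = I (L T * k) / T ≥ δ' / T * I k` for every continuous invariant `k ≥ 0` (where
`L T ≥ δ' > 0`). With `k = c² / √(c² + ε) ≥ c² / √(c² + 1)` for `ε ≤ 1` this gives
`I (c² / √(c² + 1)) ≤ const * √ε` for all small `ε`, so `c = 0` by strict positivity of `I`. Then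
`div (v X) = v n ρ`, so `I ρ = 0` by DV (`ε = 0`), but `I ρ ≥ δ' / T * I 1 > 0`. -/
def S_EN : Prop :=
  ∀ (E : Type u) [NormedAddCommGroup E] [NormedSpace ℝ E] [FiniteDimensional ℝ E] (n : ℕ),
    Module.finrank ℝ E = 2 * n + 1 → 2 ≤ n →
    ∀ (M : Type v) [TopologicalSpace M] [ChartedSpace E M] [IsManifold 𝓘(ℝ, E) ∞ M]
    [T2Space M] [CompactSpace M] [Nonempty M] (α : M → Cov E) (R : M → E),
    SmoothCov α → SmoothVec R →
    (∀ p : M, ∀ z ∈ (ch E p).target, cCov α p z (cVec R p z) = 1) →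
    (∀ p : M, ∀ z ∈ (ch E p).target, ∀ w, dd (cCov α p) z (cVec R p z) w = 0) →
    (∀ p : M, ∀ z ∈ (ch E p).target, ∀ u, cCov α p z u = 0 →
      (∀ w, cCov α p z w = 0 → dd (cCov α p) z u w = 0) → u = 0) →
    ∀ W : M → Bil E, SmoothBil W → (∀ x u, (∀ v, bev (W x) u v = 0) → u = 0) →
    (∀ p : M, ∀ z ∈ (ch E p).target, cBil W p z = BB (cCov α p) z) →
    ∀ Φ : M → ℝ → M, Continuous (fun q : M × ℝ => Φ q.1 q.2) → (∀ x, Φ x 0 = x) →
    (∀ x s t, Φ x (s + t) = Φ (Φ x s) t) →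
    (∀ t, ContMDiff 𝓘(ℝ, E) 𝓘(ℝ, E) ∞ (fun x => Φ x t)) →
    (∀ (t : ℝ) (x : M) (u v : E),
      bev (W (Φ x t)) (D (E := E) (E' := E) (fun y => Φ y t) x u)
        (D (E := E) (E' := E) (fun y => Φ y t) x v) = bev (W x) u v) →
    ∀ P : M → E →L[ℝ] E, (∀ p : M, ContDiffOn ℝ ∞ (cEnd P p) (ch E p).target) →
    (∀ p : M, ∀ z ∈ (ch E p).target, ∀ u, cEnd P p z (cEnd P p z u) = cEnd P p z u) →
    (∀ p : M, ∀ z ∈ (ch E p).target, LinearMap.trace ℝ E (cEnd P p z : E →ₗ[ℝ] E) = 2) →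
    (∀ p : M, ∀ z ∈ (ch E p).target, cEnd P p z (cVec R p z) = 0) →
    (∀ p : M, ∀ z ∈ (ch E p).target, ∀ u, cCov α p z (cEnd P p z u) = 0) →
    (∀ p : M, ∀ z ∈ (ch E p).target, ∀ u w,
      dd (cCov α p) z (cEnd P p z u) w = dd (cCov α p) z u (cEnd P p z w)) →
    ∀ θ : M → Cov E, SmoothCov θ → ∀ c : C(M, ℝ),
    (∀ p : M, ContDiffOn ℝ ∞ (fun z => c ((ch E p).symm z)) (ch E p).target) →
    (∀ x t, c (Φ x t) = c x) →
    (∀ p : M, ∀ z ∈ (ch E p).target, ∀ u w,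
      dd (cCov θ p) z u w = c ((ch E p).symm z) * dd (cCov α p) z (cEnd P p z u) w) →
    ∀ L : ℝ → C(M, ℝ), (∀ s t x, L (s + t) x = L s x + L t (Φ x s)) →
    (∀ x, HasDerivAt (fun t => L t x) (- ev (θ x) (R x)) 0) →
    ∀ (T δ : ℝ), 0 < T → 0 < δ → (∀ x, δ ≤ L T x) → False

end Pool.Agent.H75.LR
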