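import Mathlib
import Pool.Agent.H75.LR.Defs

/-! Local calculus of one-forms: pull back, the connection form of a pair of line fields, change of
gauge. -/

open scoped Topology ContDiff
open Set Filter

noncomputable section

set_option maxSynthPendingDepth 3
set_option linter.unusedSectionVars false

namespace Pool.Agent.H75.LR

variable {E : Type*} [NormedAddCommGroup E] [NormedSpace ℝ E]

lemma two_le_inf : (2 : WithTop ℕ∞) ≤ ∞ := WithTop.coe_le_coe.2 le_top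

/-- smooth near a point -/
def Sm {W : Type*} [NormedAddCommGroup W] [NormedSpace ℝ W] (f : E → W) (z : E) : Prop :=
  ∀ᶠ y in 𝓝 z, ContDiffAt ℝ ∞ f y

lemma Sm.at {W : Type*} [NormedAddCommGroup W] [NormedSpace ℝ W] {f : E → W} {z : E}
    (h : Sm f z) : ContDiffAt ℝ ∞ f z := h.self_of_nhds

lemma Sm.eventually {W : Type*} [NormedAddCommGroup W] [NormedSpace ℝ W] {f : E → W} {z : E}
    (h : Sm f z) : ∀ᶠ y in 𝓝 z, Sm f y := eventually_eventually_nhds.2 h

lemma Sm.diff {W : Type*} [NormedAddCommGroup W] [NormedSpace ℝ W] {f : E → W} {z : E}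
    (h : Sm f z) : DifferentiableAt ℝ f z := h.at.differentiableAt (by simp)

lemma Sm.of_on {W : Type*} [NormedAddCommGroup W] [NormedSpace ℝ W] {f : E → W} {V : Set E}
    (hV : IsOpen V) (h : ContDiffOn ℝ ∞ f V) {z : E} (hz : z ∈ V) : Sm f z := by
  filter_upwards [hV.mem_nhds hz] with y hy
  exact h.contDiffAt (hV.mem_nhds hy)

/-- the exterior derivative as a continuous bilinear map -/
def ddL (a : E → E →L[ℝ] ℝ) (z : E) : E →L[ℝ] E →L[ℝ] ℝ := fderiv ℝ a z - (fderiv ℝ a z).flip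

lemma ddL_apply (a : E → E →L[ℝ] ℝ) (z u w : E) : ddL a z u w = dd a z u w := by
  simp [ddL, dd]

lemma dd_skew (a : E → E →L[ℝ] ℝ) (z u w : E) : dd a z u w = - dd a z w u := by
  simp [dd]

lemma dd_self (a : E → E →L[ℝ] ℝ) (z u : E) : dd a z u u = 0 := by
  simp [dd]

lemma dd_add_left (a : E → E →L[ℝ] ℝ) (z u u' w : E) :
    dd a z (u + u') w = dd a z u w + dd a z u' w := by
  simp only [← ddL_apply, map_add, add_apply]

lemma dd_smul_left (a : E → E →L[ℝ] ℝ) (z u w : E) (c : ℝ) :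
    dd a z (c • u) w = c * dd a z u w := by
  simp only [← ddL_apply, map_smul, ContinuousLinearMap.smul_apply, smul_eq_mul]

lemma dd_add_right (a : E → E →L[ℝ] ℝ) (z u w w' : E) :
    dd a z u (w + w') = dd a z u w + dd a z u w' := by
  simp only [← ddL_apply, map_add]

lemma dd_smul_right (a : E → E →L[ℝ] ℝ) (z u w : E) (c : ℝ) :
    dd a z u (c • w) = c * dd a z u w := by
  simp only [← ddL_apply, map_smul, smul_eq_mul]

lemma dd_congr {a a' : E → E →L[ℝ] ℝ} {z : E} (h : a =ᶠ[𝓝 z] a') (u w : E) :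
    dd a z u w = dd a' z u w := by
  unfold dd
  rw [h.fderiv_eq]

lemma contDiffAt_ddL {a : E → E →L[ℝ] ℝ} {z : E} (h : ContDiffAt ℝ ∞ a z) :
    ContDiffAt ℝ ∞ (ddL a) z := by
  have h1 : ContDiffAt ℝ ∞ (fderiv ℝ a) z := h.fderiv_right (m := ∞) (by simp)
  have h2 : ContDiffAt ℝ ∞ (fun y => (fderiv ℝ a y).flip) z :=
    (ContinuousLinearMap.flipₗᵢ ℝ E E ℝ).contDiff.contDiffAt.comp z h1
  exact h1.sub h2

/-- pull back of a one-form -/
def pb (ψ : E → E) (a : E → E →L[ℝ] ℝ) (y : E) : E →L[ℝ] ℝ := (a (ψ y)).comp (fderiv ℝ ψ y)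

lemma dd_pb {ψ : E → E} {a : E → E →L[ℝ] ℝ} {z : E} (hψ : ContDiffAt ℝ 2 ψ z)
    (ha : DifferentiableAt ℝ a (ψ z)) (u w : E) :
    dd (pb ψ a) z u w = dd a (ψ z) (fderiv ℝ ψ z u) (fderiv ℝ ψ z w) := by
  have hd : HasFDerivAt ψ (fderiv ℝ ψ z) z := (hψ.differentiableAt (by norm_num)).hasFDerivAt
  have hA : HasFDerivAt (fderiv ℝ ψ) (fderiv ℝ (fderiv ℝ ψ) z) z :=
    ((hψ.fderiv_right (m := 1) (by norm_num)).differentiableAt (by norm_num)).hasFDerivAt
  have h1 : HasFDerivAt (fun y => a (ψ y)) ((fderiv ℝ a (ψ z)).comp (fderiv ℝ ψ z)) z :=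
    HasFDerivAt.comp z (g := a) (f := ψ) ha.hasFDerivAt hd
  have h2 := h1.clm_comp hA
  have h3 : ∀ u w : E, fderiv ℝ (pb ψ a) z u w =
      a (ψ z) (fderiv ℝ (fderiv ℝ ψ) z u w) + fderiv ℝ a (ψ z) (fderiv ℝ ψ z u) (fderiv ℝ ψ z w) := by
    intro u w
    have h4 : fderiv ℝ (pb ψ a) z = _ := h2.fderiv
    rw [h4]
    simp
  have hs : fderiv ℝ (fderiv ℝ ψ) z u w = fderiv ℝ (fderiv ℝ ψ) z w u :=
    hψ.isSymmSndFDerivAt (by simp) u w
  unfold dd
  rw [h3, h3, hs]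
  ring

lemma contDiffAt_pb {ψ : E → E} {a : E → E →L[ℝ] ℝ} {z : E} (hψ : ContDiffAt ℝ ∞ ψ z)
    (ha : ContDiffAt ℝ ∞ a (ψ z)) : ContDiffAt ℝ ∞ (pb ψ a) z :=
  (ha.comp z hψ).clm_comp (hψ.fderiv_right (m := ∞) (by simp))

lemma dd_smul_fun {a : E → E →L[ℝ] ℝ} {h : E → ℝ} {z : E} (hh : DifferentiableAt ℝ h z)
    (ha : DifferentiableAt ℝ a z) (u w : E) :
    dd (fun y => h y • a y) z u w =
      h z * dd a z u w + fderiv ℝ h z u * a z w - fderiv ℝ h z w * a z u := by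
  have h1 : HasFDerivAt (fun y => h y • a y) _ z := hh.hasFDerivAt.smul ha.hasFDerivAt
  unfold dd
  rw [h1.fderiv]
  simp
  ring

lemma dd_sub {a a' : E → E →L[ℝ] ℝ} {z : E} (ha : DifferentiableAt ℝ a z)
    (ha' : DifferentiableAt ℝ a' z) (u w : E) :
    dd (fun y => a y - a' y) z u w = dd a z u w - dd a' z u w := by
  unfold dd
  rw [show (fun y => a y - a' y) = a - a' from rfl, fderiv_sub ha ha']
  simp
  ring

/-- a form `dh / h` is closed -/
lemma dd_dlog {h : E → ℝ} {z : E} (hh : ContDiffAt ℝ ∞ h z) (h0 : h z ≠ 0) (u w : E) :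
    dd (fun y => (h y)⁻¹ • fderiv ℝ h y) z u w = 0 := by
  have h1 : DifferentiableAt ℝ h z := hh.differentiableAt (by simp)
  have h2 : ContDiffAt ℝ ∞ (fderiv ℝ h) z := hh.fderiv_right (m := ∞) (by simp)
  have h3 : DifferentiableAt ℝ (fderiv ℝ h) z := h2.differentiableAt (by simp)
  have h4 : DifferentiableAt ℝ (fun y => (h y)⁻¹) z := h1.inv h0
  rw [dd_smul_fun h4 h3]
  have h5 : dd (fderiv ℝ h) z u w = 0 := by
    unfold dd
    have : fderiv ℝ (fderiv ℝ h) z u w = fderiv ℝ (fderiv ℝ h) z w u :=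
      (hh.of_le (m := 2) two_le_inf).isSymmSndFDerivAt (by simp) u w
    rw [this, sub_self]
  have h6 : fderiv ℝ (fun y => (h y)⁻¹) z = -(h z ^ 2)⁻¹ • fderiv ℝ h z := by
    have := (hasDerivAt_inv h0).comp_hasFDerivAt z h1.hasFDerivAt
    have h7 := this.fderiv
    rw [show (fun y => (h y)⁻¹) = Inv.inv ∘ h from rfl, h7]
  rw [h5, h6]
  simp
  ring

/-- the connection form of a pair of line fields -/
def thet (ep em : E → E →L[ℝ] ℝ) (s t : E → E) (y : E) : E →L[ℝ] ℝ :=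
  ddL ep y (s y) + (ddL em y (s y) (t y)) • ep y

lemma thet_apply (ep em : E → E →L[ℝ] ℝ) (s t : E → E) (y u : E) :
    thet ep em s t y u = dd ep y (s y) u + dd em y (s y) (t y) * ep y u := by
  simp [thet, ddL_apply]

/-- smooth dual frames near a point -/
structure Fr (ep em : E → E →L[ℝ] ℝ) (s t : E → E) (z : E) : Prop where
  hep : Sm ep z
  hem : Sm em z
  hs : Sm s z
  ht : Sm t z
  dual : ∀ᶠ y in 𝓝 z, ep y (s y) = 1 ∧ ep y (t y) = 0 ∧ em y (s y) = 0 ∧ em y (t y) = 1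

lemma Fr.eventually {ep em : E → E →L[ℝ] ℝ} {s t : E → E} {z : E} (h : Fr ep em s t z) :
    ∀ᶠ y in 𝓝 z, Fr ep em s t y := by
  filter_upwards [h.hep.eventually, h.hem.eventually,
    h.hs.eventually, h.ht.eventually, h.dual.eventually_nhds] with y h1 h2 h3 h4 h5
  exact ⟨h1, h2, h3, h4, h5⟩

lemma Fr.contDiffAt_thet {ep em : E → E →L[ℝ] ℝ} {s t : E → E} {z : E} (h : Fr ep em s t z) :
    ContDiffAt ℝ ∞ (thet ep em s t) z := by
  have h1 : ContDiffAt ℝ ∞ (fun y => ddL ep y (s y)) z :=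
    (contDiffAt_ddL h.hep.at).clm_apply h.hs.at
  have h2 : ContDiffAt ℝ ∞ (fun y => ddL em y (s y) (t y)) z :=
    ((contDiffAt_ddL h.hem.at).clm_apply h.hs.at).clm_apply h.ht.at
  exact h1.add (h2.smul h.hep.at)

lemma Fr.sm_thet {ep em : E → E →L[ℝ] ℝ} {s t : E → E} {z : E} (h : Fr ep em s t z) :
    Sm (thet ep em s t) z := by
  filter_upwards [h.eventually] with y hy
  exact hy.contDiffAt_thet

lemma thet_pb {Ep Em ep em : E → E →L[ℝ] ℝ} {S T s t : E → E} {ψ : E → E} {z : E}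
    (hψ : Sm ψ z) (hF : Fr Ep Em S T (ψ z))
    (h1 : ep =ᶠ[𝓝 z] pb ψ Ep) (h2 : em =ᶠ[𝓝 z] pb ψ Em)
    (h3 : ∀ᶠ y in 𝓝 z, fderiv ℝ ψ y (s y) = S (ψ y))
    (h4 : ∀ᶠ y in 𝓝 z, fderiv ℝ ψ y (t y) = T (ψ y)) :
    thet ep em s t =ᶠ[𝓝 z] pb ψ (thet Ep Em S T) := by
  filter_upwards [h1.eventuallyEq_nhds, h2.eventuallyEq_nhds, h3, h4, hψ,
    hψ.at.continuousAt.eventually hF.eventually] with y e1 e2 e3 e4 e5 e6
  refine ContinuousLinearMap.ext fun u => ?_
  have hy2 : ContDiffAt ℝ 2 ψ y := e5.of_le two_le_inf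
  rw [thet_apply, dd_congr e1, dd_congr e2, dd_pb hy2 e6.hep.diff,
    dd_pb hy2 e6.hem.diff, e3, e4]
  show _ = thet Ep Em S T (ψ y) (fderiv ℝ ψ y u)
  rw [thet_apply]
  have e7 : ep y u = Ep (ψ y) (fderiv ℝ ψ y u) := by rw [e1.eq_of_nhds]; rfl
  rw [e7]

lemma thet_gauge {ep em : E → E →L[ℝ] ℝ} {s t : E → E} {h : E → ℝ} {z : E}
    (hF : Fr ep em s t z) (hh : Sm h z) (h0 : h z ≠ 0) :
    thet (fun y => h y • ep y) (fun y => (h y)⁻¹ • em y) (fun y => (h y)⁻¹ • s y)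
      (fun y => h y • t y) =ᶠ[𝓝 z] fun y => thet ep em s t y - (h y)⁻¹ • fderiv ℝ h y := by
  have hne : ∀ᶠ y in 𝓝 z, h y ≠ 0 := hh.at.continuousAt.eventually_ne h0
  filter_upwards [hF.eventually, hh, hne] with y e1 e2 e3
  have d1 : DifferentiableAt ℝ h y := e2.differentiableAt (by simp)
  have d2 : DifferentiableAt ℝ (fun y => (h y)⁻¹) y := d1.inv e3
  have d3 : fderiv ℝ (fun y => (h y)⁻¹) y = -(h y ^ 2)⁻¹ • fderiv ℝ h y := by
    have := (hasDerivAt_inv e3).comp_hasFDerivAt y d1.hasFDerivAt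
    have h7 := this.fderiv
    rw [show (fun y => (h y)⁻¹) = Inv.inv ∘ h from rfl, h7]
  obtain ⟨f1, f2, f3, f4⟩ := e1.dual.self_of_nhds
  refine ContinuousLinearMap.ext fun u => ?_
  have g1 := dd_smul_fun (a := ep) d1 e1.hep.diff ((h y)⁻¹ • s y) u
  have g2 := dd_smul_fun (a := em) d2 e1.hem.diff ((h y)⁻¹ • s y)
    (h y • t y)
  rw [thet_apply, g1, g2, d3]
  simp only [dd_smul_left, dd_smul_right, map_smul, smul_eq_mul, f1, f2, f3, f4,
    ContinuousLinearMap.smul_apply, sub_apply, thet_apply]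
  field_simp
  ring

/-- **Transformation of the connection form** under a map which respects the two line fields -/
lemma thet_trans {Ep Em ep em : E → E →L[ℝ] ℝ} {S T s t : E → E} {ψ : E → E} {h : E → ℝ} {z : E}
    (hψ : Sm ψ z) (hF : Fr Ep Em S T (ψ z)) (hf : Fr ep em s t z)
    (hh : Sm h z) (h0 : h z ≠ 0)
    (h1 : ∀ᶠ y in 𝓝 z, pb ψ Ep y = h y • ep y) (h2 : ∀ᶠ y in 𝓝 z, pb ψ Em y = (h y)⁻¹ • em y)
    (h3 : ∀ᶠ y in 𝓝 z, fderiv ℝ ψ y (s y) = h y • S (ψ y))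
    (h4 : ∀ᶠ y in 𝓝 z, fderiv ℝ ψ y (t y) = (h y)⁻¹ • T (ψ y)) :
    pb ψ (thet Ep Em S T) =ᶠ[𝓝 z] fun y => thet ep em s t y - (h y)⁻¹ • fderiv ℝ h y := by
  have hne : ∀ᶠ y in 𝓝 z, h y ≠ 0 := hh.at.continuousAt.eventually_ne h0
  have k1 := thet_pb (ep := fun y => h y • ep y) (em := fun y => (h y)⁻¹ • em y)
    (s := fun y => (h y)⁻¹ • s y) (t := fun y => h y • t y) hψ hF
    (by filter_upwards [h1] with y e; exact e.symm)
    (by filter_upwards [h2] with y e; exact e.symm)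
    (by
      filter_upwards [h3, hne] with y e e'
      rw [map_smul, e, smul_smul, inv_mul_cancel₀ e', one_smul])
    (by
      filter_upwards [h4, hne] with y e e'
      rw [map_smul, e, smul_smul, mul_inv_cancel₀ e', one_smul])
  exact k1.symm.trans (thet_gauge hf hh h0)

/-- transformation of the curvature -/
lemma dd_thet_trans {Ep Em ep em : E → E →L[ℝ] ℝ} {S T s t : E → E} {ψ : E → E} {h : E → ℝ}
    {z : E}
    (hψ : Sm ψ z) (hF : Fr Ep Em S T (ψ z)) (hf : Fr ep em s t z)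
    (hh : Sm h z) (h0 : h z ≠ 0)
    (h1 : ∀ᶠ y in 𝓝 z, pb ψ Ep y = h y • ep y) (h2 : ∀ᶠ y in 𝓝 z, pb ψ Em y = (h y)⁻¹ • em y)
    (h3 : ∀ᶠ y in 𝓝 z, fderiv ℝ ψ y (s y) = h y • S (ψ y))
    (h4 : ∀ᶠ y in 𝓝 z, fderiv ℝ ψ y (t y) = (h y)⁻¹ • T (ψ y)) (u w : E) :
    dd (thet ep em s t) z u w =
      dd (thet Ep Em S T) (ψ z) (fderiv ℝ ψ z u) (fderiv ℝ ψ z w) := by
  have hy2 : ContDiffAt ℝ 2 ψ z := hψ.at.of_le two_le_inf
  rw [← dd_pb hy2 (hF.contDiffAt_thet.differentiableAt (by simp)),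
    dd_congr (thet_trans hψ hF hf hh h0 h1 h2 h3 h4), dd_sub
      (hf.contDiffAt_thet.differentiableAt (by simp)) ?_, dd_dlog hh.at h0, sub_zero]
  have g1 : ContDiffAt ℝ ∞ (fun y => (h y)⁻¹ • fderiv ℝ h y) z :=
    (hh.at.inv h0).smul (hh.at.fderiv_right (m := ∞) (by simp))
  exact g1.differentiableAt (by simp)

/-- If `d ep` vanishes on `ker ep` then the curvature vanishes there, too. -/
lemma dd_thet_ker {ep em : E → E →L[ℝ] ℝ} {s t : E → E} {z : E} (hf : Fr ep em s t z)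
    (hv : ∀ᶠ y in 𝓝 z, ∀ u w, ep y u = 0 → ep y w = 0 → dd ep y u w = 0) (u w : E)
    (hu : ep z u = 0) (hw : ep z w = 0) : dd (thet ep em s t) z u w = 0 := by
  set θ := thet ep em s t with hθ
  set σ : E := s z with hσ
  have hσ1 : ep z σ = 1 := hf.dual.self_of_nhds.1
  -- the structure equation
  have hst : ∀ᶠ y in 𝓝 z, ∀ a b, dd ep y a b = ep y a * θ y b - ep y b * θ y a := by
    filter_upwards [hf.dual, hv] with y e1 e2 a b
    have f1 : ep y (a - ep y a • s y) = 0 := by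
      rw [map_sub, map_smul, e1.1, smul_eq_mul, mul_one, sub_self]
    have f2 : ep y (b - ep y b • s y) = 0 := by
      rw [map_sub, map_smul, e1.1, smul_eq_mul, mul_one, sub_self]
    have f3 := e2 _ _ f1 f2
    have f4 : dd ep y a b = dd ep y (a - ep y a • s y) (b - ep y b • s y) +
        ep y a * dd ep y (s y) b - ep y b * dd ep y (s y) a := by
      have g1 : ∀ x, dd ep y (a - ep y a • s y) x = dd ep y a x - ep y a * dd ep y (s y) x := by
        intro x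
        rw [sub_eq_add_neg, ← neg_smul, dd_add_left, dd_smul_left]
        ring
      have g2 : ∀ x, dd ep y x (b - ep y b • s y) = dd ep y x b - ep y b * dd ep y x (s y) := by
        intro x
        rw [sub_eq_add_neg, ← neg_smul, dd_add_right, dd_smul_right]
        ring
      rw [g1, g2, g2, dd_self, dd_skew ep y a (s y)]
      ring
    rw [f4, f3, hθ, thet_apply, thet_apply]
    ring
  -- differentiate it
  have hep2 : ContDiffAt ℝ ∞ (fderiv ℝ ep) z := hf.hep.at.fderiv_right (m := ∞) (by simp)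
  have hH : HasFDerivAt (fderiv ℝ ep) (fderiv ℝ (fderiv ℝ ep) z) z :=
    (hep2.differentiableAt (by simp)).hasFDerivAt
  have hθd : HasFDerivAt θ (fderiv ℝ θ z) z :=
    (hf.contDiffAt_thet.differentiableAt (by simp)).hasFDerivAt
  have hepd : HasFDerivAt ep (fderiv ℝ ep z) z := hf.hep.diff.hasFDerivAt
  have hap : ∀ (a b : E), HasFDerivAt (fun y => dd ep y a b)
      ((ContinuousLinearMap.apply ℝ ℝ b).comp ((ContinuousLinearMap.apply ℝ (E →L[ℝ] ℝ) a).comp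
        (fderiv ℝ (fderiv ℝ ep) z)) -
       (ContinuousLinearMap.apply ℝ ℝ a).comp ((ContinuousLinearMap.apply ℝ (E →L[ℝ] ℝ) b).comp
        (fderiv ℝ (fderiv ℝ ep) z))) z := by
    intro a b
    have k : ∀ a b : E, HasFDerivAt (fun y => fderiv ℝ ep y a b)
        ((ContinuousLinearMap.apply ℝ ℝ b).comp ((ContinuousLinearMap.apply ℝ (E →L[ℝ] ℝ) a).comp
        (fderiv ℝ (fderiv ℝ ep) z))) z := fun a b =>
      (ContinuousLinearMap.apply ℝ ℝ b).hasFDerivAt.comp z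
        ((ContinuousLinearMap.apply ℝ (E →L[ℝ] ℝ) a).hasFDerivAt.comp z hH)
    exact (k a b).sub (k b a)
  have hq : ∀ (a b : E), HasFDerivAt (fun y => ep y a * θ y b - ep y b * θ y a)
      ((ep z a • (ContinuousLinearMap.apply ℝ ℝ b).comp (fderiv ℝ θ z) +
        θ z b • (ContinuousLinearMap.apply ℝ ℝ a).comp (fderiv ℝ ep z)) -
       (ep z b • (ContinuousLinearMap.apply ℝ ℝ a).comp (fderiv ℝ θ z) +
        θ z a • (ContinuousLinearMap.apply ℝ ℝ b).comp (fderiv ℝ ep z))) z := by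
    intro a b
    have k1 : ∀ b : E, HasFDerivAt (fun y => θ y b)
      ((ContinuousLinearMap.apply ℝ ℝ b).comp (fderiv ℝ θ z)) z := fun b =>
      (ContinuousLinearMap.apply ℝ ℝ b).hasFDerivAt.comp z hθd
    have k2 : ∀ b : E, HasFDerivAt (fun y => ep y b)
      ((ContinuousLinearMap.apply ℝ ℝ b).comp (fderiv ℝ ep z)) z := fun b =>
      (ContinuousLinearMap.apply ℝ ℝ b).hasFDerivAt.comp z hepd
    exact ((k2 a).mul (k1 b)).sub ((k2 b).mul (k1 a))
  have key : ∀ x a b : E, fderiv ℝ (fderiv ℝ ep) z x a b - fderiv ℝ (fderiv ℝ ep) z x b a =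
      ep z a * fderiv ℝ θ z x b + θ z b * fderiv ℝ ep z x a -
        (ep z b * fderiv ℝ θ z x a + θ z a * fderiv ℝ ep z x b) := by
    intro x a b
    have h1 := (hap a b).congr_of_eventuallyEq (f₁ := fun y => ep y a * θ y b - ep y b * θ y a)
      (by filter_upwards [hst] with y e; exact (e a b).symm)
    have h2 := DFunLike.congr_fun (h1.unique (hq a b)) x
    simpa using h2
  have hsy : ∀ a b c : E, fderiv ℝ (fderiv ℝ ep) z a b c = fderiv ℝ (fderiv ℝ ep) z b a c := by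
    intro a b c
    have := (hf.hep.at.of_le (m := 2) two_le_inf).isSymmSndFDerivAt (by simp) a b
    rw [this]
  have k1 := key σ u w
  have k2 := key u w σ
  have k3 := key w σ u
  have s1 := hst.self_of_nhds u w
  have s2 := hst.self_of_nhds σ u
  have s3 := hst.self_of_nhds σ w
  have e1 : dd θ z u w = fderiv ℝ θ z u w - fderiv ℝ θ z w u := rfl
  have e2 : dd ep z u w = fderiv ℝ ep z u w - fderiv ℝ ep z w u := rfl
  have e3 : dd ep z σ u = fderiv ℝ ep z σ u - fderiv ℝ ep z u σ := rfl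
  have e4 : dd ep z σ w = fderiv ℝ ep z σ w - fderiv ℝ ep z w σ := rfl
  have y1 := hsy σ u w
  have y2 := hsy σ w u
  have y3 := hsy u w σ
  rw [e2, hu, hw] at s1
  rw [e3, hu, hσ1] at s2
  rw [e4, hw, hσ1] at s3
  simp only [hu, hw, hσ1] at k1 k2 k3
  rw [e1]
  have t1 : fderiv ℝ ep z u w = fderiv ℝ ep z w u := by linarith
  have t2 : fderiv ℝ ep z σ u = fderiv ℝ ep z u σ + θ z u := by linarith
  have t3 : fderiv ℝ ep z σ w = fderiv ℝ ep z w σ + θ z w := by linarith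
  rw [t2, t3] at k1
  rw [t1] at k2
  linarith

end Pool.Agent.H75.LR
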