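import Mathlib
import Pool.Agent.H75.LR.Defs2
import Pool.Agent.H75.LR.Nat
import Pool.Agent.H75.PR.Fin

/-! Maps preserving a one-form and a metric, read in two charts. -/

open scoped Topology ContDiff Manifold
open Set Filter Pool.Agent.H826R2.WStmt Pool.Agent.W671.RStmt
open Pool.Agent.H75.PRStmt Pool.Agent.H75.PR Pool.Agent.W671 Pool.Agent.H826R2

noncomputable section

set_option maxSynthPendingDepth 3
set_option linter.unusedSectionVars false

namespace Pool.Agent.H75.LR

universe u v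

variable {E : Type u} [NormedAddCommGroup E] [NormedSpace ℝ E] [FiniteDimensional ℝ E]
  {M : Type v} [TopologicalSpace M] [ChartedSpace E M] [IsManifold 𝓘(ℝ, E) ∞ M]
  {F : Type*} [NormedAddCommGroup F] [NormedSpace ℝ F]

/-- a smooth map preserving `α` and `g` -/
structure Aut (α : M → Cov E) (g : M → Bil E) (f : M → M) : Prop where
  smooth : ContMDiff 𝓘(ℝ, E) 𝓘(ℝ, E) ∞ f
  inv : ∀ x u v, bev (g (f x)) (D (E := E) (E' := E) f x u) (D (E := E) (E' := E) f x v) =
    bev (g x) u v
  form : ∀ x u, ev (α (f x)) (D (E := E) (E' := E) f x u) = ev (α x) u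

/-- the map `f` read in the charts at `p` and `q` -/
def hat2 (E : Type*) [NormedAddCommGroup E] [NormedSpace ℝ E] {M : Type*} [TopologicalSpace M]
    [ChartedSpace E M] (p q : M) (f : M → M) : E → E := (ch E q) ∘ f ∘ (ch E p).symm

lemma D_id (x : M) (v : E) : D (E := E) (E' := E) (id : M → M) x v = v := by
  show mfderiv 𝓘(ℝ, E) 𝓘(ℝ, E) (id : M → M) x v = v
  rw [mfderiv_id]
  rfl

lemma Aut.id (α : M → Cov E) (g : M → Bil E) : Aut α g (id : M → M) where
  smooth := contMDiff_id
  inv := fun x u v => by rw [D_id, D_id]; rfl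
  form := fun x u => by rw [D_id]; rfl

variable {α : M → Cov E} {g : M → Bil E} {p q : M} {f : M → M} {z : E}

lemma hat2_eventually (hf : ContMDiff 𝓘(ℝ, E) 𝓘(ℝ, E) ∞ f) (hz : z ∈ (ch E p).target)
    (hs : f ((ch E p).symm z) ∈ (ch E q).source) :
    ∀ᶠ y in 𝓝 z, y ∈ (ch E p).target ∧ f ((ch E p).symm y) ∈ (ch E q).source := by
  have h1 : ContinuousAt (fun z => f ((ch E p).symm z)) z :=
    hf.continuous.continuousAt.comp (mdiff_symm hz).continuousAt
  filter_upwards [(isOpen_extChartAt_target p).mem_nhds hz,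
    h1.preimage_mem_nhds ((isOpen_extChartAt_source q).mem_nhds hs)] with z h2 h3
  exact ⟨h2, h3⟩

lemma contDiffAt_hat2 (hf : ContMDiff 𝓘(ℝ, E) 𝓘(ℝ, E) ∞ f) (hz : z ∈ (ch E p).target)
    (hs : f ((ch E p).symm z) ∈ (ch E q).source) : ContDiffAt ℝ ∞ (hat2 E p q f) z := by
  rw [← contMDiffAt_iff_contDiffAt]
  have h1 : ContMDiffAt 𝓘(ℝ, E) 𝓘(ℝ, E) ∞ (ch E q) (f ((ch E p).symm z)) :=
    contMDiffAt_extChartAt' (by rwa [extChartAt_source] at hs)
  have h2 : ContMDiffAt 𝓘(ℝ, E) 𝓘(ℝ, E) ∞ (ch E p).symm z :=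
    (contMDiffOn_extChartAt_symm (n := ∞) p).contMDiffAt
      ((isOpen_extChartAt_target p).mem_nhds hz)
  exact ContMDiffAt.comp z h1 (ContMDiffAt.comp z (hf _) h2)

lemma sm_hat2 (hf : ContMDiff 𝓘(ℝ, E) 𝓘(ℝ, E) ∞ f) (hz : z ∈ (ch E p).target)
    (hs : f ((ch E p).symm z) ∈ (ch E q).source) : Sm (hat2 E p q f) z := by
  filter_upwards [hat2_eventually hf hz hs] with y hy
  exact contDiffAt_hat2 hf hy.1 hy.2

lemma symm_hat2 (hs : f ((ch E p).symm z) ∈ (ch E q).source) :
    (ch E q).symm (hat2 E p q f z) = f ((ch E p).symm z) := (ch E q).left_inv hs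

/-- `Dsy` intertwines the derivative of `f` and of its expression in the charts -/
lemma Dsy_hat2 (hf : ContMDiff 𝓘(ℝ, E) 𝓘(ℝ, E) ∞ f) (hz : z ∈ (ch E p).target)
    (hs : f ((ch E p).symm z) ∈ (ch E q).source) (v : E) :
    Dsy E q (hat2 E p q f z) (fderiv ℝ (hat2 E p q f) z v) =
      D (E := E) (E' := E) f ((ch E p).symm z) (Dsy E p z v) := by
  have h0 : hat2 E p q f z ∈ (ch E q).target := (ch E q).map_source hs
  have hd : MDifferentiableAt 𝓘(ℝ, E) 𝓘(ℝ, E) (hat2 E p q f) z :=
    ((contDiffAt_hat2 hf hz hs).differentiableAt (by simp)).mdifferentiableAt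
  have h1 := D_comp (f := (ch E q).symm) (h := hat2 E p q f) (x := z) (mdiff_symm h0) hd
  have h2 : (ch E q).symm ∘ hat2 E p q f =ᶠ[𝓝 z] f ∘ (ch E p).symm := by
    filter_upwards [hat2_eventually hf hz hs] with y hy
    exact (ch E q).left_inv hy.2
  rw [D_congr h2, D_comp (hf.mdifferentiableAt (by simp)) (mdiff_symm hz)] at h1
  have h3 := DFunLike.congr_fun h1 v
  rw [← D_eq_fderiv]
  exact h3.symm

lemma hat2_bil (hf : Aut α g f) (hz : z ∈ (ch E p).target)
    (hs : f ((ch E p).symm z) ∈ (ch E q).source) (u v : E) :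
    cBil g q (hat2 E p q f z) (fderiv ℝ (hat2 E p q f) z u) (fderiv ℝ (hat2 E p q f) z v) =
      cBil g p z u v := by
  rw [cBil_apply, cBil_apply, Dsy_hat2 hf.smooth hz hs, Dsy_hat2 hf.smooth hz hs, symm_hat2 hs,
    hf.inv]

lemma hat2_cov (hf : Aut α g f) (hz : z ∈ (ch E p).target)
    (hs : f ((ch E p).symm z) ∈ (ch E q).source) (u : E) :
    cCov α q (hat2 E p q f z) (fderiv ℝ (hat2 E p q f) z u) = cCov α p z u := by
  rw [cCov_apply, cCov_apply, Dsy_hat2 hf.smooth hz hs, symm_hat2 hs, hf.form]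

lemma smoothCov_of (hα : SmoothForm α) : SmoothCov α := fun p =>
  Helper186.contDiffOn_chartForm (α := toForm α) hα p

lemma sm_cCov {θ : M → Cov E} (hθ : SmoothCov θ) (hz : z ∈ (ch E p).target) :
    Sm (cCov θ p) z := Sm.of_on (isOpen_extChartAt_target p) (hθ p) hz

lemma hat2_dd (hα : SmoothCov α) (hf : Aut α g f) (hz : z ∈ (ch E p).target)
    (hs : f ((ch E p).symm z) ∈ (ch E q).source) (u v : E) :
    dd (cCov α q) (hat2 E p q f z) (fderiv ℝ (hat2 E p q f) z u) (fderiv ℝ (hat2 E p q f) z v) =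
      dd (cCov α p) z u v := by
  have h0 : hat2 E p q f z ∈ (ch E q).target := (ch E q).map_source hs
  have h1 : pb (hat2 E p q f) (cCov α q) =ᶠ[𝓝 z] cCov α p := by
    filter_upwards [hat2_eventually hf.smooth hz hs] with y hy
    exact ContinuousLinearMap.ext fun u => hat2_cov hf hy.1 hy.2 u
  rw [← dd_congr h1, dd_pb ((contDiffAt_hat2 hf.smooth hz hs).of_le two_le_inf)
    (sm_cCov hα h0).diff]

lemma hat2_inj (hg : IsPseudoMetric g) (hf : Aut α g f) (hz : z ∈ (ch E p).target)
    (hs : f ((ch E p).symm z) ∈ (ch E q).source) :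
    Function.Injective (fderiv ℝ (hat2 E p q f) z) := by
  rw [injective_iff_map_eq_zero]
  intro u hu
  apply cBil_nondeg hg hz
  refine ContinuousLinearMap.ext fun v => ?_
  rw [← hat2_bil hf hz hs u v, hu, map_zero]
  rfl

lemma hat2_surj (hg : IsPseudoMetric g) (hf : Aut α g f) (hz : z ∈ (ch E p).target)
    (hs : f ((ch E p).symm z) ∈ (ch E q).source) :
    Function.Surjective (fderiv ℝ (hat2 E p q f) z) :=
  LinearMap.injective_iff_surjective.1
    (show Function.Injective (fderiv ℝ (hat2 E p q f) z : E →ₗ[ℝ] E) from hat2_inj hg hf hz hs)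

lemma Dsy_cVec {X : M → E} (hz : z ∈ (ch E p).target) :
    Dsy E p z (cVec X p z) = X ((ch E p).symm z) := by
  have h := D_symm_chart ((ch E p).map_target hz) (X ((ch E p).symm z))
  rw [(ch E p).right_inv hz] at h
  exact h

lemma cVec_eq {X : M → E} (hz : z ∈ (ch E p).target) {u : E}
    (h : Dsy E p z u = X ((ch E p).symm z)) : cVec X p z = u := by
  have h1 : Dsy E p z (cVec X p z - u) = 0 := by
    rw [map_sub, Dsy_cVec hz, h, sub_self]
  exact sub_eq_zero.1 (Dsy_injective hz h1)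

/-- the derivative of the inverse chart at the centre -/
lemma Dsy_center (x : M) (v : E) : Dsy E x (ch E x x) v = v := by
  have h1 := D_symm_chart (p := x) (x := x) (mem_extChartAt_source x) v
  have h2 : D (E := E) (E' := E) (ch E x) x v = v := Helper186.mfderiv_extChartAt_self x v
  rwa [h2] at h1

lemma ddL_chart (hα : SmoothCov α) (hz : z ∈ (ch E p).target) (u v : E) :
    dd (cCov α p) z u v = extDer α ((ch E p).symm z) (Dsy E p z u) (Dsy E p z v) := by
  set x := (ch E p).symm z with hx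
  have hs : (id : M → M) ((ch E p).symm z) ∈ (ch E x).source := mem_extChartAt_source x
  have h1 := hat2_dd hα (Aut.id α (fun _ => (0 : E →L[ℝ] E →L[ℝ] ℝ))) hz hs u v
  have h2 : ∀ u, fderiv ℝ (hat2 E p x (id : M → M)) z u = Dsy E p z u := by
    intro u
    have h3 := Dsy_hat2 (contMDiff_id (I := 𝓘(ℝ, E)) (M := M) (n := ∞)) hz hs u
    have h4 : hat2 E p x (id : M → M) z = ch E x x := rfl
    rw [h4, Dsy_center, D_id] at h3
    exact h3
  rw [← h1, h2, h2]
  rfl

/-- the form `dα + α ⊗ α` -/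
def WW (α : M → Cov E) (x : M) : Bil E := BB (cCov α x) (ch E x x)

lemma WW_apply (α : M → Cov E) (x : M) (u v : E) :
    bev (WW α x) u v = extDer α x u v + ev (α x) u * ev (α x) v := by
  have h := BB_apply (cCov α x) (ch E x x) u v
  have h1 : ∀ u, cCov α x (ch E x x) u = ev (α x) u := by
    intro u
    rw [cCov_apply, Dsy_center, (ch E x).left_inv (mem_extChartAt_source x)]
  rw [h1, h1] at h
  exact h

lemma cBil_WW (hα : SmoothCov α) (hz : z ∈ (ch E p).target) :
    cBil (WW α) p z = BB (cCov α p) z := by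
  refine ContinuousLinearMap.ext fun u => ContinuousLinearMap.ext fun v => ?_
  rw [cBil_apply, WW_apply, BB_apply, ddL_chart hα hz, cCov_apply, cCov_apply]

lemma smooth_WW (hα : SmoothCov α) : SmoothBil (WW α) := by
  intro p
  have h1 : ContDiffOn ℝ ∞ (BB (cCov α p)) (ch E p).target := by
    intro z hz
    apply ContDiffAt.contDiffWithinAt
    have h := (sm_cCov hα hz).at
    have h2 := contDiffAt_ddL h
    have h3 : ContDiffAt ℝ ∞ (fun y => ContinuousLinearMap.smulRight (cCov α p y) (cCov α p y)) z :=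
      h.smulRight h
    exact h2.add h3
  exact h1.congr fun z hz => cBil_WW hα hz

lemma WW_nondeg (hα : IsContact α) {R : M → E} (hR : IsReeb α R) (x : M) (u : E)
    (h : ∀ v, bev (WW α x) u v = 0) : u = 0 := by
  simp only [WW_apply] at h
  have h1 : ev (α x) u = 0 := by
    have h2 := h (R x)
    have h3 : extDer α x u (R x) = 0 := by
      have : extDer α x u (R x) = - extDer α x (R x) u := by
        simp [extDer]
      rw [this, hR.kernel, neg_zero]
    rw [h3, hR.unit] at h2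
    linarith
  refine hα.nondeg x u h1 fun v hv => ?_
  have h2 := h v
  rw [h1] at h2
  linarith

lemma chart_unit {R : M → E} (hR : IsReeb α R) (hz : z ∈ (ch E p).target) :
    cCov α p z (cVec R p z) = 1 := by
  rw [cCov_apply, Dsy_cVec hz, hR.unit]

lemma chart_kernel (hα : SmoothCov α) {R : M → E} (hR : IsReeb α R) (hz : z ∈ (ch E p).target)
    (w : E) : dd (cCov α p) z (cVec R p z) w = 0 := by
  rw [ddL_chart hα hz, Dsy_cVec hz, hR.kernel]

lemma Dsy_surj (hz : z ∈ (ch E p).target) (v : E) : ∃ w, Dsy E p z w = v := by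
  have h := D_symm_chart ((ch E p).map_target hz) v
  rw [(ch E p).right_inv hz] at h
  exact ⟨_, h⟩

lemma chart_nondeg (hα : IsContact α) (hz : z ∈ (ch E p).target)
    (u : E) (h1 : cCov α p z u = 0) (h2 : ∀ w, cCov α p z w = 0 → dd (cCov α p) z u w = 0) :
    u = 0 := by
  apply Dsy_injective hz
  refine hα.nondeg _ _ h1 fun v hv => ?_
  obtain ⟨w, rfl⟩ := Dsy_surj hz v
  rw [← ddL_chart (smoothCov_of hα.smooth) hz]
  exact h2 w hv

end Pool.Agent.H75.LR
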