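import Mathlib
import Pool.Agent.H75.LR.Hat
import Pool.Agent.H75.LR.Stm
import Pool.Agent.H75.LR.Stm2

/-! Adapted frames. -/

open scoped Topology ContDiff Manifold
open Set Filter Pool.Agent.H826R2.WStmt Pool.Agent.W671.RStmt
open Pool.Agent.H75.PRStmt Pool.Agent.H75.PR Pool.Agent.W671 Pool.Agent.H826R2

noncomputable section

set_option maxSynthPendingDepth 3
set_option linter.unusedSectionVars false

namespace Pool.Agent.H75.LR

universe u v

section pointwise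

variable {E : Type u} [NormedAddCommGroup E] [NormedSpace ℝ E] [FiniteDimensional ℝ E]

/-- adapted pairs of vectors for a Lorentzian form `G` and a skew form `w` -/
structure PF (σ : ℝ) (G w : E →L[ℝ] E →L[ℝ] ℝ) (s t : E) : Prop where
  ex : ∃ l > 0, (∀ v, w s v = σ * (l * G s v)) ∧ (∀ v, w t v = -(σ * (l * G t v)))
  st : G s t = 1

/-- consequences of uniqueness -/
structure PFc (σ : ℝ) (G w : E →L[ℝ] E →L[ℝ] ℝ) (s t : E) : Prop where
  ss : G s s = 0
  tt : G t t = 0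
  pos : ∀ u, u ≠ 0 → G u s = 0 → G u t = 0 → 0 < G u u
  us : ∀ u, u ≠ 0 → (∃ l > 0, ∀ v, w u v = σ * (l * G u v)) → u = G u t • s
  ut : ∀ u, u ≠ 0 → (∃ l > 0, ∀ v, w u v = -(σ * (l * G u v))) → u = G u s • t

lemma PF.c (hU : S_U.{u}) {σ : ℝ} (hσ : σ = 1 ∨ σ = -1) {G w : E →L[ℝ] E →L[ℝ] ℝ}
    (hs : ∀ u v, G u v = G v u) (hl : ∃ e, G e e < 0 ∧ ∀ u, u ≠ 0 → G u e = 0 → 0 < G u u)
    (hw : ∀ u v, w u v = - w v u) {s t : E} (h : PF σ G w s t) : PFc σ G w s t := by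
  obtain ⟨l, hl0, h1, h2⟩ := h.ex
  rcases hσ with rfl | rfl
  · obtain ⟨a1, a2, a3, a4⟩ := hU E G w hs hl hw s t l hl0 (fun v => by rw [h1]; ring)
      (fun v => by rw [h2]; ring) h.st
    refine ⟨a1, a2, a3, ?_, ?_⟩
    · rintro u hu ⟨l', hl', h3⟩
      rcases a4 u l' hu hl'.ne' (fun v => by rw [h3]; ring) with h4 | h4
      · exact h4.2
      · exfalso; linarith [h4.1]
    · rintro u hu ⟨l', hl', h3⟩
      rcases a4 u (-l') hu (by linarith [hl'] |> fun h : -l' < 0 => h.ne)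
        (fun v => by rw [h3]; ring) with h4 | h4
      · exfalso; linarith [h4.1]
      · exact h4.2
  · obtain ⟨a1, a2, a3, a4⟩ := hU E G w hs hl hw t s l hl0 (fun v => by rw [h2]; ring)
      (fun v => by rw [h1]; ring) (by rw [hs]; exact h.st)
    refine ⟨a2, a1, fun u hu hus hut => a3 u hu hut hus, ?_, ?_⟩
    · rintro u hu ⟨l', hl', h3⟩
      rcases a4 u (-l') hu (by linarith [hl'] |> fun h : -l' < 0 => h.ne)
        (fun v => by rw [h3]; ring) with h4 | h4
      · exfalso; linarith [h4.1]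
      · exact h4.2
    · rintro u hu ⟨l', hl', h3⟩
      rcases a4 u l' hu hl'.ne' (fun v => by rw [h3]; ring) with h4 | h4
      · exact h4.2
      · exfalso; linarith [h4.1]

lemma PF.ne_s {σ : ℝ} {G w : E →L[ℝ] E →L[ℝ] ℝ} {s t : E} (h : PF σ G w s t) : s ≠ 0 := by
  rintro rfl
  have := h.st
  rw [map_zero] at this
  simp at this

lemma PF.ne_t {σ : ℝ} {G w : E →L[ℝ] E →L[ℝ] ℝ} {s t : E} (h : PF σ G w s t) : t ≠ 0 := by
  rintro rfl
  have := h.st
  rw [map_zero] at this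
  simp at this

end pointwise

variable {E : Type u} [NormedAddCommGroup E] [NormedSpace ℝ E] [FiniteDimensional ℝ E]
  {M : Type v} [TopologicalSpace M] [ChartedSpace E M] [IsManifold 𝓘(ℝ, E) ∞ M]
  {m : ℕ}

/-- the standing assumptions -/
structure Setting (α : M → Cov E) (R : M → E) (Φ : M → ℝ → M) (g : M → Bil E)
    (e : M → EuclideanSpace ℝ (Fin m)) (σ : ℝ) : Prop where
  contact : IsContact α
  reeb : IsReeb α R
  metric : IsPseudoMetric g
  lor : ∀ x, IsLorentz (g x)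
  gR : ∀ x u, bev (g x) (R x) u = ev (α x) u
  imm : IsInjImmersion (E := E) e
  rf : WU.RF (toForm α) (fun x => (R x : TangentSpace 𝓘(ℝ, E) x)) Φ
  flow : IsFlow R Φ
  pres : Preserves Φ g
  U : S_U.{u}
  sgn : σ = 1 ∨ σ = -1

/-- adapted pairs at a point in a chart, with gauge -/
structure At (σ : ℝ) (α : M → Cov E) (g : M → Bil E) (e : M → EuclideanSpace ℝ (Fin m)) (p : M)
    (s t : E) (y : E) : Prop where
  mem : y ∈ (ch E p).target
  pf : PF σ (cBil g p y) (ddL (cCov α p) y) s t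
  unit : ‖fderiv ℝ (e ∘ (ch E p).symm) y s‖ = 1

/-- adapted frames near a point -/
structure AF (σ : ℝ) (α : M → Cov E) (g : M → Bil E) (e : M → EuclideanSpace ℝ (Fin m)) (p : M)
    (s t : E → E) (z : E) : Prop where
  hs : Sm s z
  ht : Sm t z
  ev : ∀ᶠ y in 𝓝 z, At σ α g e p (s y) (t y) y

variable {α : M → Cov E} {R : M → E} {Φ : M → ℝ → M} {g : M → Bil E}
  {e : M → EuclideanSpace ℝ (Fin m)} {σ : ℝ}

lemma Setting.sc (S : Setting α R Φ g e σ) : SmoothCov α := smoothCov_of S.contact.smooth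

lemma Setting.aut (S : Setting α R Φ g e σ) (τ : ℝ) : Aut α g (fun x => Φ x τ) where
  smooth := S.rf.smooth_t τ
  inv := S.pres τ
  form := S.rf.strict τ

lemma chart_lorentz {p : M} {y : E} (hl : IsLorentz (g ((ch E p).symm y)))
    (hy : y ∈ (ch E p).target) :
    ∃ e, cBil g p y e e < 0 ∧ ∀ u, u ≠ 0 → cBil g p y u e = 0 → 0 < cBil g p y u u := by
  obtain ⟨w, hw, hpos⟩ := hl
  obtain ⟨e, rfl⟩ := Dsy_surj hy w
  refine ⟨e, hw, fun u hu h => hpos _ ?_ h⟩
  intro h0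
  exact hu (Dsy_injective hy h0)

lemma ddL_skew (a : E → E →L[ℝ] ℝ) (z u w : E) : ddL a z u w = - ddL a z w u := by
  rw [ddL_apply, ddL_apply, dd_skew]

lemma At.c (S : Setting α R Φ g e σ) {p : M} {s t y : E} (h : At σ α g e p s t y) :
    PFc σ (cBil g p y) (ddL (cCov α p) y) s t :=
  h.pf.c S.U S.sgn (cBil_symm S.metric p y) (chart_lorentz (S.lor _) h.mem) (ddL_skew _ _)

/-- the derivative read in charts of an immersion composed with a map -/
lemma imm_hat2 (S : Setting α R Φ g e σ) {f : M → M} (hf : Aut α g f) {p q : M} {z : E}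
    (hz : z ∈ (ch E p).target) (hs : f ((ch E p).symm z) ∈ (ch E q).source) (u : E) :
    fderiv ℝ (e ∘ (ch E q).symm) (hat2 E p q f z) (fderiv ℝ (hat2 E p q f) z u) =
      D (E := E) (E' := EuclideanSpace ℝ (Fin m)) (e ∘ f) ((ch E p).symm z) (Dsy E p z u) := by
  have h0 : hat2 E p q f z ∈ (ch E q).target := (ch E q).map_source hs
  rw [fderiv_imm S.imm.smooth h0, Dsy_hat2 hf.smooth hz hs, symm_hat2 hs,
    D_comp (S.imm.smooth.mdifferentiableAt (by simp)) (hf.smooth.mdifferentiableAt (by simp))]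
  rfl

/-- **transformation of adapted pairs** under an automorphism -/
lemma At.trans (S : Setting α R Φ g e σ) {f : M → M} (hf : Aut α g f) {p q : M} {y s t s' t' : E}
    (hs : f ((ch E p).symm y) ∈ (ch E q).source)
    (h : At σ α g e p s t y) (h' : At σ α g e q s' t' (hat2 E p q f y)) {c : ℝ}
    (hc : c = cBil g q (hat2 E p q f y) (fderiv ℝ (hat2 E p q f) y s) t') :
    fderiv ℝ (hat2 E p q f) y s = c • s' ∧ fderiv ℝ (hat2 E p q f) y t = c⁻¹ • t' ∧ c ≠ 0 ∧
      |c| = ‖D (E := E) (E' := EuclideanSpace ℝ (Fin m)) (e ∘ f) ((ch E p).symm y)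
        (Dsy E p y s)‖ := by
  set ψ := hat2 E p q f with hψ
  have hinj := hat2_inj S.metric hf h.mem hs
  have hsur := hat2_surj S.metric hf h.mem hs
  have k' := h'.c S
  obtain ⟨l, hl, e1, e2⟩ := h.pf.ex
  have n1 : fderiv ℝ ψ y s ≠ 0 := by
    intro h0
    exact h.pf.ne_s (hinj (by rw [map_zero]; exact h0))
  have n2 : fderiv ℝ ψ y t ≠ 0 := by
    intro h0
    exact h.pf.ne_t (hinj (by rw [map_zero]; exact h0))
  have a1 : fderiv ℝ ψ y s = c • s' := by
    rw [hc]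
    refine k'.us _ n1 ⟨l, hl, fun v => ?_⟩
    obtain ⟨v, rfl⟩ := hsur v
    rw [ddL_apply, hat2_dd S.sc hf h.mem hs, hat2_bil hf h.mem hs, ← ddL_apply, e1]
  have a2 : fderiv ℝ ψ y t = (cBil g q (ψ y) (fderiv ℝ ψ y t) s') • t' := by
    refine k'.ut _ n2 ⟨l, hl, fun v => ?_⟩
    obtain ⟨v, rfl⟩ := hsur v
    rw [ddL_apply, hat2_dd S.sc hf h.mem hs, hat2_bil hf h.mem hs, ← ddL_apply, e2]
  have a3 : c * (cBil g q (ψ y) (fderiv ℝ ψ y t) s') = 1 := by
    have h1 := hat2_bil hf h.mem hs s t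
    rw [← hψ, a1, a2, h.pf.st] at h1
    simp only [map_smul, smul_apply, smul_eq_mul] at h1
    rw [h'.pf.st] at h1
    have h2 := cBil_symm S.metric q (ψ y) t' s'
    rw [h'.pf.st] at h2
    linarith
  have a4 : c ≠ 0 := left_ne_zero_of_mul_eq_one a3
  refine ⟨a1, ?_, a4, ?_⟩
  · rw [a2, eq_inv_of_mul_eq_one_right a3]
  · rw [← imm_hat2 S hf h.mem hs, ← hψ, a1, map_smul, norm_smul, h'.unit, mul_one,
      Real.norm_eq_abs]

end Pool.Agent.H75.LR
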