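import Mathlib
import Pool.Agent.H75.LR.Frm

/-! Adapted frames: existence and transformation. -/

open scoped Topology ContDiff Manifold
open Set Filter Pool.Agent.H826R2.WStmt Pool.Agent.W671.RStmt
open Pool.Agent.H75.PRStmt Pool.Agent.H75.PR Pool.Agent.W671 Pool.Agent.H826R2

noncomputable section

set_option maxSynthPendingDepth 3
set_option linter.unusedSectionVars false

namespace Pool.Agent.H75.LR

universe u v

variable {E : Type u} [NormedAddCommGroup E] [NormedSpace ℝ E] [FiniteDimensional ℝ E]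
  {M : Type v} [TopologicalSpace M] [ChartedSpace E M] [IsManifold 𝓘(ℝ, E) ∞ M]
  {m : ℕ} {α : M → Cov E} {R : M → E} {Φ : M → ℝ → M} {g : M → Bil E}
  {e : M → EuclideanSpace ℝ (Fin m)} {σ : ℝ}

lemma AF.eventually {p : M} {s t : E → E} {z : E} (h : AF σ α g e p s t z) :
    ∀ᶠ y in 𝓝 z, AF σ α g e p s t y := by
  filter_upwards [h.hs.eventually, h.ht.eventually, h.ev.eventually_nhds] with y h1 h2 h3
  exact ⟨h1, h2, h3⟩

lemma sm_cBil (S : Setting α R Φ g e σ) {p : M} {z : E} (hz : z ∈ (ch E p).target) :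
    Sm (cBil g p) z := Sm.of_on (isOpen_extChartAt_target p) (contDiffOn_cBil S.metric p) hz

lemma normalise (S : Setting α R Φ g e σ) {p : M} {s t : E → E} {z : E} (hs : Sm s z)
    (ht : Sm t z) (h : ∀ᶠ y in 𝓝 z, y ∈ (ch E p).target ∧
      PF σ (cBil g p y) (ddL (cCov α p) y) (s y) (t y)) :
    ∃ s' t' : E → E, AF σ α g e p s' t' z := by
  set κ : E → ℝ := fun y => ‖fderiv ℝ (e ∘ (ch E p).symm) y (s y)‖ with hκ
  have h0 : ∀ᶠ y in 𝓝 z, κ y ≠ 0 := by
    filter_upwards [h] with y hy hk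
    have h1 : fderiv ℝ (e ∘ (ch E p).symm) y (s y) = 0 := norm_eq_zero.1 hk
    rw [fderiv_imm S.imm.smooth hy.1] at h1
    apply hy.2.ne_s
    apply Dsy_injective hy.1
    apply S.imm.immersion _
    rw [h1, map_zero]
  have hsm : Sm κ z := by
    filter_upwards [h0, h, hs] with y h1 h2 h3
    have h4 : ContDiffAt ℝ ∞ (fderiv ℝ (e ∘ (ch E p).symm)) y :=
      ((contDiffOn_imm (p := p) S.imm.smooth).contDiffAt
        ((isOpen_extChartAt_target p).mem_nhds h2.1)).fderiv_right (m := ∞) (by simp)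
    exact (h4.clm_apply h3).norm ℝ (norm_ne_zero_iff.1 h1)
  refine ⟨fun y => (κ y)⁻¹ • s y, fun y => κ y • t y, ?_, ?_, ?_⟩
  · filter_upwards [hsm, hs, h0] with y h1 h2 h3
    exact (h1.inv h3).smul h2
  · filter_upwards [hsm, ht] with y h1 h2
    exact h1.smul h2
  · filter_upwards [h, h0] with y h1 h2
    refine ⟨h1.1, ⟨?_, ?_⟩, ?_⟩
    · obtain ⟨l, hl, e1, e2⟩ := h1.2.ex
      refine ⟨l, hl, fun v => ?_, fun v => ?_⟩
      · simp only [map_smul, smul_apply, smul_eq_mul]
        rw [e1]; ring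
      · simp only [map_smul, smul_apply, smul_eq_mul]
        rw [e2]; ring
    · simp only [map_smul, smul_apply, smul_eq_mul]
      rw [h1.2.st]
      field_simp
    · rw [map_smul, norm_smul, norm_inv, hκ]
      simp only [norm_norm]
      exact inv_mul_cancel₀ h2

lemma exists_AF (S : Setting α R Φ g e σ) (hEL : S_EL.{u}) (hdim : 1 < Module.finrank ℝ E) (p : M)
    {z : E} (hz : z ∈ (ch E p).target) : ∃ s t : E → E, AF σ α g e p s t z := by
  obtain ⟨V, s, t, lam, hV, hzV, hVU, hs, ht, hlam, h⟩ := hEL E (ch E p).target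
    (isOpen_extChartAt_target p) (cCov α p) (S.sc p) (cVec R p)
    (fun z hz => chart_unit S.reeb hz) (fun z hz => chart_kernel S.sc S.reeb hz)
    (fun z hz => chart_nondeg S.contact hz) (cBil g p) (contDiffOn_cBil S.metric p)
    (fun z _ => cBil_symm S.metric p z) (fun z hz => chart_lorentz (S.lor _) hz)
    (fun z hz u => by rw [cBil_apply, Dsy_cVec hz, S.gR]; rfl) hdim z hz
  have s1 := Sm.of_on hV hs hzV
  have s2 := Sm.of_on hV ht hzV
  rcases S.sgn with h1 | h1
  · apply normalise S s1 s2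
    filter_upwards [hV.mem_nhds hzV] with y hy
    obtain ⟨a1, a2, a3, a4⟩ := h y hy
    refine ⟨hVU hy, ⟨lam y, a1, fun v => ?_, fun v => ?_⟩, a4⟩
    · rw [ddL_apply, a2, h1]; ring
    · rw [ddL_apply, a3, h1]; ring
  · apply normalise S s2 s1
    filter_upwards [hV.mem_nhds hzV] with y hy
    obtain ⟨a1, a2, a3, a4⟩ := h y hy
    refine ⟨hVU hy, ⟨lam y, a1, fun v => ?_, fun v => ?_⟩, ?_⟩
    · rw [ddL_apply, a3, h1]; ring
    · rw [ddL_apply, a2, h1]; ring
    · rw [cBil_symm S.metric]; exact a4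

/-- the one-form `g (t, ·)` in a chart -/
def EP (g : M → Bil E) (p : M) (t : E → E) (y : E) : E →L[ℝ] ℝ := cBil g p y (t y)

/-- the connection form of an adapted frame -/
def TH (g : M → Bil E) (p : M) (s t : E → E) : E → E →L[ℝ] ℝ := thet (EP g p t) (EP g p s) s t

/-- the curvature function of an adapted frame -/
def CC (α : M → Cov E) (g : M → Bil E) (p : M) (s t : E → E) (y : E) : ℝ :=
  dd (TH g p s t) y (s y) (t y) / dd (cCov α p) y (s y) (t y)

/-- the growth function -/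
def hh (g : M → Bil E) (p q : M) (f : M → M) (s t' : E → E) (y : E) : ℝ :=
  cBil g q (hat2 E p q f y) (fderiv ℝ (hat2 E p q f) y (s y)) (t' (hat2 E p q f y))

lemma sm_EP (S : Setting α R Φ g e σ) {p : M} {z : E} (hz : z ∈ (ch E p).target) {t : E → E}
    (ht : Sm t z) : Sm (EP g p t) z := by
  filter_upwards [sm_cBil S hz, ht] with y h1 h2
  exact h1.clm_apply h2

lemma AF.fr (S : Setting α R Φ g e σ) {p : M} {s t : E → E} {z : E} (h : AF σ α g e p s t z) :
    Fr (EP g p t) (EP g p s) s t z where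
  hep := sm_EP S h.ev.self_of_nhds.mem h.ht
  hem := sm_EP S h.ev.self_of_nhds.mem h.hs
  hs := h.hs
  ht := h.ht
  dual := by
    filter_upwards [h.ev] with y hy
    have hc := hy.c S
    refine ⟨?_, hc.tt, hc.ss, hy.pf.st⟩
    show cBil g p y (t y) (s y) = 1
    rw [cBil_symm S.metric]
    exact hy.pf.st

lemma tendsto_hat2 {f : M → M} (hf : Aut α g f) {p q : M} {z : E} (hz : z ∈ (ch E p).target)
    (hs : f ((ch E p).symm z) ∈ (ch E q).source) :
    Tendsto (hat2 E p q f) (𝓝 z) (𝓝 (hat2 E p q f z)) :=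
  (contDiffAt_hat2 hf.smooth hz hs).continuousAt

/-- **transformation of adapted frames** -/
lemma AF.trans (S : Setting α R Φ g e σ) {f : M → M} (hf : Aut α g f) {p q : M} {z : E}
    {s t s' t' : E → E} (hs : f ((ch E p).symm z) ∈ (ch E q).source)
    (h : AF σ α g e p s t z) (h' : AF σ α g e q s' t' (hat2 E p q f z)) :
    Sm (hh g p q f s t') z ∧ ∀ᶠ y in 𝓝 z,
      hh g p q f s t' y ≠ 0 ∧
      fderiv ℝ (hat2 E p q f) y (s y) = hh g p q f s t' y • s' (hat2 E p q f y) ∧
      fderiv ℝ (hat2 E p q f) y (t y) = (hh g p q f s t' y)⁻¹ • t' (hat2 E p q f y) ∧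
      |hh g p q f s t' y| = ‖D (E := E) (E' := EuclideanSpace ℝ (Fin m)) (e ∘ f)
        ((ch E p).symm y) (Dsy E p y (s y))‖ ∧
      pb (hat2 E p q f) (EP g q t') y = hh g p q f s t' y • EP g p t y ∧
      pb (hat2 E p q f) (EP g q s') y = (hh g p q f s t' y)⁻¹ • EP g p s y := by
  have hz := h.ev.self_of_nhds.mem
  have ht := tendsto_hat2 hf hz hs
  constructor
  · filter_upwards [hat2_eventually hf.smooth hz hs, h.hs, ht.eventually h'.ht,
      ht.eventually h'.ev] with y h1 h2 h3 h4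
    have h5 := contDiffAt_hat2 hf.smooth h1.1 h1.2
    have h6 : ContDiffAt ℝ ∞ (cBil g q) (hat2 E p q f y) := (sm_cBil S h4.mem).at
    have h7 : ContDiffAt ℝ ∞ (fderiv ℝ (hat2 E p q f)) y := h5.fderiv_right (m := ∞) (by simp)
    exact ((h6.comp y h5).clm_apply (h7.clm_apply h2)).clm_apply (h3.comp y h5)
  · filter_upwards [hat2_eventually hf.smooth hz hs, h.ev, ht.eventually h'.ev] with y h1 h2 h3
    obtain ⟨a1, a2, a3, a4⟩ := At.trans S hf h1.2 h2 h3 (c := hh g p q f s t' y) rfl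
    refine ⟨a3, a1, a2, a4, ?_, ?_⟩
    · refine ContinuousLinearMap.ext fun u => ?_
      have h4 := hat2_bil hf h2.mem h1.2 (t y) u
      rw [a2] at h4
      show cBil g q (hat2 E p q f y) (t' (hat2 E p q f y)) (fderiv ℝ (hat2 E p q f) y u) =
        hh g p q f s t' y * cBil g p y (t y) u
      rw [← h4]
      simp only [map_smul, smul_apply, smul_eq_mul]
      rw [← mul_assoc]
      change _ = (hh g p q f s t' y * (hh g p q f s t' y)⁻¹) * _
      rw [mul_inv_cancel₀ a3, one_mul]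
    · refine ContinuousLinearMap.ext fun u => ?_
      have h4 := hat2_bil hf h2.mem h1.2 (s y) u
      rw [a1] at h4
      show cBil g q (hat2 E p q f y) (s' (hat2 E p q f y)) (fderiv ℝ (hat2 E p q f) y u) =
        (hh g p q f s t' y)⁻¹ * cBil g p y (s y) u
      rw [← h4]
      simp only [map_smul, smul_apply, smul_eq_mul]
      rw [← mul_assoc]
      change _ = ((hh g p q f s t' y)⁻¹ * hh g p q f s t' y) * _
      rw [inv_mul_cancel₀ a3, one_mul]

/-- transformation of the connection form -/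
lemma TH_trans (S : Setting α R Φ g e σ) {f : M → M} (hf : Aut α g f) {p q : M} {z : E}
    {s t s' t' : E → E} (hs : f ((ch E p).symm z) ∈ (ch E q).source)
    (h : AF σ α g e p s t z) (h' : AF σ α g e q s' t' (hat2 E p q f z)) :
    pb (hat2 E p q f) (TH g q s' t') =ᶠ[𝓝 z] fun y => TH g p s t y -
      (hh g p q f s t' y)⁻¹ • fderiv ℝ (hh g p q f s t') y := by
  obtain ⟨h1, h2⟩ := AF.trans S hf hs h h'
  exact thet_trans (sm_hat2 hf.smooth h.ev.self_of_nhds.mem hs) (h'.fr S) (h.fr S) h1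
    h2.self_of_nhds.1 (h2.mono fun y hy => hy.2.2.2.2.1) (h2.mono fun y hy => hy.2.2.2.2.2)
    (h2.mono fun y hy => hy.2.1) (h2.mono fun y hy => hy.2.2.1)

/-- transformation of the curvature -/
lemma dd_TH_trans (S : Setting α R Φ g e σ) {f : M → M} (hf : Aut α g f) {p q : M} {z : E}
    {s t s' t' : E → E} (hs : f ((ch E p).symm z) ∈ (ch E q).source)
    (h : AF σ α g e p s t z) (h' : AF σ α g e q s' t' (hat2 E p q f z)) (u w : E) :
    dd (TH g p s t) z u w = dd (TH g q s' t') (hat2 E p q f z)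
      (fderiv ℝ (hat2 E p q f) z u) (fderiv ℝ (hat2 E p q f) z w) := by
  obtain ⟨h1, h2⟩ := AF.trans S hf hs h h'
  exact dd_thet_trans (sm_hat2 hf.smooth h.ev.self_of_nhds.mem hs) (h'.fr S) (h.fr S) h1
    h2.self_of_nhds.1 (h2.mono fun y hy => hy.2.2.2.2.1) (h2.mono fun y hy => hy.2.2.2.2.2)
    (h2.mono fun y hy => hy.2.1) (h2.mono fun y hy => hy.2.2.1) u w

/-- transformation of the curvature function -/
lemma CC_trans (S : Setting α R Φ g e σ) {f : M → M} (hf : Aut α g f) {p q : M} {z : E}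
    {s t s' t' : E → E} (hs : f ((ch E p).symm z) ∈ (ch E q).source)
    (h : AF σ α g e p s t z) (h' : AF σ α g e q s' t' (hat2 E p q f z)) :
    CC α g p s t z = CC α g q s' t' (hat2 E p q f z) := by
  obtain ⟨h1, h2⟩ := AF.trans S hf hs h h'
  obtain ⟨a1, a2, a3, -⟩ := h2.self_of_nhds
  have e1 := dd_TH_trans S hf hs h h' (s z) (t z)
  have e2 := hat2_dd S.sc hf h.ev.self_of_nhds.mem hs (s z) (t z)
  unfold CC
  rw [e1, ← e2, a2, a3]
  simp only [dd_smul_left, dd_smul_right]
  rw [← mul_assoc, ← mul_assoc, inv_mul_cancel₀ a1, one_mul, one_mul]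

end Pool.Agent.H75.LR
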