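import Mathlib
import Pool.Agent.H75.LR.Frm2

/-! Global objects defined by adapted frames. -/

open scoped Topology ContDiff Manifold
open Set Filter Pool.Agent.H826R2.WStmt Pool.Agent.W671.RStmt
open Pool.Agent.H75.PRStmt Pool.Agent.H75.PR Pool.Agent.W671 Pool.Agent.H826R2

noncomputable section

set_option maxSynthPendingDepth 3
set_option linter.unusedSectionVars false

namespace Pool.Agent.H75.LR

universe u v

variable {E : Type u} [NormedAddCommGroup E] [NormedSpace ℝ E] [FiniteDimensional ℝ E]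
  {M : Type v} [TopologicalSpace M] [ChartedSpace E M] [IsManifold 𝓘(ℝ, E) ∞ M]
  {m : ℕ} {α : M → Cov E} {R : M → E} {Φ : M → ℝ → M} {g : M → Bil E}
  {e : M → EuclideanSpace ℝ (Fin m)} {σ : ℝ} {fr : M → (E → E) × (E → E)}

/-- the projection onto the plane of an adapted frame -/
def PE (g : M → Bil E) (p : M) (s t : E → E) (y : E) : E →L[ℝ] E :=
  (EP g p t y).smulRight (s y) + (EP g p s y).smulRight (t y)

lemma PE_apply (g : M → Bil E) (p : M) (s t : E → E) (y u : E) :
    PE g p s t y u = EP g p t y u • s y + EP g p s y u • t y := rfl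

/-- the global connection form -/
def thG (g : M → Bil E) (fr : M → (E → E) × (E → E)) (x : M) : Cov E :=
  TH g x (fr x).1 (fr x).2 (ch E x x)

/-- the first vector of the frame -/
def nG (fr : M → (E → E) × (E → E)) (x : M) : E := (fr x).1 (ch E x x)

/-- the second vector of the frame -/
def mG (fr : M → (E → E) × (E → E)) (x : M) : E := (fr x).2 (ch E x x)

/-- the curvature function -/
def cG (α : M → Cov E) (g : M → Bil E) (fr : M → (E → E) × (E → E)) (x : M) : ℝ :=
  CC α g x (fr x).1 (fr x).2 (ch E x x)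

/-- the projection -/
def pG (g : M → Bil E) (fr : M → (E → E) × (E → E)) (x : M) : E →L[ℝ] E :=
  PE g x (fr x).1 (fr x).2 (ch E x x)

lemma fderiv_hat2_id {p : M} {y : E} (hy : y ∈ (ch E p).target) (u : E) :
    fderiv ℝ (hat2 E p ((ch E p).symm y) (id : M → M)) y u = Dsy E p y u := by
  set x := (ch E p).symm y with hx
  have hs : (id : M → M) ((ch E p).symm y) ∈ (ch E x).source := mem_extChartAt_source x
  have h3 := Dsy_hat2 (contMDiff_id (I := 𝓘(ℝ, E)) (M := M) (n := ∞)) hy hs u
  have h4 : hat2 E p x (id : M → M) y = ch E x x := rfl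
  rw [h4, Dsy_center, D_id] at h3
  exact h3

/-- comparison of an adapted frame in a chart with the global objects -/
lemma cmp (S : Setting α R Φ g e σ) (hfr : ∀ x, AF σ α g e x (fr x).1 (fr x).2 (ch E x x))
    {p : M} {s t : E → E} {y : E} (h : AF σ α g e p s t y) :
    cCov (thG g fr) p y = TH g p s t y ∧ cEnd (pG g fr) p y = PE g p s t y ∧
      cG α g fr ((ch E p).symm y) = CC α g p s t y ∧
      ∃ c : ℝ, |c| = 1 ∧ Dsy E p y (s y) = c • nG fr ((ch E p).symm y) ∧
        Dsy E p y (t y) = c⁻¹ • mG fr ((ch E p).symm y) ∧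
        (∀ u, EP g ((ch E p).symm y) (fr ((ch E p).symm y)).2
          (ch E ((ch E p).symm y) ((ch E p).symm y)) (Dsy E p y u) = c * EP g p t y u) ∧
        (∀ u, EP g ((ch E p).symm y) (fr ((ch E p).symm y)).1
          (ch E ((ch E p).symm y) ((ch E p).symm y)) (Dsy E p y u) = c⁻¹ * EP g p s y u) := by
  have hy := h.ev.self_of_nhds.mem
  set x := (ch E p).symm y with hx
  have hs : (id : M → M) ((ch E p).symm y) ∈ (ch E x).source := mem_extChartAt_source x
  have hid := Aut.id (E := E) (M := M) α g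
  have h' : AF σ α g e x (fr x).1 (fr x).2 (hat2 E p x (id : M → M) y) := hfr x
  have hD : ∀ u, fderiv ℝ (hat2 E p x (id : M → M)) y u = Dsy E p y u := fderiv_hat2_id hy
  obtain ⟨h1, h2⟩ := AF.trans S hid hs h h'
  set H := hh g p x (id : M → M) s (fr x).2 with hH
  have habs : ∀ᶠ y' in 𝓝 y, |H y'| = 1 := by
    filter_upwards [h2, h.ev] with y' h3 h4
    rw [h3.2.2.2.1]
    have h5 := h4.unit
    rw [fderiv_imm S.imm.smooth h4.mem] at h5
    exact h5
  obtain ⟨a1, a2, a3, -, a5, a6⟩ := h2.self_of_nhds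
  have habs1 := habs.self_of_nhds
  have hder : fderiv ℝ H y = 0 := by
    have e1 : (fun y' => H y' * H y') =ᶠ[𝓝 y] fun _ => (1:ℝ) := by
      filter_upwards [habs] with y' h3
      have := abs_mul_abs_self (H y')
      rw [h3] at this
      linarith
    have e2 : HasFDerivAt (fun y' => H y' * H y') (H y • fderiv ℝ H y + H y • fderiv ℝ H y) y :=
      h1.diff.hasFDerivAt.mul h1.diff.hasFDerivAt
    have e3 := e2.fderiv
    rw [e1.fderiv_eq] at e3
    rw [fderiv_const_apply] at e3
    have e4 : (2 * H y) • fderiv ℝ H y = 0 := by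
      rw [mul_smul, two_smul]
      exact e3.symm
    exact (smul_eq_zero.1 e4).resolve_left (mul_ne_zero two_ne_zero a1)
  have hcov : ∀ (a : M → Cov E) (u : E), cCov a p y u = ev (a x) (Dsy E p y u) := fun a u => rfl
  have b3 : ∀ u, EP g x (fr x).2 (ch E x x) (Dsy E p y u) = H y * EP g p t y u := by
    intro u
    have b1 := DFunLike.congr_fun a5 u
    rw [← hD u]; exact b1
  have b4 : ∀ u, EP g x (fr x).1 (ch E x x) (Dsy E p y u) = (H y)⁻¹ * EP g p s y u := by
    intro u
    have b2 := DFunLike.congr_fun a6 u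
    rw [← hD u]; exact b2
  refine ⟨?_, ?_, ?_, H y, habs1, ?_, ?_, b3, b4⟩
  · refine ContinuousLinearMap.ext fun u => ?_
    have e1 := (TH_trans S hid hs h h').self_of_nhds
    have e2 := DFunLike.congr_fun e1 u
    have e3 : pb (hat2 E p x (id : M → M)) (TH g x (fr x).1 (fr x).2) y u =
        cCov (thG g fr) p y u := by
      rw [hcov, ← hD u]
      rfl
    rw [e3] at e2
    rw [e2]
    change (TH g p s t y - (H y)⁻¹ • fderiv ℝ H y) u = _
    rw [hder, smul_zero, sub_zero]
  · refine ContinuousLinearMap.ext fun u => ?_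
    have b5 : Dsy E p y (s y) = H y • (fr x).1 (ch E x x) := by rw [← hD]; exact a2
    have b6 : Dsy E p y (t y) = (H y)⁻¹ • (fr x).2 (ch E x x) := by rw [← hD]; exact a3
    have b7 : pG g fr x (Dsy E p y u) = Dsy E p y (PE g p s t y u) := by
      show PE g x (fr x).1 (fr x).2 (ch E x x) (Dsy E p y u) = _
      rw [PE_apply, PE_apply, b3, b4, map_add, map_smul, map_smul, b5, b6, smul_smul, smul_smul,
        mul_comm (H y), mul_comm (H y)⁻¹]
    rw [cEnd_apply, ← hx, b7]
    exact D_chart_symm hy _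
  · exact (CC_trans S hid hs h h').symm
  · rw [← hD]; exact a2
  · rw [← hD]; exact a3

lemma cmp_ev (S : Setting α R Φ g e σ) (hfr : ∀ x, AF σ α g e x (fr x).1 (fr x).2 (ch E x x))
    {p : M} {s t : E → E} {y : E} (h : AF σ α g e p s t y) :
    cCov (thG g fr) p =ᶠ[𝓝 y] TH g p s t ∧ cEnd (pG g fr) p =ᶠ[𝓝 y] PE g p s t ∧
      (fun z => cG α g fr ((ch E p).symm z)) =ᶠ[𝓝 y] CC α g p s t :=
  ⟨h.eventually.mono fun _ hz => (cmp S hfr hz).1, h.eventually.mono fun _ hz => (cmp S hfr hz).2.1,
    h.eventually.mono fun _ hz => (cmp S hfr hz).2.2.1⟩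

end Pool.Agent.H75.LR
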