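import Mathlib
import Pool.Agent.H75.LR.Glo

/-! Properties of the global objects defined by adapted frames. -/

open scoped Topology ContDiff Manifold
open Set Filter Pool.Agent.H826R2.WStmt Pool.Agent.W671.RStmt
open Pool.Agent.H75.PRStmt Pool.Agent.H75.PR Pool.Agent.W671 Pool.Agent.H826R2

noncomputable section

set_option maxSynthPendingDepth 3
set_option linter.unusedSectionVars false

namespace Pool.Agent.H75.LR

universe u v

variable {E : Type u} [NormedAddCommGroup E] [NormedSpace ℝ E] [FiniteDimensional ℝ E]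
  {M : Type v} [TopologicalSpace M] [ChartedSpace E M] [IsManifold 𝓘(ℝ, E) ∞ M]
  {m : ℕ} {α : M → Cov E} {R : M → E} {Φ : M → ℝ → M} {g : M → Bil E}
  {e : M → EuclideanSpace ℝ (Fin m)} {σ : ℝ} {fr : M → (E → E) × (E → E)}

/-- algebraic properties of an adapted pair -/
structure Alg (σ : ℝ) (α : M → Cov E) (R : M → E) (g : M → Bil E) (p : M) (s t : E → E)
    (y : E) : Prop where
  ps : EP g p t y (s y) = 1
  pt : EP g p t y (t y) = 0
  ms : EP g p s y (s y) = 0
  mt : EP g p s y (t y) = 1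
  pR : EP g p t y (cVec R p y) = 0
  mR : EP g p s y (cVec R p y) = 0
  as : cCov α p y (s y) = 0
  at' : cCov α p y (t y) = 0
  ex : ∃ l > 0, (∀ v, dd (cCov α p) y (s y) v = σ * (l * EP g p s y v)) ∧
    (∀ v, dd (cCov α p) y (t y) v = -(σ * (l * EP g p t y v)))
  pos : ∀ u, u ≠ 0 → EP g p s y u = 0 → EP g p t y u = 0 → 0 < cBil g p y u u

lemma sgn_ne (S : Setting α R Φ g e σ) : σ ≠ 0 := by
  rcases S.sgn with h | h <;> rw [h] <;> norm_num

lemma At.alg (S : Setting α R Φ g e σ) {p : M} {s t : E → E} {y : E}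
    (h : At σ α g e p (s y) (t y) y) : Alg σ α R g p s t y := by
  have hc := h.c S
  have hy := h.mem
  have hsy := cBil_symm S.metric p y
  obtain ⟨l, hl, e1, e2⟩ := h.pf.ex
  have hσ := sgn_ne S
  have hgR : ∀ u, cBil g p y (cVec R p y) u = cCov α p y u := fun u => by
    rw [cBil_apply, Dsy_cVec hy, S.gR]; rfl
  have k1 : cBil g p y (s y) (cVec R p y) = 0 := by
    have h1 := e1 (cVec R p y)
    rw [ddL_apply, dd_skew, chart_kernel S.sc S.reeb hy, neg_zero] at h1
    have h2 : σ * l ≠ 0 := mul_ne_zero hσ hl.ne'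
    have h3 : (σ * l) * cBil g p y (s y) (cVec R p y) = 0 := by linarith
    exact (mul_eq_zero.1 h3).resolve_left h2
  have k2 : cBil g p y (t y) (cVec R p y) = 0 := by
    have h1 := e2 (cVec R p y)
    rw [ddL_apply, dd_skew, chart_kernel S.sc S.reeb hy, neg_zero] at h1
    have h2 : σ * l ≠ 0 := mul_ne_zero hσ hl.ne'
    have h3 : (σ * l) * cBil g p y (t y) (cVec R p y) = 0 := by linarith
    exact (mul_eq_zero.1 h3).resolve_left h2
  refine ⟨?_, hc.tt, hc.ss, h.pf.st, k2, k1, ?_, ?_, ⟨l, hl, ?_, ?_⟩, ?_⟩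
  · show cBil g p y (t y) (s y) = 1
    rw [hsy]; exact h.pf.st
  · rw [← hgR, hsy]; exact k1
  · rw [← hgR, hsy]; exact k2
  · intro v; rw [← ddL_apply, e1]; rfl
  · intro v; rw [← ddL_apply, e2]; rfl
  · intro u hu h1 h2
    refine hc.pos u hu ?_ ?_
    · rw [hsy]; exact h1
    · rw [hsy]; exact h2

namespace Alg

variable {p : M} {s t : E → E} {y : E}

lemma PP (h : Alg σ α R g p s t y) (u : E) :
    PE g p s t y (PE g p s t y u) = PE g p s t y u := by
  simp only [PE_apply, map_add, map_smul, smul_eq_mul, h.ps, h.pt, h.ms, h.mt]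
  simp

lemma PR (h : Alg σ α R g p s t y) : PE g p s t y (cVec R p y) = 0 := by
  rw [PE_apply, h.pR, h.mR, zero_smul, zero_smul, add_zero]

lemma aP (h : Alg σ α R g p s t y) (u : E) : cCov α p y (PE g p s t y u) = 0 := by
  rw [PE_apply, map_add, map_smul, map_smul, h.as, h.at', smul_zero, smul_zero, add_zero]

lemma wP (h : Alg σ α R g p s t y) : ∃ l > 0, ∀ u w, dd (cCov α p) y (PE g p s t y u) w =
    σ * (l * (EP g p t y u * EP g p s y w - EP g p s y u * EP g p t y w)) := by
  obtain ⟨l, hl, e1, e2⟩ := h.ex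
  refine ⟨l, hl, fun u w => ?_⟩
  rw [PE_apply, dd_add_left, dd_smul_left, dd_smul_left, e1, e2]
  ring

lemma wPP (h : Alg σ α R g p s t y) (u w : E) : dd (cCov α p) y (PE g p s t y u) w =
    dd (cCov α p) y u (PE g p s t y w) := by
  obtain ⟨l, hl, e1⟩ := h.wP
  rw [dd_skew _ y u, e1, e1]
  ring

lemma trP (h : Alg σ α R g p s t y) :
    LinearMap.trace ℝ E (PE g p s t y : E →ₗ[ℝ] E) = 2 := by
  have h1 : (PE g p s t y : E →ₗ[ℝ] E) =
      LinearMap.smulRight (EP g p t y : E →ₗ[ℝ] ℝ) (s y) +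
        LinearMap.smulRight (EP g p s y : E →ₗ[ℝ] ℝ) (t y) := by
    ext u
    rfl
  rw [h1, map_add, LinearMap.trace_smulRight, LinearMap.trace_smulRight]
  show EP g p t y (s y) + EP g p s y (t y) = 2
  rw [h.ps, h.mt]
  norm_num

/-- the orthogonal part -/
lemma perp (h : Alg σ α R g p s t y) (u : E) : EP g p t y (u - PE g p s t y u) = 0 ∧
    EP g p s y (u - PE g p s t y u) = 0 := by
  rw [PE_apply, map_sub, map_sub, map_add, map_add, map_smul, map_smul, map_smul, map_smul,
    h.ps, h.pt, h.ms, h.mt]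
  simp

lemma quad (hsy : ∀ u v, cBil g p y u v = cBil g p y v u) (h : Alg σ α R g p s t y) (u : E) :
    cBil g p y u u = 2 * (EP g p t y u * EP g p s y u) +
      cBil g p y (u - PE g p s t y u) (u - PE g p s t y u) := by
  obtain ⟨h1, h2⟩ := h.perp u
  set v := u - PE g p s t y u with hv
  have hu : u = v + (EP g p t y u • s y + EP g p s y u • t y) := by
    rw [hv, PE_apply]; abel
  have h3 : cBil g p y v (s y) = 0 := by rw [hsy]; exact h2
  have h4 : cBil g p y v (t y) = 0 := by rw [hsy]; exact h1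
  have h5 : cBil g p y (s y) v = 0 := h2
  have h6 : cBil g p y (t y) v = 0 := h1
  have h7 : cBil g p y (s y) (s y) = 0 := h.ms
  have h8 : cBil g p y (t y) (t y) = 0 := h.pt
  have h9 : cBil g p y (s y) (t y) = 1 := h.mt
  have h10 : cBil g p y (t y) (s y) = 1 := h.ps
  generalize EP g p t y u = a at *
  generalize EP g p s y u = b at *
  rw [hu]
  simp only [map_add, map_smul, add_apply, smul_apply, smul_eq_mul, h3, h4, h5, h6, h7, h8, h9,
    h10]
  ring

end Alg

end Pool.Agent.H75.LR
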