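import Mathlib
import Pool.Agent.H75.LR.Glo2

/-! Smoothness of the global objects defined by adapted frames; a positive definite metric. -/

open scoped Topology ContDiff Manifold
open Set Filter Pool.Agent.H826R2.WStmt Pool.Agent.W671.RStmt
open Pool.Agent.H75.PRStmt Pool.Agent.H75.PR Pool.Agent.W671 Pool.Agent.H826R2

noncomputable section

set_option maxSynthPendingDepth 3
set_option linter.unusedSectionVars false

namespace Pool.Agent.H75.LR

universe u v

variable {E : Type u} [NormedAddCommGroup E] [NormedSpace ℝ E] [FiniteDimensional ℝ E]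
  {M : Type v} [TopologicalSpace M] [ChartedSpace E M] [IsManifold 𝓘(ℝ, E) ∞ M]
  {m : ℕ} {α : M → Cov E} {R : M → E} {Φ : M → ℝ → M} {g : M → Bil E}
  {e : M → EuclideanSpace ℝ (Fin m)} {σ : ℝ} {fr : M → (E → E) × (E → E)}

lemma smooth_thG (S : Setting α R Φ g e σ) (hEL : S_EL.{u}) (hdim : 1 < Module.finrank ℝ E)
    (hfr : ∀ x, AF σ α g e x (fr x).1 (fr x).2 (ch E x x)) : SmoothCov (thG g fr) := by
  intro p z hz
  apply ContDiffAt.contDiffWithinAt
  obtain ⟨s, t, h⟩ := exists_AF S hEL hdim p hz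
  exact (h.fr S).contDiffAt_thet.congr_of_eventuallyEq (cmp_ev S hfr h).1

lemma smooth_pG (S : Setting α R Φ g e σ) (hEL : S_EL.{u}) (hdim : 1 < Module.finrank ℝ E)
    (hfr : ∀ x, AF σ α g e x (fr x).1 (fr x).2 (ch E x x)) (p : M) :
    ContDiffOn ℝ ∞ (cEnd (pG g fr) p) (ch E p).target := by
  intro z hz
  apply ContDiffAt.contDiffWithinAt
  obtain ⟨s, t, h⟩ := exists_AF S hEL hdim p hz
  refine ContDiffAt.congr_of_eventuallyEq ?_ (cmp_ev S hfr h).2.1
  have h1 := (sm_EP S hz h.ht).at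
  have h2 := (sm_EP S hz h.hs).at
  exact (h1.smulRight h.hs.at).add (h2.smulRight h.ht.at)

lemma contDiffAt_CC (S : Setting α R Φ g e σ) {p : M} {s t : E → E} {z : E}
    (h : AF σ α g e p s t z) : ContDiffAt ℝ ∞ (CC α g p s t) z := by
  have hz := h.ev.self_of_nhds.mem
  have h1 : ContDiffAt ℝ ∞ (fun y => ddL (TH g p s t) y (s y) (t y)) z :=
    ((contDiffAt_ddL (h.fr S).contDiffAt_thet).clm_apply h.hs.at).clm_apply h.ht.at
  have h2 : ContDiffAt ℝ ∞ (fun y => ddL (cCov α p) y (s y) (t y)) z :=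
    ((contDiffAt_ddL (sm_cCov S.sc hz).at).clm_apply h.hs.at).clm_apply h.ht.at
  have h3 : ddL (cCov α p) z (s z) (t z) ≠ 0 := by
    obtain ⟨l, hl, e1, e2⟩ := (At.alg S h.ev.self_of_nhds).ex
    rw [ddL_apply, e1, (At.alg S h.ev.self_of_nhds).mt, mul_one]
    exact mul_ne_zero (sgn_ne S) hl.ne'
  have h4 : CC α g p s t = fun y => ddL (TH g p s t) y (s y) (t y) /
      ddL (cCov α p) y (s y) (t y) := by
    funext y
    simp only [ddL_apply]
    rfl
  rw [h4]
  exact h1.div h2 h3

lemma smooth_cG (S : Setting α R Φ g e σ) (hEL : S_EL.{u}) (hdim : 1 < Module.finrank ℝ E)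
    (hfr : ∀ x, AF σ α g e x (fr x).1 (fr x).2 (ch E x x)) (p : M) :
    ContDiffOn ℝ ∞ (fun z => cG α g fr ((ch E p).symm z)) (ch E p).target := by
  intro z hz
  apply ContDiffAt.contDiffWithinAt
  obtain ⟨s, t, h⟩ := exists_AF S hEL hdim p hz
  exact (contDiffAt_CC S h).congr_of_eventuallyEq (cmp_ev S hfr h).2.2

omit [FiniteDimensional ℝ E] [IsManifold 𝓘(ℝ, E) ∞ M] in
lemma cont_of_chart {Y : Type*} [TopologicalSpace Y] {f : M → Y} {φ : E → Y} {x : M}
    (h : (fun y => f ((ch E x).symm y)) =ᶠ[𝓝 (ch E x x)] φ) (hφ : ContinuousAt φ (ch E x x)) :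
    ContinuousAt f x := by
  have h1 : ContinuousAt (fun y => f ((ch E x).symm y)) (ch E x x) := hφ.congr h.symm
  have h2 : ContinuousAt (fun x' => f ((ch E x).symm (ch E x x'))) x :=
    ContinuousAt.comp (g := fun y => f ((ch E x).symm y)) (f := ch E x) h1
      (continuousAt_extChartAt (I := 𝓘(ℝ, E)) x)
  refine h2.congr ?_
  filter_upwards [(isOpen_extChartAt_source (I := 𝓘(ℝ, E)) x).mem_nhds
    (mem_extChartAt_source x)] with x' hx'
  rw [(ch E x).left_inv hx']

lemma cont_cG (S : Setting α R Φ g e σ)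
    (hfr : ∀ x, AF σ α g e x (fr x).1 (fr x).2 (ch E x x)) : Continuous (cG α g fr) := by
  rw [continuous_iff_continuousAt]
  intro x
  exact cont_of_chart (cmp_ev S hfr (hfr x)).2.2 (contDiffAt_CC S (hfr x)).continuousAt

/-- a positive definite form in a chart -/
def HE (g : M → Bil E) (p : M) (s t : E → E) (y : E) : E →L[ℝ] E →L[ℝ] ℝ :=
  cBil g p y + (EP g p t y - EP g p s y).smulRight (EP g p t y - EP g p s y)

/-- the global positive definite form -/
def hG (g : M → Bil E) (fr : M → (E → E) × (E → E)) (x : M) : Bil E :=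
  HE g x (fr x).1 (fr x).2 (ch E x x)

lemma HE_apply (g : M → Bil E) (p : M) (s t : E → E) (y u v : E) :
    HE g p s t y u v = cBil g p y u v +
      (EP g p t y u - EP g p s y u) * (EP g p t y v - EP g p s y v) := rfl

lemma Alg.quad' (S : Setting α R Φ g e σ) {p : M} {s t : E → E} {y : E}
    (h : Alg σ α R g p s t y) (u : E) :
    HE g p s t y u u = EP g p t y u ^ 2 + EP g p s y u ^ 2 +
      cBil g p y (u - PE g p s t y u) (u - PE g p s t y u) := by
  rw [HE_apply, h.quad (cBil_symm S.metric p y)]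
  ring

lemma Alg.perp_nonneg {p : M} {s t : E → E} {y : E}
    (h : Alg σ α R g p s t y) (u : E) :
    0 ≤ cBil g p y (u - PE g p s t y u) (u - PE g p s t y u) := by
  obtain ⟨h1, h2⟩ := h.perp u
  by_cases h0 : u - PE g p s t y u = 0
  · rw [h0, map_zero]
  · exact (h.pos _ h0 h2 h1).le

lemma Alg.HE_pos (S : Setting α R Φ g e σ) {p : M} {s t : E → E} {y : E}
    (h : Alg σ α R g p s t y) {u : E} (hu : u ≠ 0) : 0 < HE g p s t y u u := by
  rw [h.quad' S]
  obtain ⟨h1, h2⟩ := h.perp u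
  by_cases h0 : u - PE g p s t y u = 0
  · have h3 : EP g p t y u ≠ 0 ∨ EP g p s y u ≠ 0 := by
      by_contra hcon
      push Not at hcon
      apply hu
      have h4 : u = PE g p s t y u := sub_eq_zero.1 h0
      rw [h4, PE_apply, hcon.1, hcon.2, zero_smul, zero_smul, add_zero]
    have h5 := h.perp_nonneg u
    rcases h3 with h3 | h3
    · have := pow_pos (abs_pos.2 h3) 2
      rw [sq_abs] at this
      positivity
    · have := pow_pos (abs_pos.2 h3) 2
      rw [sq_abs] at this
      positivity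
  · have := h.pos _ h0 h2 h1
    positivity

lemma cBil_center (b : M → Bil E) (x : M) (u v : E) :
    cBil b x (ch E x x) u v = bev (b x) u v := by
  rw [cBil_apply, Dsy_center, Dsy_center, (ch E x).left_inv (mem_extChartAt_source x)]

/-- comparison of the positive definite forms -/
lemma cmpH (S : Setting α R Φ g e σ) (hfr : ∀ x, AF σ α g e x (fr x).1 (fr x).2 (ch E x x))
    {p : M} {s t : E → E} {y : E} (h : AF σ α g e p s t y) :
    cBil (hG g fr) p y = HE g p s t y := by
  obtain ⟨-, -, -, c, hc, -, -, h1, h2⟩ := cmp S hfr h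
  refine ContinuousLinearMap.ext fun u => ContinuousLinearMap.ext fun v => ?_
  set x := (ch E p).symm y with hx
  have e1 : cBil (hG g fr) p y u v = HE g x (fr x).1 (fr x).2 (ch E x x) (Dsy E p y u)
      (Dsy E p y v) := rfl
  have hc2 : c⁻¹ = c := by
    have h3 := abs_mul_abs_self c
    rw [hc] at h3
    have h4 : c ≠ 0 := by
      rintro rfl
      simp at h3
    field_simp
    nlinarith
  have hc3 : c * c = 1 := by
    have h3 := abs_mul_abs_self c
    rw [hc] at h3
    linarith
  rw [e1, HE_apply, HE_apply, h1, h1, h2, h2, hc2, cBil_center]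
  have e2 : bev (g x) (Dsy E p y u) (Dsy E p y v) = cBil g p y u v := rfl
  rw [e2]
  linear_combination ((EP g p t y u - EP g p s y u) * (EP g p t y v - EP g p s y v)) * hc3

lemma hG_pos (S : Setting α R Φ g e σ) (hfr : ∀ x, AF σ α g e x (fr x).1 (fr x).2 (ch E x x))
    (x : M) (u : E) (hu : u ≠ 0) : 0 < bev (hG g fr x) u u := by
  have h1 := Alg.HE_pos S (At.alg S (hfr x).ev.self_of_nhds) hu
  exact h1

lemma contDiffAt_HE (S : Setting α R Φ g e σ) {p : M} {s t : E → E} {z : E}
    (h : AF σ α g e p s t z) : ContDiffAt ℝ ∞ (HE g p s t) z := by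
  have hz := h.ev.self_of_nhds.mem
  have h1 := (sm_EP S hz h.ht).at.sub (sm_EP S hz h.hs).at
  exact (sm_cBil S hz).at.add (h1.smulRight h1)

lemma cont_hG (S : Setting α R Φ g e σ) (hEL : S_EL.{u}) (hdim : 1 < Module.finrank ℝ E)
    (hfr : ∀ x, AF σ α g e x (fr x).1 (fr x).2 (ch E x x)) (p : M) :
    ContinuousOn (cBil (hG g fr) p) (ch E p).target := by
  intro z hz
  apply ContinuousAt.continuousWithinAt
  obtain ⟨s, t, h⟩ := exists_AF S hEL hdim p hz
  refine ContinuousAt.congr (contDiffAt_HE S h).continuousAt ?_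
  filter_upwards [h.eventually] with y hy
  exact (cmpH S hfr hy).symm

end Pool.Agent.H75.LR
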