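import Mathlib
import Pool.Agent.H75.LR.Glo3
import Pool.Agent.H75.LR.Stm3

/-! The growth of adapted frames along the flow. -/

open scoped Topology ContDiff Manifold
open Set Filter Pool.Agent.H826R2.WStmt Pool.Agent.W671.RStmt
open Pool.Agent.H75.PRStmt Pool.Agent.H75.PR Pool.Agent.W671 Pool.Agent.H826R2

noncomputable section

set_option maxSynthPendingDepth 3
set_option linter.unusedSectionVars false

namespace Pool.Agent.H75.LR

universe u v

variable {E : Type u} [NormedAddCommGroup E] [NormedSpace ℝ E] [FiniteDimensional ℝ E]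
  {M : Type v} [TopologicalSpace M] [ChartedSpace E M] [IsManifold 𝓘(ℝ, E) ∞ M]
  {m : ℕ} {α : M → Cov E} {R : M → E} {Φ : M → ℝ → M} {g : M → Bil E}
  {e : M → EuclideanSpace ℝ (Fin m)} {σ : ℝ} {fr : M → (E → E) × (E → E)}

/-- the growth function -/
def GG (Φ : M → ℝ → M) (e : M → EuclideanSpace ℝ (Fin m)) (fr : M → (E → E) × (E → E))
    (T : ℝ) (x : M) : ℝ :=
  ‖D (E := E) (E' := EuclideanSpace ℝ (Fin m)) (e ∘ fun y => Φ y T) x (nG fr x)‖

lemma unit_nG (S : Setting α R Φ g e σ) (hfr : ∀ x, AF σ α g e x (fr x).1 (fr x).2 (ch E x x))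
    (x : M) : ‖D (E := E) (E' := EuclideanSpace ℝ (Fin m)) e x (nG fr x)‖ = 1 := by
  have h := (hfr x).ev.self_of_nhds.unit
  rw [fderiv_imm S.imm.smooth (mem_extChartAt_target x), Dsy_center,
    (ch E x).left_inv (mem_extChartAt_source x)] at h
  exact h

lemma D_e_comp (S : Setting α R Φ g e σ) {f : M → M} (hf : ContMDiff 𝓘(ℝ, E) 𝓘(ℝ, E) ∞ f)
    (x : M) (v : E) : D (E := E) (E' := EuclideanSpace ℝ (Fin m)) (e ∘ f) x v =
      D (E := E) (E' := EuclideanSpace ℝ (Fin m)) e (f x) (D (E := E) (E' := E) f x v) := by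
  rw [D_comp (S.imm.smooth.mdifferentiableAt (by simp)) (hf.mdifferentiableAt (by simp))]
  rfl

/-- the derivative of an automorphism on the frames -/
lemma aut_frame (S : Setting α R Φ g e σ) (hfr : ∀ x, AF σ α g e x (fr x).1 (fr x).2 (ch E x x))
    {f : M → M} (hf : Aut α g f) (x : M) :
    ∃ c : ℝ, c ≠ 0 ∧ D (E := E) (E' := E) f x (nG fr x) = c • nG fr (f x) ∧
      D (E := E) (E' := E) f x (mG fr x) = c⁻¹ • mG fr (f x) ∧
      |c| = ‖D (E := E) (E' := EuclideanSpace ℝ (Fin m)) (e ∘ f) x (nG fr x)‖ ∧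
      (∀ u, EP g (f x) (fr (f x)).2 (ch E (f x) (f x)) (D (E := E) (E' := E) f x u) =
        c * EP g x (fr x).2 (ch E x x) u) ∧
      (∀ u, EP g (f x) (fr (f x)).1 (ch E (f x) (f x)) (D (E := E) (E' := E) f x u) =
        c⁻¹ * EP g x (fr x).1 (ch E x x) u) := by
  have hx : (ch E x).symm (ch E x x) = x := (ch E x).left_inv (mem_extChartAt_source x)
  have hs : f ((ch E x).symm (ch E x x)) ∈ (ch E (f x)).source := by
    rw [hx]; exact mem_extChartAt_source (f x)
  have hy : ch E x x ∈ (ch E x).target := mem_extChartAt_target x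
  have hψ : hat2 E x (f x) f (ch E x x) = ch E (f x) (f x) := by
    simp only [hat2, Function.comp]
    rw [hx]
  have h' : AF σ α g e (f x) (fr (f x)).1 (fr (f x)).2 (hat2 E x (f x) f (ch E x x)) := by
    rw [hψ]; exact hfr (f x)
  have hD : ∀ u, fderiv ℝ (hat2 E x (f x) f) (ch E x x) u = D (E := E) (E' := E) f x u := by
    intro u
    have h1 := Dsy_hat2 hf.smooth hy hs u
    rw [hψ, Dsy_center, Dsy_center, hx] at h1
    exact h1
  obtain ⟨-, h2⟩ := AF.trans S hf hs (hfr x) h'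
  obtain ⟨a1, a2, a3, a4, a5, a6⟩ := h2.self_of_nhds
  set c := hh g x (f x) f (fr x).1 (fr (f x)).2 (ch E x x) with hc
  rw [hD, hψ] at a2 a3
  rw [Dsy_center, hx] at a4
  refine ⟨c, a1, a2, a3, a4, fun u => ?_, fun u => ?_⟩
  · have b := DFunLike.congr_fun a5 u
    have b1 : pb (hat2 E x (f x) f) (EP g (f x) (fr (f x)).2) (ch E x x) u =
        EP g (f x) (fr (f x)).2 (hat2 E x (f x) f (ch E x x))
          (fderiv ℝ (hat2 E x (f x) f) (ch E x x) u) := rfl
    rw [b1, hψ, hD] at b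
    exact b
  · have b := DFunLike.congr_fun a6 u
    have b1 : pb (hat2 E x (f x) f) (EP g (f x) (fr (f x)).1) (ch E x x) u =
        EP g (f x) (fr (f x)).1 (hat2 E x (f x) f (ch E x x))
          (fderiv ℝ (hat2 E x (f x) f) (ch E x x) u) := rfl
    rw [b1, hψ, hD] at b
    exact b

lemma GG_pos (S : Setting α R Φ g e σ) (hfr : ∀ x, AF σ α g e x (fr x).1 (fr x).2 (ch E x x))
    (T : ℝ) (x : M) : 0 < GG Φ e fr T x := by
  obtain ⟨c, hc, -, -, h, -⟩ := aut_frame S hfr (S.aut T) x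
  have : GG Φ e fr T x = |c| := h.symm
  rw [this]
  exact abs_pos.2 hc

lemma GG_add (S : Setting α R Φ g e σ) (hfr : ∀ x, AF σ α g e x (fr x).1 (fr x).2 (ch E x x))
    (T T' : ℝ) (x : M) : GG Φ e fr (T + T') x = GG Φ e fr T x * GG Φ e fr T' (Φ x T) := by
  obtain ⟨c, hc, h1, -, h, -⟩ := aut_frame S hfr (S.aut T) x
  have h2 : GG Φ e fr T x = |c| := h.symm
  have h3 : (fun y => Φ y (T + T')) = (fun y => Φ y T') ∘ (fun y => Φ y T) := by
    funext y
    exact S.rf.add y T T'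
  rw [h2]
  unfold GG
  rw [h3, ← Function.comp_assoc]
  have h4 : D (E := E) (E' := EuclideanSpace ℝ (Fin m)) ((e ∘ fun y => Φ y T') ∘ fun y => Φ y T) x
      (nG fr x) = D (E := E) (E' := EuclideanSpace ℝ (Fin m)) (e ∘ fun y => Φ y T') (Φ x T)
        (D (E := E) (E' := E) (fun y => Φ y T) x (nG fr x)) := by
    rw [D_comp ((S.imm.smooth.comp (S.rf.smooth_t T')).mdifferentiableAt (by simp))
      ((S.rf.smooth_t T).mdifferentiableAt (by simp))]
    rfl
  rw [h4, h1, map_smul, norm_smul, Real.norm_eq_abs]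

lemma GG_zero (S : Setting α R Φ g e σ) (hfr : ∀ x, AF σ α g e x (fr x).1 (fr x).2 (ch E x x))
    (x : M) : GG Φ e fr 0 x = 1 := by
  have h := GG_add S hfr 0 0 x
  rw [add_zero, S.rf.zero] at h
  have h1 := GG_pos S hfr 0 x
  nlinarith

/-- the growth function in a chart -/
lemma GG_chart (S : Setting α R Φ g e σ) (hfr : ∀ x, AF σ α g e x (fr x).1 (fr x).2 (ch E x x))
    (T : ℝ) {p : M} {s t : E → E} {y : E} (h : AF σ α g e p s t y) :
    GG Φ e fr T ((ch E p).symm y) =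
      ‖fderiv ℝ ((e ∘ fun y => Φ y T) ∘ (ch E p).symm) y (s y)‖ := by
  obtain ⟨-, -, -, c, hc, h1, -⟩ := cmp S hfr h
  rw [fderiv_imm (S.imm.smooth.comp (S.rf.smooth_t T)) h.ev.self_of_nhds.mem, h1, map_smul,
    norm_smul, Real.norm_eq_abs, hc, one_mul]
  rfl

lemma GG_cont (S : Setting α R Φ g e σ) (hfr : ∀ x, AF σ α g e x (fr x).1 (fr x).2 (ch E x x))
    (T : ℝ) : Continuous (GG Φ e fr T) := by
  rw [continuous_iff_continuousAt]
  intro x
  refine cont_of_chart (φ := fun y =>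
    ‖fderiv ℝ ((e ∘ fun y => Φ y T) ∘ (ch E x).symm) y ((fr x).1 y)‖) ?_ ?_
  · filter_upwards [(hfr x).eventually] with y hy
    exact GG_chart S hfr T hy
  · have h1 : ContDiffAt ℝ ∞ ((e ∘ fun y => Φ y T) ∘ (ch E x).symm) (ch E x x) :=
      (contDiffOn_imm (p := x) (S.imm.smooth.comp (S.rf.smooth_t T))).contDiffAt
        ((isOpen_extChartAt_target x).mem_nhds (mem_extChartAt_target x))
    exact ((h1.fderiv_right (m := ∞) (by simp)).continuousAt.clm_apply
      (hfr x).hs.at.continuousAt).norm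

lemma GG_mul (S : Setting α R Φ g e σ) (hfr : ∀ x, AF σ α g e x (fr x).1 (fr x).2 (ch E x x))
    {T : ℝ} (h4 : ∀ x, 4 ≤ GG Φ e fr T x) (k : ℕ) (x : M) :
    4 ^ k ≤ GG Φ e fr (k * T) x := by
  induction k generalizing x with
  | zero => simp [GG_zero S hfr]
  | succ k ih =>
    have h1 : ((k + 1 : ℕ) : ℝ) * T = k * T + T := by push_cast; ring
    rw [h1, GG_add S hfr, pow_succ]
    have := ih x
    have h2 := h4 (Φ x (k * T))
    exact mul_le_mul this h2 (by norm_num) (GG_pos S hfr _ x).le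

lemma GG_neg (S : Setting α R Φ g e σ) (hfr : ∀ x, AF σ α g e x (fr x).1 (fr x).2 (ch E x x))
    {T : ℝ} (h4 : ∀ x, 4 ≤ GG Φ e fr T x) (k : ℕ) (x : M) :
    GG Φ e fr (-(k * T)) x ≤ (1 / 4) ^ k := by
  have h1 := GG_add S hfr (-(k * T)) (k * T) x
  rw [neg_add_cancel, GG_zero S hfr] at h1
  have h2 := GG_mul S hfr h4 k (Φ x (-(k * T)))
  have h3 := GG_pos S hfr (-(k * T)) x
  have h5 : (0:ℝ) < 4 ^ k := by positivity
  rw [one_div, inv_pow]
  rw [le_inv_comm₀ h3 h5]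
  rw [← one_div, le_div_iff₀ h3]
  nlinarith

end Pool.Agent.H75.LR
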