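import Mathlib
import Pool.Agent.H75.LR.Grow

/-! Vanishing of parts of the exterior derivatives. -/

open scoped Topology ContDiff Manifold
open Set Filter Pool.Agent.H826R2.WStmt Pool.Agent.W671.RStmt
open Pool.Agent.H75.PRStmt Pool.Agent.H75.PR Pool.Agent.W671 Pool.Agent.H826R2

noncomputable section

set_option maxSynthPendingDepth 3
set_option linter.unusedSectionVars false

namespace Pool.Agent.H75.LR

universe u v

variable {E : Type u} [NormedAddCommGroup E] [NormedSpace ℝ E] [FiniteDimensional ℝ E]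
  {M : Type v} [TopologicalSpace M] [ChartedSpace E M] [IsManifold 𝓘(ℝ, E) ∞ M]
  {m : ℕ} {α : M → Cov E} {R : M → E} {Φ : M → ℝ → M} {g : M → Bil E}
  {e : M → EuclideanSpace ℝ (Fin m)} {σ : ℝ} {fr : M → (E → E) × (E → E)}

/-- a positive definite form is coercive -/
lemma coercive {B : E →L[ℝ] E →L[ℝ] ℝ} (hB : ∀ u, u ≠ 0 → 0 < B u u) :
    ∃ c > 0, ∀ u, c * ‖u‖ ^ 2 ≤ B u u := by
  have : ProperSpace E := FiniteDimensional.proper ℝ E
  by_cases hne : (Metric.sphere (0:E) 1).Nonempty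
  · have hcont : Continuous fun u : E => B u u := by
      exact (B.continuous.clm_apply continuous_id)
    obtain ⟨u₀, hu₀, hmin⟩ := (isCompact_sphere (0:E) 1).exists_isMinOn hne hcont.continuousOn
    have hu₀1 : ‖u₀‖ = 1 := by simpa using hu₀
    have hu₀n : u₀ ≠ 0 := by
      rintro rfl
      simp at hu₀1
    refine ⟨B u₀ u₀, hB u₀ hu₀n, fun u => ?_⟩
    by_cases hu : u = 0
    · rw [hu]; simp
    · have hn : ‖u‖ ≠ 0 := norm_ne_zero_iff.2 hu
      have h1 : ‖u‖⁻¹ • u ∈ Metric.sphere (0:E) 1 := by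
        simp [norm_smul, hn]
      have h2 : B u₀ u₀ ≤ B (‖u‖⁻¹ • u) (‖u‖⁻¹ • u) := hmin h1
      simp only [map_smul, smul_apply, smul_eq_mul] at h2
      have h3 : 0 < ‖u‖ ^ 2 := by positivity
      have h4 : ‖u‖⁻¹ * (‖u‖⁻¹ * B u u) * ‖u‖ ^ 2 = B u u := by
        field_simp
      nlinarith
  · refine ⟨1, one_pos, fun u => ?_⟩
    have hu : u = 0 := by
      by_contra hu
      apply hne
      have hn : ‖u‖ ≠ 0 := norm_ne_zero_iff.2 hu
      exact ⟨‖u‖⁻¹ • u, by simp [norm_smul, hn]⟩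
    rw [hu]; simp

/-- a positive definite form is coercive near a point -/
lemma coercive_near {B : E → E →L[ℝ] E →L[ℝ] ℝ} {z : E} (hc : ContinuousAt B z)
    (hB : ∀ u, u ≠ 0 → 0 < B z u u) :
    ∃ c > 0, ∀ᶠ y in 𝓝 z, ∀ u, c * ‖u‖ ^ 2 ≤ B y u u := by
  obtain ⟨c, hc0, h⟩ := coercive hB
  refine ⟨c / 2, by positivity, ?_⟩
  have h1 : ∀ᶠ y in 𝓝 z, ‖B y - B z‖ < c / 2 := by
    have := tendsto_iff_norm_sub_tendsto_zero.1 hc
    exact this.eventually (gt_mem_nhds (by positivity))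
  filter_upwards [h1] with y hy u
  have h2 : |(B y - B z) u u| ≤ c / 2 * ‖u‖ ^ 2 := by
    rw [← Real.norm_eq_abs]
    calc ‖(B y - B z) u u‖ ≤ ‖(B y - B z) u‖ * ‖u‖ := ContinuousLinearMap.le_opNorm _ _
      _ ≤ (‖B y - B z‖ * ‖u‖) * ‖u‖ := by gcongr; exact ContinuousLinearMap.le_opNorm _ _
      _ ≤ (c / 2 * ‖u‖) * ‖u‖ := by gcongr
      _ = c / 2 * ‖u‖ ^ 2 := by ring
  have h3 : B y u u = B z u u + (B y - B z) u u := by simp
  have h4 := h u
  have h5 := (abs_le.1 h2).1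
  rw [h3]
  linarith

/-- the data of a limit argument: automorphisms `f k` with `f k x → y` -/
structure Lim (α : M → Cov E) (g : M → Bil E) (f : ℕ → M → M) (l : Ultrafilter ℕ) (x y : M) :
    Prop where
  aut : ∀ k, Aut α g (f k)
  lim : Tendsto (fun k => f k x) l (𝓝 y)

variable {f : ℕ → M → M} {l : Ultrafilter ℕ} {y : M} {p : M} {z : E}

lemma Lim.src (L : Lim α g f l ((ch E p).symm z) y) :
    ∀ᶠ k in (l : Filter ℕ), f k ((ch E p).symm z) ∈ (ch E y).source :=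
  L.lim.eventually ((isOpen_extChartAt_source y).mem_nhds (mem_extChartAt_source y))

lemma Lim.tend (L : Lim α g f l ((ch E p).symm z) y) :
    Tendsto (fun k => hat2 E p y (f k) z) l (𝓝 (ch E y y)) :=
  ((continuousAt_extChartAt (I := 𝓘(ℝ, E)) y).tendsto).comp L.lim

lemma Lim.AF (L : Lim α g f l ((ch E p).symm z) y) {s' t' : E → E}
    (h : AF σ α g e y s' t' (ch E y y)) :
    ∀ᶠ k in (l : Filter ℕ), LR.AF σ α g e y s' t' (hat2 E p y (f k) z) :=
  L.tend.eventually h.eventually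

/-- **boundedness** of the derivatives of the maps on some vectors -/
lemma Lim.bdd (S : Setting α R Φ g e σ) (L : Lim α g f l ((ch E p).symm z) y)
    {s t s' t' : E → E} (hz : LR.AF σ α g e p s t z) (hy : LR.AF σ α g e y s' t' (ch E y y)) (u : E)
    {B : ℝ} (hB : ∀ᶠ k in (l : Filter ℕ), (hh g p y (f k) s t' z * EP g p t z u -
      (hh g p y (f k) s t' z)⁻¹ * EP g p s z u) ^ 2 ≤ B) :
    ∃ C, 0 ≤ C ∧ ∀ᶠ k in (l : Filter ℕ), ‖fderiv ℝ (hat2 E p y (f k)) z u‖ ≤ C := by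
  obtain ⟨c, hc, h1⟩ := coercive_near (contDiffAt_HE S hy).continuousAt
    (fun u hu => Alg.HE_pos S (At.alg S hy.ev.self_of_nhds) hu)
  have h2 := L.tend.eventually h1
  set A : ℝ := cBil g p z u u + B with hA
  refine ⟨Real.sqrt (A / c), Real.sqrt_nonneg _, ?_⟩
  filter_upwards [h2, hB, L.src, L.AF hy] with k k1 k2 k3 k4
  obtain ⟨-, k5⟩ := AF.trans S (L.aut k) k3 hz k4
  obtain ⟨-, -, -, -, k6, k7⟩ := k5.self_of_nhds
  have k8 := k1 (fderiv ℝ (hat2 E p y (f k)) z u)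
  have k9 : EP g y t' (hat2 E p y (f k) z) (fderiv ℝ (hat2 E p y (f k)) z u) =
      hh g p y (f k) s t' z * EP g p t z u := DFunLike.congr_fun k6 u
  have k10 : EP g y s' (hat2 E p y (f k) z) (fderiv ℝ (hat2 E p y (f k)) z u) =
      (hh g p y (f k) s t' z)⁻¹ * EP g p s z u := DFunLike.congr_fun k7 u
  rw [HE_apply, k9, k10, hat2_bil (L.aut k) hz.ev.self_of_nhds.mem k3] at k8
  apply Real.le_sqrt_of_sq_le
  rw [le_div_iff₀ hc]
  nlinarith

/-- vanishing from growth to infinity: `d ep` vanishes on `ker ep` -/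
lemma Lim.van1 (S : Setting α R Φ g e σ) (L : Lim α g f l ((ch E p).symm z) y)
    {s t s' t' : E → E} (hz : LR.AF σ α g e p s t z) (hy : LR.AF σ α g e y s' t' (ch E y y))
    (hinf : Tendsto (fun k => (|hh g p y (f k) s t' z|)⁻¹) l (𝓝 0)) (u w : E)
    (hu : EP g p t z u = 0) (hw : EP g p t z w = 0) : dd (EP g p t) z u w = 0 := by
  have hle : ∀ᶠ k in (l : Filter ℕ), (|hh g p y (f k) s t' z|)⁻¹ ≤ 1 :=
    hinf.eventually (Iic_mem_nhds one_pos)
  have hbd : ∀ u, EP g p t z u = 0 →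
      ∃ C, 0 ≤ C ∧ ∀ᶠ k in (l : Filter ℕ), ‖fderiv ℝ (hat2 E p y (f k)) z u‖ ≤ C := by
    intro u hu
    refine L.bdd S hz hy u (B := EP g p s z u ^ 2) ?_
    filter_upwards [hle] with k hk
    rw [hu, mul_zero, zero_sub, neg_sq, mul_pow]
    have h1 : ((hh g p y (f k) s t' z)⁻¹) ^ 2 ≤ 1 := by
      rw [← sq_abs, abs_inv]
      exact pow_le_one₀ (by positivity) hk
    nlinarith [sq_nonneg (EP g p s z u)]
  obtain ⟨C₁, hC₁, h1⟩ := hbd u hu
  obtain ⟨C₂, hC₂, h2⟩ := hbd w hw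
  have hyy : ch E y y ∈ (ch E y).target := mem_extChartAt_target y
  have hcont : ContinuousAt (ddL (EP g y t')) (ch E y y) :=
    (contDiffAt_ddL (sm_EP S hyy hy.ht).at).continuousAt
  set N : ℝ := ‖ddL (EP g y t') (ch E y y)‖ + 1 with hN
  have h3 : ∀ᶠ k in (l : Filter ℕ), ‖ddL (EP g y t') (hat2 E p y (f k) z)‖ ≤ N := by
    have := (hcont.norm.tendsto.comp L.tend).eventually
      (gt_mem_nhds (lt_add_one ‖ddL (EP g y t') (ch E y y)‖))
    exact this.mono fun k hk => hk.le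
  have key : ∀ᶠ k in (l : Filter ℕ), |dd (EP g p t) z u w| ≤
      (|hh g p y (f k) s t' z|)⁻¹ * (N * C₁ * C₂) := by
    filter_upwards [h1, h2, h3, L.src, L.AF hy] with k k1 k2 k3 k4 k5
    obtain ⟨b1, b2⟩ := AF.trans S (L.aut k) k4 hz k5
    have b3 := hz.ev.self_of_nhds.mem
    have b4 : pb (hat2 E p y (f k)) (EP g y t') =ᶠ[𝓝 z]
        fun y' => hh g p y (f k) s t' y' • EP g p t y' := b2.mono fun _ h => h.2.2.2.2.1
    have b5 := dd_congr b4 u w
    rw [dd_smul_fun b1.diff (sm_EP S b3 hz.ht).diff, hu, hw, dd_pb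
      ((contDiffAt_hat2 (L.aut k).smooth b3 k4).of_le two_le_inf)
      (sm_EP S k5.ev.self_of_nhds.mem k5.ht).diff] at b5
    have b6 : dd (EP g p t) z u w = (hh g p y (f k) s t' z)⁻¹ *
        ddL (EP g y t') (hat2 E p y (f k) z) (fderiv ℝ (hat2 E p y (f k)) z u)
          (fderiv ℝ (hat2 E p y (f k)) z w) := by
      rw [ddL_apply, b5]
      have b7 := b2.self_of_nhds.1
      field_simp
      ring
    rw [b6, abs_mul, abs_inv]
    gcongr
    rw [← Real.norm_eq_abs]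
    calc ‖ddL (EP g y t') (hat2 E p y (f k) z) (fderiv ℝ (hat2 E p y (f k)) z u)
          (fderiv ℝ (hat2 E p y (f k)) z w)‖
        ≤ ‖ddL (EP g y t') (hat2 E p y (f k) z) (fderiv ℝ (hat2 E p y (f k)) z u)‖ *
          ‖fderiv ℝ (hat2 E p y (f k)) z w‖ := ContinuousLinearMap.le_opNorm _ _
      _ ≤ (‖ddL (EP g y t') (hat2 E p y (f k) z)‖ * ‖fderiv ℝ (hat2 E p y (f k)) z u‖) *
          ‖fderiv ℝ (hat2 E p y (f k)) z w‖ := by
          gcongr; exact ContinuousLinearMap.le_opNorm _ _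
      _ ≤ (N * C₁) * C₂ := by gcongr
  have h4 : Tendsto (fun k => (|hh g p y (f k) s t' z|)⁻¹ * (N * C₁ * C₂)) l (𝓝 0) := by
    have := hinf.mul_const (N * C₁ * C₂)
    rwa [zero_mul] at this
  have h5 : |dd (EP g p t) z u w| ≤ 0 := ge_of_tendsto h4 key
  exact abs_eq_zero.1 (le_antisymm h5 (abs_nonneg _))

/-- vanishing from decay: `d θ (s, u)` vanishes for `u` orthogonal to the frame -/
lemma Lim.van3 (S : Setting α R Φ g e σ) (L : Lim α g f l ((ch E p).symm z) y)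
    {s t s' t' : E → E} (hz : LR.AF σ α g e p s t z) (hy : LR.AF σ α g e y s' t' (ch E y y))
    (hdec : Tendsto (fun k => |hh g p y (f k) s t' z|) l (𝓝 0)) (u : E)
    (hu : EP g p t z u = 0) (hu' : EP g p s z u = 0) : dd (TH g p s t) z (s z) u = 0 := by
  obtain ⟨C₁, hC₁, h1⟩ := L.bdd S hz hy u (B := 0) (Filter.Eventually.of_forall fun k => by
    rw [hu, hu']; simp)
  have hyy : ch E y y ∈ (ch E y).target := mem_extChartAt_target y
  have hcont : ContinuousAt (fun z' => ddL (TH g y s' t') z' (s' z')) (ch E y y) :=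
    (contDiffAt_ddL (hy.fr S).contDiffAt_thet).continuousAt.clm_apply hy.hs.at.continuousAt
  set N : ℝ := ‖ddL (TH g y s' t') (ch E y y) (s' (ch E y y))‖ + 1 with hN
  have h3 : ∀ᶠ k in (l : Filter ℕ), ‖ddL (TH g y s' t') (hat2 E p y (f k) z)
      (s' (hat2 E p y (f k) z))‖ ≤ N := by
    have := (hcont.norm.tendsto.comp L.tend).eventually
      (gt_mem_nhds (lt_add_one ‖ddL (TH g y s' t') (ch E y y) (s' (ch E y y))‖))
    exact this.mono fun k hk => hk.le
  have key : ∀ᶠ k in (l : Filter ℕ), |dd (TH g p s t) z (s z) u| ≤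
      |hh g p y (f k) s t' z| * (N * C₁) := by
    filter_upwards [h1, h3, L.src, L.AF hy] with k k1 k3 k4 k5
    obtain ⟨b1, b2⟩ := AF.trans S (L.aut k) k4 hz k5
    rw [dd_TH_trans S (L.aut k) k4 hz k5, b2.self_of_nhds.2.1, dd_smul_left, abs_mul,
      ← ddL_apply]
    gcongr
    rw [← Real.norm_eq_abs]
    calc ‖ddL (TH g y s' t') (hat2 E p y (f k) z) (s' (hat2 E p y (f k) z))
          (fderiv ℝ (hat2 E p y (f k)) z u)‖
        ≤ ‖ddL (TH g y s' t') (hat2 E p y (f k) z) (s' (hat2 E p y (f k) z))‖ *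
          ‖fderiv ℝ (hat2 E p y (f k)) z u‖ := ContinuousLinearMap.le_opNorm _ _
      _ ≤ N * C₁ := by gcongr
  have h4 : Tendsto (fun k => |hh g p y (f k) s t' z| * (N * C₁)) l (𝓝 0) := by
    have := hdec.mul_const (N * C₁)
    rwa [zero_mul] at this
  have h5 : |dd (TH g p s t) z (s z) u| ≤ 0 := ge_of_tendsto h4 key
  exact abs_eq_zero.1 (le_antisymm h5 (abs_nonneg _))

end Pool.Agent.H75.LR
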