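import Mathlib
import Pool.Agent.H75.LR.Van

/-! The structure equation. -/

open scoped Topology ContDiff Manifold
open Set Filter Pool.Agent.H826R2.WStmt Pool.Agent.W671.RStmt
open Pool.Agent.H75.PRStmt Pool.Agent.H75.PR Pool.Agent.W671 Pool.Agent.H826R2

noncomputable section

set_option maxSynthPendingDepth 3
set_option linter.unusedSectionVars false

namespace Pool.Agent.H75.LR

universe u v

variable {E : Type u} [NormedAddCommGroup E] [NormedSpace ℝ E] [FiniteDimensional ℝ E]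
  {M : Type v} [TopologicalSpace M] [ChartedSpace E M] [IsManifold 𝓘(ℝ, E) ∞ M]
  {m : ℕ} {α : M → Cov E} {R : M → E} {Φ : M → ℝ → M} {g : M → Bil E}
  {e : M → EuclideanSpace ℝ (Fin m)} {σ : ℝ} {fr : M → (E → E) × (E → E)}

lemma abs_hh (S : Setting α R Φ g e σ) (hfr : ∀ x, AF σ α g e x (fr x).1 (fr x).2 (ch E x x))
    (τ : ℝ) {p q : M} {z : E} {s t s' t' : E → E}
    (hs : Φ ((ch E p).symm z) τ ∈ (ch E q).source) (h : AF σ α g e p s t z)
    (h' : AF σ α g e q s' t' (hat2 E p q (fun x => Φ x τ) z)) :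
    |hh g p q (fun x => Φ x τ) s t' z| = GG Φ e fr τ ((ch E p).symm z) := by
  obtain ⟨-, h2⟩ := AF.trans S (S.aut τ) hs h h'
  rw [h2.self_of_nhds.2.2.2.1, GG_chart S hfr τ h,
    fderiv_imm (S.imm.smooth.comp (S.rf.smooth_t τ)) h.ev.self_of_nhds.mem]

/-- the limit data for the times `k * T` -/
lemma exists_lim [CompactSpace M] (S : Setting α R Φ g e σ) (τ : ℕ → ℝ) (x : M) :
    ∃ y, Lim α g (fun k x => Φ x (τ k)) (Filter.hyperfilter ℕ) x y := by
  obtain ⟨y, hy⟩ := WU.exists_limit_compact (Filter.hyperfilter ℕ) (fun k => Φ x (τ k))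
  exact ⟨y, fun k => S.aut (τ k), hy⟩

lemma hyper_le : ((Filter.hyperfilter ℕ : Ultrafilter ℕ) : Filter ℕ) ≤ atTop := by
  rw [← Nat.cofinite_eq_atTop]
  exact Filter.hyperfilter_le_cofinite

lemma van1 [CompactSpace M] (S : Setting α R Φ g e σ)
    (hfr : ∀ x, AF σ α g e x (fr x).1 (fr x).2 (ch E x x))
    {T : ℝ} (h4 : ∀ x, 4 ≤ GG Φ e fr T x) {p : M} {z : E} {s t : E → E}
    (h : AF σ α g e p s t z) (u w : E) (hu : EP g p t z u = 0) (hw : EP g p t z w = 0) :
    dd (EP g p t) z u w = 0 := by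
  obtain ⟨y, L⟩ := exists_lim S (fun k : ℕ => (k:ℝ) * T) ((ch E p).symm z)
  refine L.van1 S h (hfr y) ?_ u w hu hw
  have h1 : Tendsto (fun k : ℕ => (1 / 4 : ℝ) ^ k) (Filter.hyperfilter ℕ : Ultrafilter ℕ) (𝓝 0) :=
    (tendsto_pow_atTop_nhds_zero_of_lt_one (by norm_num) (by norm_num)).mono_left hyper_le
  refine tendsto_of_tendsto_of_tendsto_of_le_of_le' tendsto_const_nhds h1
    (Filter.Eventually.of_forall fun k => by positivity) ?_
  filter_upwards [L.src, L.AF (hfr y)] with k k1 k2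
  rw [abs_hh S hfr _ k1 h k2, one_div, inv_pow]
  exact inv_anti₀ (by positivity) (GG_mul S hfr h4 k _)

lemma van3 [CompactSpace M] (S : Setting α R Φ g e σ)
    (hfr : ∀ x, AF σ α g e x (fr x).1 (fr x).2 (ch E x x))
    {T : ℝ} (h4 : ∀ x, 4 ≤ GG Φ e fr T x) {p : M} {z : E} {s t : E → E}
    (h : AF σ α g e p s t z) (u : E) (hu : EP g p t z u = 0) (hu' : EP g p s z u = 0) :
    dd (TH g p s t) z (s z) u = 0 := by
  obtain ⟨y, L⟩ := exists_lim S (fun k : ℕ => -((k:ℝ) * T)) ((ch E p).symm z)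
  refine L.van3 S h (hfr y) ?_ u hu hu'
  have h1 : Tendsto (fun k : ℕ => (1 / 4 : ℝ) ^ k) (Filter.hyperfilter ℕ : Ultrafilter ℕ) (𝓝 0) :=
    (tendsto_pow_atTop_nhds_zero_of_lt_one (by norm_num) (by norm_num)).mono_left hyper_le
  refine tendsto_of_tendsto_of_tendsto_of_le_of_le' tendsto_const_nhds h1
    (Filter.Eventually.of_forall fun k => by positivity) ?_
  filter_upwards [L.src, L.AF (hfr y)] with k k1 k2
  rw [abs_hh S hfr _ k1 h k2]
  exact GG_neg S hfr h4 k _

/-- **the structure equation** -/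
theorem struct [CompactSpace M] (S : Setting α R Φ g e σ)
    (hfr : ∀ x, AF σ α g e x (fr x).1 (fr x).2 (ch E x x))
    {T : ℝ} (h4 : ∀ x, 4 ≤ GG Φ e fr T x) {p : M} {z : E} {s t : E → E}
    (h : AF σ α g e p s t z) (u w : E) :
    dd (TH g p s t) z u w = CC α g p s t z * dd (cCov α p) z (PE g p s t z u) w := by
  have hA := At.alg S h.ev.self_of_nhds
  have hker : ∀ u w, EP g p t z u = 0 → EP g p t z w = 0 → dd (TH g p s t) z u w = 0 := by
    intro u w hu hw
    refine dd_thet_ker (h.fr S) ?_ u w hu hw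
    filter_upwards [h.eventually] with y hy u w hu hw
    exact van1 S hfr h4 hy u w hu hw
  have h3 := fun u hu hu' => van3 S hfr h4 h u hu hu'
  obtain ⟨l, hl, e1, e2⟩ := hA.ex
  have hst : dd (cCov α p) z (s z) (t z) = σ * l := by
    rw [e1, hA.mt, mul_one]
  have hne : σ * l ≠ 0 := mul_ne_zero (sgn_ne S) hl.ne'
  obtain ⟨u1, u2⟩ := hA.perp u
  obtain ⟨w1, w2⟩ := hA.perp w
  set u' := u - PE g p s t z u with hu'
  set w' := w - PE g p s t z w with hw'
  have hu : u = u' + (EP g p t z u • s z + EP g p s z u • t z) := by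
    rw [hu', PE_apply]; abel
  have hw : w = w' + (EP g p t z w • s z + EP g p s z w • t z) := by
    rw [hw', PE_apply]; abel
  have f1 : dd (TH g p s t) z u' w' = 0 := hker _ _ u1 w1
  have f2 : dd (TH g p s t) z u' (t z) = 0 := hker _ _ u1 hA.pt
  have f3 : dd (TH g p s t) z (t z) w' = 0 := hker _ _ hA.pt w1
  have f4 : dd (TH g p s t) z (s z) w' = 0 := h3 _ w1 w2
  have f5 : dd (TH g p s t) z u' (s z) = 0 := by
    rw [dd_skew, h3 _ u1 u2, neg_zero]
  have f6 : dd (TH g p s t) z (t z) (s z) = - dd (TH g p s t) z (s z) (t z) := dd_skew _ _ _ _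
  have lhs : dd (TH g p s t) z u w = (EP g p t z u * EP g p s z w - EP g p s z u * EP g p t z w) *
      dd (TH g p s t) z (s z) (t z) := by
    conv_lhs => rw [hu, hw]
    simp only [dd_add_left, dd_add_right, dd_smul_left, dd_smul_right, f1, f2, f3, f4, f5, f6,
      dd_self]
    ring
  have rhs : dd (cCov α p) z (PE g p s t z u) w = (σ * l) *
      (EP g p t z u * EP g p s z w - EP g p s z u * EP g p t z w) := by
    rw [PE_apply, dd_add_left, dd_smul_left, dd_smul_left, e1, e2]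
    ring
  rw [lhs, rhs]
  unfold CC
  rw [hst]
  have hσ := sgn_ne S
  field_simp

end Pool.Agent.H75.LR
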