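import Mathlib
import Pool.Agent.H75.LR.Str

/-! The contradiction for a growing adapted frame. -/

open scoped Topology ContDiff Manifold
open Set Filter Pool.Agent.H826R2.WStmt Pool.Agent.W671.RStmt
open Pool.Agent.H75.PRStmt Pool.Agent.H75.PR Pool.Agent.W671 Pool.Agent.H826R2

noncomputable section

set_option maxSynthPendingDepth 3
set_option linter.unusedSectionVars false

namespace Pool.Agent.H75.LR

universe u v

variable {E : Type u} [NormedAddCommGroup E] [NormedSpace ℝ E] [FiniteDimensional ℝ E]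
  {M : Type v} [TopologicalSpace M] [ChartedSpace E M] [IsManifold 𝓘(ℝ, E) ∞ M]
  {m : ℕ} {α : M → Cov E} {R : M → E} {Φ : M → ℝ → M} {g : M → Bil E}
  {e : M → EuclideanSpace ℝ (Fin m)} {σ : ℝ} {fr : M → (E → E) × (E → E)}

lemma WW_aut (hα : SmoothCov α) {f : M → M} (hf : Aut α g f) (x : M) (u v : E) :
    bev (WW α (f x)) (D (E := E) (E' := E) f x u) (D (E := E) (E' := E) f x v) =
      bev (WW α x) u v := by
  have hx : (ch E x).symm (ch E x x) = x := (ch E x).left_inv (mem_extChartAt_source x)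
  have hs : f ((ch E x).symm (ch E x x)) ∈ (ch E (f x)).source := by
    rw [hx]; exact mem_extChartAt_source (f x)
  have hy : ch E x x ∈ (ch E x).target := mem_extChartAt_target x
  have hψ : hat2 E x (f x) f (ch E x x) = ch E (f x) (f x) := by
    simp only [hat2, Function.comp]
    rw [hx]
  have hD : ∀ u, fderiv ℝ (hat2 E x (f x) f) (ch E x x) u = D (E := E) (E' := E) f x u := by
    intro u
    have h1 := Dsy_hat2 hf.smooth hy hs u
    rw [hψ, Dsy_center, Dsy_center, hx] at h1
    exact h1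
  have h1 := hat2_dd hα hf hy hs u v
  rw [hψ, hD, hD] at h1
  rw [WW_apply, WW_apply, hf.form, hf.form]
  have h2 : extDer α (f x) (D (E := E) (E' := E) f x u) (D (E := E) (E' := E) f x v) =
      extDer α x u v := h1
  rw [h2]

lemma smoothVec_reeb (S : Setting α R Φ g e σ) (hVF : S_VF.{u, v}) : SmoothVec R := by
  obtain ⟨X, hX, h⟩ := hVF E M (WW α) (smooth_WW S.sc) (WW_nondeg S.contact S.reeb) α S.sc
  have h1 : R = X := by
    funext x
    have h2 : R x - X x = 0 := by
      apply WW_nondeg S.contact S.reeb x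
      intro v
      have h3 : bev (WW α x) (R x - X x) v = bev (WW α x) (R x) v - bev (WW α x) (X x) v := by
        show (show E →L[ℝ] E →L[ℝ] ℝ from WW α x) (R x - X x) v = _
        rw [map_sub]
        rfl
      rw [h3, h, WW_apply, S.reeb.kernel, S.reeb.unit]
      ring
    exact sub_eq_zero.1 h2
  rw [h1]
  exact hX

/-- the logarithm of the growth -/
def LL (S : Setting α R Φ g e σ) (hfr : ∀ x, AF σ α g e x (fr x).1 (fr x).2 (ch E x x)) (T : ℝ) :
    C(M, ℝ) where
  toFun x := Real.log (GG Φ e fr T x)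
  continuous_toFun := (GG_cont S hfr T).log fun x => (GG_pos S hfr T x).ne'

lemma LL_deriv [T2Space M] [CompactSpace M] (S : Setting α R Φ g e σ)
    (hGR : S_GR.{u, v})
    (hfr : ∀ x, AF σ α g e x (fr x).1 (fr x).2 (ch E x x)) (x : M) :
    HasDerivAt (fun t => LL S hfr t x) (- ev (thG g fr x) (R x)) 0 := by
  have hx : (ch E x).symm (ch E x x) = x := (ch E x).left_inv (mem_extChartAt_source x)
  have hy : ch E x x ∈ (ch E x).target := mem_extChartAt_target x
  set s := (fr x).1 with hs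
  set t := (fr x).2 with ht
  have hF : AF σ α g e x s t (ch E x x) := hfr x
  have hA := At.alg S hF.ev.self_of_nhds
  have hsmall : ∀ᶠ τ in 𝓝 (0:ℝ), Φ ((ch E x).symm (ch E x x)) τ ∈ (ch E x).source ∧
      AF σ α g e x s t (hat2 E x x (fun y => Φ y τ) (ch E x x)) := by
    have hc : Continuous fun τ => Φ x τ := (S.flow.integral x).continuous
    have h1 : Tendsto (fun τ => Φ x τ) (𝓝 0) (𝓝 x) := by
      have := hc.tendsto 0
      rwa [S.rf.zero] at this
    have h2 : ∀ᶠ τ in 𝓝 (0:ℝ), Φ x τ ∈ (ch E x).source :=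
      h1.eventually ((isOpen_extChartAt_source x).mem_nhds (mem_extChartAt_source x))
    have h3 : Tendsto (fun τ => hat2 E x x (fun y => Φ y τ) (ch E x x)) (𝓝 0)
        (𝓝 (ch E x x)) := by
      have h4 : (fun τ => hat2 E x x (fun y => Φ y τ) (ch E x x)) = fun τ => ch E x (Φ x τ) := by
        funext τ
        simp only [hat2, Function.comp]
        rw [hx]
      rw [h4]
      exact ((continuousAt_extChartAt (I := 𝓘(ℝ, E)) x).tendsto).comp h1
    filter_upwards [h2, h3.eventually hF.eventually] with τ a1 a2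
    rw [hx]
    exact ⟨a1, a2⟩
  have key := hGR E M R Φ S.flow S.rf.smooth m e S.imm.smooth x (ch E x x) hy s (EP g x t)
    hF.hs.at (sm_EP S hy hF.ht).at (by
      filter_upwards [hF.ev] with z hz
      have hz' := At.alg S hz
      exact ⟨hz'.ps, hz'.pR, hz.unit⟩) (by
      filter_upwards [hsmall] with τ hτ
      obtain ⟨-, h2⟩ := AF.trans S (S.aut τ) hτ.1 hF hτ.2
      exact ⟨_, h2.self_of_nhds.2.1⟩)
  have h1 : (fun t => LL S hfr t x) = fun t' : ℝ => Real.log
      ‖fderiv ℝ (e ∘ (fun y => Φ y t') ∘ (ch E x).symm) (ch E x x) (s (ch E x x))‖ := by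
    funext τ
    have h2 := GG_chart S hfr τ hF
    rw [hx] at h2
    show Real.log (GG Φ e fr τ x) = _
    rw [h2]
    rfl
  have h3 : ev (thG g fr x) (R x) = dd (EP g x t) (ch E x x) (s (ch E x x))
      (cVec R x (ch E x x)) := by
    have h4 : cVec R x (ch E x x) = R x := by
      apply cVec_eq hy
      rw [Dsy_center, hx]
    have h5 : ev (thG g fr x) (R x) = TH g x s t (ch E x x) (cVec R x (ch E x x)) := by
      rw [h4]; rfl
    rw [h5]
    unfold TH
    rw [thet_apply, hA.pR, mul_zero, add_zero]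
  rw [h1, h3]
  exact key

/-- **a growing adapted frame is impossible** -/
theorem core [T2Space M] [CompactSpace M] [Nonempty M] (S : Setting α R Φ g e σ)
    (hEL : S_EL.{u}) (hGR : S_GR.{u, v}) (hVF : S_VF.{u, v}) (hEN : S_EN.{u, v}) {n : ℕ}
    (hn : Module.finrank ℝ E = 2 * n + 1) (hn2 : 2 ≤ n)
    (hfr : ∀ x, AF σ α g e x (fr x).1 (fr x).2 (ch E x x)) {T : ℝ} (hT : 0 < T)
    (h4 : ∀ x, 4 ≤ GG Φ e fr T x) : False := by
  have hdim : 1 < Module.finrank ℝ E := by omega
  have hloc : ∀ p : M, ∀ z ∈ (ch E p).target, ∃ s t : E → E, AF σ α g e p s t z :=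
    fun p z hz => exists_AF S hEL hdim p hz
  refine hEN E n hn hn2 M α R S.sc (smoothVec_reeb S hVF) (fun p z hz => chart_unit S.reeb hz)
    (fun p z hz => chart_kernel S.sc S.reeb hz) (fun p z hz => chart_nondeg S.contact hz)
    (WW α) (smooth_WW S.sc) (WW_nondeg S.contact S.reeb) (fun p z hz => cBil_WW S.sc hz)
    Φ S.rf.smooth.continuous S.rf.zero (fun x s t => S.rf.add x s t) S.rf.smooth_t
    (fun t x u v => WW_aut S.sc (S.aut t) x u v) (pG g fr) (smooth_pG S hEL hdim hfr)
    ?_ ?_ ?_ ?_ ?_ (thG g fr) (smooth_thG S hEL hdim hfr) ⟨cG α g fr, cont_cG S hfr⟩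
    (smooth_cG S hEL hdim hfr) ?_ ?_ (LL S hfr) ?_ (LL_deriv S hGR hfr) T (Real.log 4) hT
    (Real.log_pos (by norm_num)) ?_
  · intro p z hz u
    obtain ⟨s, t, h⟩ := hloc p z hz
    rw [(cmp S hfr h).2.1]
    exact (At.alg S h.ev.self_of_nhds).PP u
  · intro p z hz
    obtain ⟨s, t, h⟩ := hloc p z hz
    rw [(cmp S hfr h).2.1]
    exact (At.alg S h.ev.self_of_nhds).trP
  · intro p z hz
    obtain ⟨s, t, h⟩ := hloc p z hz
    rw [(cmp S hfr h).2.1]
    exact (At.alg S h.ev.self_of_nhds).PR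
  · intro p z hz u
    obtain ⟨s, t, h⟩ := hloc p z hz
    rw [(cmp S hfr h).2.1]
    exact (At.alg S h.ev.self_of_nhds).aP u
  · intro p z hz u w
    obtain ⟨s, t, h⟩ := hloc p z hz
    rw [(cmp S hfr h).2.1]
    exact (At.alg S h.ev.self_of_nhds).wPP u w
  · intro x τ
    have hx : (ch E x).symm (ch E x x) = x := (ch E x).left_inv (mem_extChartAt_source x)
    have hs : Φ ((ch E x).symm (ch E x x)) τ ∈ (ch E (Φ x τ)).source := by
      rw [hx]; exact mem_extChartAt_source (Φ x τ)
    have hψ : hat2 E x (Φ x τ) (fun y => Φ y τ) (ch E x x) = ch E (Φ x τ) (Φ x τ) := by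
      simp only [hat2, Function.comp]
      rw [hx]
    have h' : AF σ α g e (Φ x τ) (fr (Φ x τ)).1 (fr (Φ x τ)).2
        (hat2 E x (Φ x τ) (fun y => Φ y τ) (ch E x x)) := by
      rw [hψ]; exact hfr (Φ x τ)
    have h1 := CC_trans S (S.aut τ) hs (hfr x) h'
    rw [hψ] at h1
    exact h1.symm
  · intro p z hz u w
    obtain ⟨s, t, h⟩ := hloc p z hz
    rw [dd_congr (cmp_ev S hfr h).1, struct S hfr h4 h, (cmp S hfr h).2.1]
    have h1 := (cmp S hfr h).2.2.1
    show _ = cG α g fr ((ch E p).symm z) * _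
    rw [h1]
  · intro s t x
    show Real.log (GG Φ e fr (s + t) x) = Real.log (GG Φ e fr s x) +
      Real.log (GG Φ e fr t (Φ x s))
    rw [GG_add S hfr, Real.log_mul (GG_pos S hfr s x).ne' (GG_pos S hfr t _).ne']
  · intro x
    exact Real.log_le_log (by norm_num) (h4 x)

end Pool.Agent.H75.LR
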