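import Mathlib
import Pool.Agent.H75.LR.Core

/-! Reeb flows preserving a Lorentzian metric have two closed orbits (dimension at least five). -/

open scoped Topology ContDiff Manifold
open Set Filter Pool.Agent.H826R2.WStmt Pool.Agent.W671.RStmt
open Pool.Agent.H75.PRStmt Pool.Agent.H75.PR Pool.Agent.W671 Pool.Agent.H826R2

noncomputable section

set_option maxSynthPendingDepth 3
set_option linter.unusedSectionVars false

namespace Pool.Agent.H75.LR

universe u v

variable {E : Type u} [NormedAddCommGroup E] [NormedSpace ℝ E] [FiniteDimensional ℝ E]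
  {M : Type v} [TopologicalSpace M] [ChartedSpace E M] [IsManifold 𝓘(ℝ, E) ∞ M]
  {m : ℕ} {α : M → Cov E} {R : M → E} {Φ : M → ℝ → M} {g : M → Bil E}
  {e : M → EuclideanSpace ℝ (Fin m)} {σ : ℝ} {fr : M → (E → E) × (E → E)}

/-- a finite-dimensional space with a nondegenerate skew form has even dimension -/
lemma even_of_skew {V : Type*} [AddCommGroup V] [Module ℝ V] [FiniteDimensional ℝ V]
    (B : LinearMap.BilinForm ℝ V) (hs : ∀ u v, B u v = - B v u)
    (hn : ∀ u, (∀ v, B u v = 0) → u = 0) : Even (Module.finrank ℝ V) := by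
  classical
  set b := Module.finBasis ℝ V with hb
  set A : Matrix (Fin (Module.finrank ℝ V)) (Fin (Module.finrank ℝ V)) ℝ :=
    Matrix.of fun i j => B (b i) (b j) with hA
  have h1 : A.transpose = -A := by
    ext i j
    rw [Matrix.transpose_apply, Matrix.neg_apply, hA, Matrix.of_apply, Matrix.of_apply, hs]
  have h2 : A.det ≠ 0 := by
    intro h0
    obtain ⟨v, hv, hAv⟩ := Matrix.exists_vecMul_eq_zero_iff.2 h0
    apply hv
    have h3 : (∑ i, v i • b i) = 0 := by
      apply hn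
      intro w
      have h4 : ∀ j, B (∑ i, v i • b i) (b j) = 0 := by
        intro j
        have h5 := congrFun hAv j
        rw [Matrix.vecMul, dotProduct] at h5
        rw [map_sum, LinearMap.sum_apply]
        rw [Pi.zero_apply] at h5
        rw [← h5]
        refine Finset.sum_congr rfl fun i _ => ?_
        rw [hA, Matrix.of_apply, map_smul, LinearMap.smul_apply, smul_eq_mul]
      rw [← b.sum_repr w, map_sum]
      refine Finset.sum_eq_zero fun j _ => ?_
      rw [map_smul, h4, smul_zero]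
    have h6 := congrArg b.repr h3
    ext i
    have h7 := DFunLike.congr_fun h6 i
    rw [b.repr_sum_self] at h7
    simpa using h7
  have h3 : A.det = (-1) ^ Module.finrank ℝ V * A.det := by
    conv_lhs => rw [← Matrix.det_transpose, h1, Matrix.det_neg]
    rw [Fintype.card_fin]
  by_contra hodd
  rw [Nat.not_even_iff_odd] at hodd
  rw [hodd.neg_one_pow] at h3
  apply h2
  linarith

/-- contact manifolds are odd-dimensional -/
lemma odd_of_contact (hα : IsContact α) (hR : IsReeb α R) (x : M) :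
    ∃ n, Module.finrank ℝ E = 2 * n + 1 := by
  set a : E →ₗ[ℝ] ℝ := (show E →L[ℝ] ℝ from α x : E →L[ℝ] ℝ).toLinearMap with ha
  have hav : ∀ v, a v = ev (α x) v := fun v => rfl
  have hsurj : Function.Surjective a := by
    intro c
    refine ⟨c • R x, ?_⟩
    rw [map_smul, hav, hR.unit, smul_eq_mul, mul_one]
  have hrank := LinearMap.finrank_range_add_finrank_ker a
  rw [LinearMap.range_eq_top.2 hsurj, finrank_top, Module.finrank_self] at hrank
  set W : E →ₗ[ℝ] E →ₗ[ℝ] ℝ := LinearMap.mk₂ ℝ (fun u v => extDer α x u v)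
    (fun u u' v => by
      show dd (cCov α x) (ch E x x) (u + u') v = _
      rw [dd_add_left]; rfl)
    (fun c u v => by
      show dd (cCov α x) (ch E x x) (c • u) v = _
      rw [dd_smul_left]; rfl)
    (fun u v v' => by
      show dd (cCov α x) (ch E x x) u (v + v') = _
      rw [dd_add_right]; rfl)
    (fun c u v => by
      show dd (cCov α x) (ch E x x) u (c • v) = _
      rw [dd_smul_right]; rfl) with hW
  have hWa : ∀ u v, W u v = extDer α x u v := fun u v => rfl
  set B : LinearMap.BilinForm ℝ (LinearMap.ker a) := (W.domRestrict₁₂ (LinearMap.ker a)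
    (LinearMap.ker a)) with hB
  have hBa : ∀ u v, B u v = extDer α x u v := fun u v => rfl
  obtain ⟨k, hk⟩ := even_of_skew B (fun u v => by
    rw [hBa, hBa]
    exact dd_skew (cCov α x) (ch E x x) u v) (fun u hu => by
    apply Subtype.ext
    refine hα.nondeg x u ?_ ?_
    · exact LinearMap.mem_ker.1 u.2
    · intro v hv
      exact hu ⟨v, LinearMap.mem_ker.2 hv⟩)
  exact ⟨k, by omega⟩

lemma hG_apply (g : M → Bil E) (fr : M → (E → E) × (E → E)) (x : M) (u v : E) :
    bev (hG g fr x) u v = bev (g x) u v +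
      (EP g x (fr x).2 (ch E x x) u - EP g x (fr x).1 (ch E x x) u) *
        (EP g x (fr x).2 (ch E x x) v - EP g x (fr x).1 (ch E x x) v) := by
  show HE g x (fr x).1 (fr x).2 (ch E x x) u v = _
  rw [HE_apply, cBil_center]

/-- behaviour of the positive definite metric under an automorphism -/
lemma hG_aut (S : Setting α R Φ g e σ) (hfr : ∀ x, AF σ α g e x (fr x).1 (fr x).2 (ch E x x))
    {f : M → M} (hf : Aut α g f) {K : ℝ} (x : M)
    (h1 : 1 / K ≤ ‖D (E := E) (E' := EuclideanSpace ℝ (Fin m)) (e ∘ f) x (nG fr x)‖)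
    (h2 : ‖D (E := E) (E' := EuclideanSpace ℝ (Fin m)) (e ∘ f) x (nG fr x)‖ ≤ K) (hK : 1 ≤ K)
    (u : E) :
    bev (hG g fr (f x)) (D (E := E) (E' := E) f x u) (D (E := E) (E' := E) f x u) ≤
      K ^ 2 * bev (hG g fr x) u u := by
  obtain ⟨c, hc, -, -, hcn, ha, hb⟩ := aut_frame S hfr hf x
  rw [← hcn] at h1 h2
  have hA := At.alg S (hfr x).ev.self_of_nhds
  have hq := hA.quad (cBil_symm S.metric x (ch E x x)) u
  have hp := hA.perp_nonneg u
  have e1 : bev (hG g fr (f x)) (D (E := E) (E' := E) f x u) (D (E := E) (E' := E) f x u) =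
      bev (g x) u u + (c * EP g x (fr x).2 (ch E x x) u - c⁻¹ * EP g x (fr x).1 (ch E x x) u) *
        (c * EP g x (fr x).2 (ch E x x) u - c⁻¹ * EP g x (fr x).1 (ch E x x) u) := by
    rw [hG_apply, ha, hb, hf.inv]
  have e2 : bev (hG g fr x) u u = bev (g x) u u +
      (EP g x (fr x).2 (ch E x x) u - EP g x (fr x).1 (ch E x x) u) *
        (EP g x (fr x).2 (ch E x x) u - EP g x (fr x).1 (ch E x x) u) := hG_apply g fr x u u
  rw [e1, e2]
  rw [cBil_center] at hq
  set a := EP g x (fr x).2 (ch E x x) u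
  set b := EP g x (fr x).1 (ch E x x) u
  set q := cBil g x (ch E x x) (u - PE g x (fr x).1 (fr x).2 (ch E x x) u)
    (u - PE g x (fr x).1 (fr x).2 (ch E x x) u)
  have hK0 : 0 < K := by linarith
  have hc2 : c ^ 2 ≤ K ^ 2 := by
    rw [← sq_abs c]
    exact pow_le_pow_left₀ (abs_nonneg c) h2 2
  have hc3 : (c⁻¹) ^ 2 ≤ K ^ 2 := by
    rw [← sq_abs, abs_inv]
    refine pow_le_pow_left₀ (by positivity) ?_ 2
    rw [inv_le_comm₀ (abs_pos.2 hc) hK0, ← one_div]
    exact h1
  have hK2 : 1 ≤ K ^ 2 := one_le_pow₀ hK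
  have e3 : bev (g x) u u + (c * a - c⁻¹ * b) * (c * a - c⁻¹ * b) =
      c ^ 2 * a ^ 2 + (c⁻¹) ^ 2 * b ^ 2 + q := by
    rw [hq]
    have : c * c⁻¹ = 1 := mul_inv_cancel₀ hc
    linear_combination (-2 * a * b) * this
  have e4 : K ^ 2 * (bev (g x) u u + (a - b) * (a - b)) = K ^ 2 * a ^ 2 + K ^ 2 * b ^ 2 +
      K ^ 2 * q := by
    rw [hq]; ring
  rw [e3, e4]
  have i1 : c ^ 2 * a ^ 2 ≤ K ^ 2 * a ^ 2 := mul_le_mul_of_nonneg_right hc2 (sq_nonneg a)
  have i2 : (c⁻¹) ^ 2 * b ^ 2 ≤ K ^ 2 * b ^ 2 := mul_le_mul_of_nonneg_right hc3 (sq_nonneg b)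
  have i3 : q ≤ K ^ 2 * q := le_mul_of_one_le_left hp hK2
  linarith

/-- the second vector of the frame has length one in the positive definite metric -/
lemma hG_mG (S : Setting α R Φ g e σ) (hfr : ∀ x, AF σ α g e x (fr x).1 (fr x).2 (ch E x x))
    (x : M) : bev (hG g fr x) (mG fr x) (mG fr x) = 1 := by
  have hA := At.alg S (hfr x).ev.self_of_nhds
  have h1 : bev (hG g fr x) (mG fr x) (mG fr x) = HE g x (fr x).1 (fr x).2 (ch E x x)
    ((fr x).2 (ch E x x)) ((fr x).2 (ch E x x)) := rfl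
  rw [h1, HE_apply, hA.pt, hA.mt]
  have h2 : cBil g x (ch E x x) ((fr x).2 (ch E x x)) ((fr x).2 (ch E x x)) = 0 := hA.pt
  rw [h2]
  norm_num

/-- the frame for the other sign -/
lemma other (S : Setting α R Φ g e 1) (S' : Setting α R Φ g e (-1))
    {fr' : M → (E → E) × (E → E)}
    (hfr : ∀ x, AF 1 α g e x (fr x).1 (fr x).2 (ch E x x))
    (hfr' : ∀ x, AF (-1) α g e x (fr' x).1 (fr' x).2 (ch E x x)) {C : ℝ} (hC0 : 0 < C)
    (hC : ∀ (x : M) (v : E),
      ‖D (E := E) (E' := EuclideanSpace ℝ (Fin m)) e x v‖ ^ 2 ≤ C * bev (hG g fr x) v v ∧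
      bev (hG g fr x) v v ≤ C * ‖D (E := E) (E' := EuclideanSpace ℝ (Fin m)) e x v‖ ^ 2)
    (T : ℝ) (x : M) : 1 ≤ C * (GG Φ e fr T x * GG Φ e fr' T x) := by
  obtain ⟨c, hc, -, h2, hcn, -, -⟩ := aut_frame S hfr (S.aut T) x
  have hG1 : GG Φ e fr T x = |c| := hcn.symm
  have hA := (hfr x).ev.self_of_nhds
  have hA' := (hfr' x).ev.self_of_nhds
  obtain ⟨b, hb⟩ : ∃ b : ℝ, nG fr' x = b • mG fr x := by
    refine ⟨_, (hA.c S).ut _ hA'.pf.ne_s ?_⟩
    obtain ⟨l, hl, e1, -⟩ := hA'.pf.ex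
    have e1' : ∀ v, ddL (cCov α x) (ch E x x) (nG fr' x) v =
      -1 * (l * cBil g x (ch E x x) (nG fr' x) v) := e1
    exact ⟨l, hl, fun v => by rw [e1']; ring⟩
  have hu := unit_nG S' hfr' x
  rw [hb, map_smul, norm_smul, Real.norm_eq_abs] at hu
  have hD : GG Φ e fr' T x = |b| * (|c|⁻¹ *
      ‖D (E := E) (E' := EuclideanSpace ℝ (Fin m)) e (Φ x T) (mG fr (Φ x T))‖) := by
    unfold GG
    rw [D_e_comp S (S.rf.smooth_t T), hb, map_smul, h2, map_smul, map_smul, norm_smul, norm_smul,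
      Real.norm_eq_abs, Real.norm_eq_abs, abs_inv]
  set r := ‖D (E := E) (E' := EuclideanSpace ℝ (Fin m)) e x (mG fr x)‖ with hr
  set r' := ‖D (E := E) (E' := EuclideanSpace ℝ (Fin m)) e (Φ x T) (mG fr (Φ x T))‖ with hr'
  have k1 := (hC x (mG fr x)).1
  have k2 := (hC (Φ x T) (mG fr (Φ x T))).2
  rw [hG_mG S hfr, mul_one] at k1
  rw [hG_mG S hfr] at k2
  rw [← hr] at k1
  rw [← hr'] at k2
  have hr0 : 0 ≤ r := norm_nonneg _
  have hr0' : 0 ≤ r' := norm_nonneg _
  have hcp : 0 < |c| := abs_pos.2 hc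
  have e1 : C * (GG Φ e fr T x * GG Φ e fr' T x) = C * |b| * r' := by
    rw [hD, hG1]
    field_simp
  rw [e1]
  have hb0 : 0 ≤ |b| := abs_nonneg b
  -- `(C |b| r')² ≥ C |b|² ≥ |b|² r² = 1`
  have k3 : |b| ^ 2 * r ^ 2 = 1 := by
    rw [← mul_pow, hu, one_pow]
  have k4 : 1 ≤ C * |b| ^ 2 := by
    have := mul_le_mul_of_nonneg_left k1 (sq_nonneg |b|)
    linarith
  have k5 : C * |b| ^ 2 ≤ (C * |b| * r') ^ 2 := by
    have h5 : (C * |b| * r') ^ 2 = (C * |b| ^ 2) * (C * r' ^ 2) := by ring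
    rw [h5]
    exact le_mul_of_one_le_right (by positivity) k2
  have k6 : 1 ≤ (C * |b| * r') ^ 2 := k4.trans k5
  have k7 : 0 ≤ C * |b| * r' := by positivity
  by_contra hcon
  push Not at hcon
  nlinarith

/-- **Main theorem** in the reduced situation `g (R, ·) = α` -/
theorem main_red [T2Space M] [CompactSpace M] [ConnectedSpace M]
    (hEL : S_EL.{u}) (hU : S_U.{u}) (hGR : S_GR.{u, v}) (hVF : S_VF.{u, v})
    (hEN : S_EN.{u, v}) (hCM : S_CM.{u, v}) (hUD : S_UD.{u, v})
    (hdim : 4 < Module.finrank ℝ E) (hα : IsContact α) (hR : IsReeb α R) (hΦ : IsFlow R Φ)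
    (hg : IsPseudoMetric g) (hl : ∀ x, IsLorentz (g x)) (hinv : Preserves Φ g)
    (hgR : ∀ x u, bev (g x) (R x) u = ev (α x) u) :
    ∃ (c₁ c₂ : ℝ → M) (T₁ T₂ : ℝ), IsPeriodicOrbit R c₁ T₁ ∧ IsPeriodicOrbit R c₂ T₂ ∧
      Disjoint (Set.range c₁) (Set.range c₂) := by
  by_contra hno
  have hRF := rf_of hα hR hΦ
  obtain ⟨m, e, he1, he2, he3⟩ := exists_embedding_euclidean_of_compact (I := 𝓘(ℝ, E)) (M := M)
  have he : IsInjImmersion (E := E) e := ⟨he1, he2.injective, he3⟩
  have x₀ : M := Classical.arbitrary M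
  obtain ⟨n, hn⟩ := odd_of_contact hα hR x₀
  have hn2 : 2 ≤ n := by omega
  have hd1 : 1 < Module.finrank ℝ E := by omega
  have S : Setting α R Φ g e 1 := ⟨hα, hR, hg, hl, hgR, he, hRF, hΦ, hinv, hU, Or.inl rfl⟩
  have S' : Setting α R Φ g e (-1) := ⟨hα, hR, hg, hl, hgR, he, hRF, hΦ, hinv, hU, Or.inr rfl⟩
  choose s t hst using fun x : M => exists_AF S hEL hd1 x (mem_extChartAt_target x)
  choose s' t' hst' using fun x : M => exists_AF S' hEL hd1 x (mem_extChartAt_target x)
  set fr : M → (E → E) × (E → E) := fun x => (s x, t x) with hfrd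
  set fr' : M → (E → E) × (E → E) := fun x => (s' x, t' x) with hfrd'
  have hfr : ∀ x, AF 1 α g e x (fr x).1 (fr x).2 (ch E x x) := hst
  have hfr' : ∀ x, AF (-1) α g e x (fr' x).1 (fr' x).2 (ch E x x) := hst'
  obtain ⟨C, hC0, hC⟩ := hCM E M (hG g fr) (cont_hG S hEL hd1 hfr)
    (fun x u hu => hG_pos S hfr x u hu) m e he
  set K : ℝ := 4 * max 1 C with hK
  have hK4 : 4 ≤ K := by
    rw [hK]
    linarith [le_max_left 1 C]
  have hKC : 4 * C ≤ K := by
    rw [hK]
    linarith [le_max_right 1 C]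
  have hK0 : 0 < K := by linarith
  obtain ⟨T, hT, hTv⟩ := hUD E hd1 M α hα R hR Φ hΦ g hg hinv m e he hno (C * K)
  -- at every point there is growth or decay
  have hdich : ∀ x, GG Φ e fr T x ≤ 1 / K ∨ K ≤ GG Φ e fr T x := by
    intro x
    by_contra hcon
    push Not at hcon
    obtain ⟨v, hv⟩ := hTv x
    have h1 := hG_aut S hfr (S.aut T) x hcon.1.le hcon.2.le (by linarith) v
    have h2 := (hC (Φ x T) (D (E := E) (E' := E) (fun y => Φ y T) x v)).1
    have h3 := (hC x v).2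
    have h4 : D (E := E) (E' := EuclideanSpace ℝ (Fin m)) (fun y => e (Φ y T)) x v =
        D (E := E) (E' := EuclideanSpace ℝ (Fin m)) e (Φ x T)
          (D (E := E) (E' := E) (fun y => Φ y T) x v) := D_e_comp S (hRF.smooth_t T) x v
    rw [h4] at hv
    set a := ‖D (E := E) (E' := EuclideanSpace ℝ (Fin m)) e (Φ x T)
          (D (E := E) (E' := E) (fun y => Φ y T) x v)‖ with ha
    set b := ‖D (E := E) (E' := EuclideanSpace ℝ (Fin m)) e x v‖ with hb
    have ha0 : 0 ≤ a := norm_nonneg _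
    have hb0 : 0 ≤ b := norm_nonneg _
    have h5 : a ^ 2 ≤ (C * K * b) ^ 2 := by
      calc a ^ 2 ≤ C * (K ^ 2 * bev (hG g fr x) v v) :=
            h2.trans (mul_le_mul_of_nonneg_left h1 hC0.le)
        _ ≤ C * (K ^ 2 * (C * b ^ 2)) := by gcongr
        _ = (C * K * b) ^ 2 := by ring
    have h6 : a ≤ C * K * b := by
      exact (pow_le_pow_iff_left₀ ha0 (by positivity) two_ne_zero).1 h5
    linarith
  -- connectedness
  have hcont := GG_cont S hfr T
  have hcases : (∀ x, K ≤ GG Φ e fr T x) ∨ (∀ x, GG Φ e fr T x ≤ 1 / K) := by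
    have hlt : 1 / K < K := by
      rw [div_lt_iff₀ hK0]
      nlinarith
    have hclo : IsClosed {x | K ≤ GG Φ e fr T x} := isClosed_le continuous_const hcont
    have hopen : IsOpen {x | K ≤ GG Φ e fr T x} := by
      have h1 : {x | K ≤ GG Φ e fr T x} = {x | GG Φ e fr T x ≤ 1 / K}ᶜ := by
        ext x
        simp only [Set.mem_ofPred_eq, Set.mem_compl_iff, not_le]
        constructor
        · intro h; linarith
        · intro h
          rcases hdich x with h2 | h2
          · linarith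
          · exact h2
      rw [h1]
      exact (isClosed_le hcont continuous_const).isOpen_compl
    rcases isClopen_iff.1 ⟨hclo, hopen⟩ with h | h
    · right
      intro x
      rcases hdich x with h2 | h2
      · exact h2
      · exfalso
        have : x ∈ {x | K ≤ GG Φ e fr T x} := h2
        rw [h] at this
        exact this
    · left
      intro x
      have : x ∈ {x | K ≤ GG Φ e fr T x} := by rw [h]; trivial
      exact this
  rcases hcases with h | h
  · exact core S hEL hGR hVF hEN hn hn2 hfr hT (fun x => hK4.trans (h x))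
  · refine core S' hEL hGR hVF hEN hn hn2 hfr' hT (fun x => ?_)
    have h1 := other S S' hfr hfr' hC0 hC T x
    have h2 := GG_pos S' hfr' T x
    have h3 := h x
    have h4 : C * (GG Φ e fr T x * GG Φ e fr' T x) ≤ C * (1 / K * GG Φ e fr' T x) := by gcongr
    have h5 : C * (1 / K * GG Φ e fr' T x) * K = C * GG Φ e fr' T x := by
      field_simp
    have h6 : K ≤ C * GG Φ e fr' T x := by
      rw [← h5]
      nlinarith
    nlinarith

end Pool.Agent.H75.LR
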