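import Mathlib
import Pool.Agent.H75.LR.Defs2

/-! Reeb flows preserving a conformal Lorentzian structure on the contact hyperplanes. -/

open scoped Topology ContDiff Manifold
open Set Filter Pool.Agent.H826R2.WStmt Pool.Agent.W671.RStmt
open Pool.Agent.H75.PRStmt Pool.Agent.H75.PR

noncomputable section

set_option maxSynthPendingDepth 3
set_option linter.unusedSectionVars false

namespace Pool.Agent.H75.LR

universe u v

variable {E : Type*} [NormedAddCommGroup E] [NormedSpace ℝ E]
  {M : Type*} [TopologicalSpace M] [ChartedSpace E M]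

/-- the symmetric bilinear form `b` is Lorentzian on the hyperplane `ker a`: there is a vector `w`
in `ker a` on which `b` is negative and `b` is positive definite on the orthogonal complement of `w`
in `ker a`. -/
def IsLorentzOn (a : Cov E) (b : Bil E) : Prop :=
  ∃ w, ev a w = 0 ∧ bev b w w < 0 ∧ ∀ u, u ≠ 0 → ev a u = 0 → bev b u w = 0 → 0 < bev b u u

/-- a smooth field of symmetric bilinear forms (possibly degenerate) -/
structure IsSymForm [IsManifold 𝓘(ℝ, E) ∞ M] (b : M → Bil E) : Prop where
  symm : ∀ x u v, bev (b x) u v = bev (b x) v u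
  smooth : ContMDiff 𝓘(ℝ, E).tangent 𝓘(ℝ, ℝ) ∞
    (fun v : TangentBundle 𝓘(ℝ, E) M => bev (b v.1) v.2 v.2)

/-- the time `t` maps of the flow `Φ` are conformal for the restriction of `b` to the hyperplanes
`ker α` -/
def ConfPreserves (α : M → Cov E) (Φ : M → ℝ → M) (b : M → Bil E) : Prop :=
  ∀ (t : ℝ) (x : M), ∃ l > 0, ∀ u v : E, ev (α x) u = 0 → ev (α x) v = 0 →
    bev (b (Φ x t)) (D (E := E) (E' := E) (fun y => Φ y t) x u)
      (D (E := E) (E' := E) (fun y => Φ y t) x v) = l * bev (b x) u v

/-- **Module SL, conformal Lorentzian structures on the contact hyperplanes.** If the Reeb flow is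
conformal for a Lorentzian metric `b` on the contact hyperplanes then it preserves a Lorentzian
metric `g` with `g (R, ·) = α`.

Proof: `π u = u - α u • R`, `b' (u, v) = b (π u, π v) + α u * α v` is a nondegenerate smooth form, and with
a basis `e_i` of `E` the function
`φ x = (|det (W (e_i, e_j))| / |det (b' (e_i, e_j))|) ^ (1 / (2 n))`, `W = dα + α ⊗ α`, `dim M = 2 n + 1`, does
not depend on the basis (compute it in a chart), is positive and smooth, and
`φ (Φ_t x) * l = φ x` for `l` as in `ConfPreserves` (the flow preserves `α`, `W`, `R`, and changes `b'` to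
`l b (π ·, π ·) + α ⊗ α`, whose determinant is `l ^ (2 n)` times that of `b'`). Then
`g (u, v) = φ b (π u, π v) + α u * α v` is invariant. -/
def S_SL : Prop :=
  ∀ (E : Type u) [NormedAddCommGroup E] [NormedSpace ℝ E] [FiniteDimensional ℝ E],
    1 < Module.finrank ℝ E →
    ∀ (M : Type v) [TopologicalSpace M] [ChartedSpace E M] [IsManifold 𝓘(ℝ, E) ∞ M]
    [T2Space M] [CompactSpace M] (α : M → Cov E), IsContact α →
    ∀ R : M → E, IsReeb α R → ∀ Φ : M → ℝ → M, IsFlow R Φ →
    ∀ b : M → Bil E, IsSymForm b → (∀ x, IsLorentzOn (α x) (b x)) → ConfPreserves α Φ b →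
    ∃ g : M → Bil E, IsPseudoMetric g ∧ (∀ x, IsLorentz (g x)) ∧ Preserves Φ g ∧
      ∀ x u, bev (g x) (R x) u = ev (α x) u

end Pool.Agent.H75.LR
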