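import Mathlib
import Pool.Agent.H75.LR.Fin
import Pool.Agent.H15.LR.DV
import Pool.Agent.H15.LR.EL
import Pool.Agent.H15.LR.UU
import Pool.Agent.H15.LR.UD
import Pool.Agent.H93.LR.LD
import Pool.Agent.H87.LR.GR
import Pool.Agent.H87.LR.RD
import Pool.Agent.H52.LR.IN
import Pool.Agent.H52.LR.VF
import Pool.Agent.H23.LR.CM
import Pool.Agent.H61.LR.EN

/-! Reeb flows preserving a Lorentzian metric have two closed orbits (dimension at least five):
assembly. -/

open scoped Topology ContDiff Manifold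
open Set Filter Pool.Agent.H826R2.WStmt Pool.Agent.W671.RStmt
open Pool.Agent.H75.PRStmt Pool.Agent.H75.PR Pool.Agent.W671 Pool.Agent.H826R2

noncomputable section

set_option maxSynthPendingDepth 3
set_option linter.unusedSectionVars false

namespace Pool.Agent.H75.LR

universe u v

variable {E : Type u} [NormedAddCommGroup E] [NormedSpace ℝ E] [FiniteDimensional ℝ E]
  {M : Type v} [TopologicalSpace M] [ChartedSpace E M] [IsManifold 𝓘(ℝ, E) ∞ M]

/-- the reduced theorem without module hypotheses -/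
theorem main_red' [T2Space M] [CompactSpace M] [ConnectedSpace M]
    (hdim : 4 < Module.finrank ℝ E) (α : M → Cov E) (hα : IsContact α) (R : M → E)
    (hR : IsReeb α R) (Φ : M → ℝ → M) (hΦ : IsFlow R Φ)
    (g : M → Bil E) (hg : IsPseudoMetric g) (hl : ∀ x, IsLorentz (g x)) (hinv : Preserves Φ g)
    (hgR : ∀ x u, bev (g x) (R x) u = ev (α x) u) :
    ∃ (c₁ c₂ : ℝ → M) (T₁ T₂ : ℝ), IsPeriodicOrbit R c₁ T₁ ∧ IsPeriodicOrbit R c₂ T₂ ∧
      Disjoint (Set.range c₁) (Set.range c₂) :=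
  main_red H15.LR.el H15.LR.uu H87.LR.gr H52.LR.vf
    (H61.LR.en H15.LR.dv H93.LR.ld H52.LR.inn H52.LR.vf) H23.LR.cm H15.LR.ud hdim hα hR hΦ hg hl
    hinv hgR

/-- **Main theorem**: Reeb flows preserving a Lorentzian metric -/
theorem main_lor [T2Space M] [CompactSpace M] [ConnectedSpace M]
    (hdim : 4 < Module.finrank ℝ E) (α : M → Cov E) (hα : IsContact α) (R : M → E)
    (hR : IsReeb α R) (Φ : M → ℝ → M) (hΦ : IsFlow R Φ)
    (g : M → Bil E) (hg : IsPseudoMetric g) (hl : ∀ x, IsLorentz (g x)) (hinv : Preserves Φ g) :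
    ∃ (c₁ c₂ : ℝ → M) (T₁ T₂ : ℝ), IsPeriodicOrbit R c₁ T₁ ∧ IsPeriodicOrbit R c₂ T₂ ∧
      Disjoint (Set.range c₁) (Set.range c₂) := by
  by_cases h : ∀ x, 0 < bev (g x) (R x) (R x)
  · obtain ⟨g', hg', hl', hinv', hgR'⟩ := H87.LR.rd E M α hα R hR Φ hΦ g hg hl hinv h
    exact main_red' hdim α hα R hR Φ hΦ g' hg' hl' hinv' hgR'
  · push Not at h
    obtain ⟨x, hx⟩ := h
    exact main (by omega) α hα R hR Φ hΦ g hg hinv x (Or.inr (Or.inr ⟨hl x, hx⟩))

end Pool.Agent.H75.LR
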