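import Mathlib
import Pool.Agent.H75.LR.Main
import Pool.Agent.H31.LR.SL

/-! Reeb flows which are conformal for a Lorentzian metric on the contact hyperplanes have two closed
orbits (dimension at least five). -/

open scoped Topology ContDiff Manifold
open Set Filter Pool.Agent.H826R2.WStmt Pool.Agent.W671.RStmt
open Pool.Agent.H75.PRStmt Pool.Agent.H75.PR Pool.Agent.W671 Pool.Agent.H826R2

noncomputable section

set_option maxSynthPendingDepth 3
set_option linter.unusedSectionVars false

namespace Pool.Agent.H75.LR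

universe u v

variable {E : Type u} [NormedAddCommGroup E] [NormedSpace ℝ E] [FiniteDimensional ℝ E]
  {M : Type v} [TopologicalSpace M] [ChartedSpace E M] [IsManifold 𝓘(ℝ, E) ∞ M]

theorem main_conf [T2Space M] [CompactSpace M] [ConnectedSpace M]
    (hdim : 4 < Module.finrank ℝ E) (α : M → Cov E) (hα : IsContact α) (R : M → E)
    (hR : IsReeb α R) (Φ : M → ℝ → M) (hΦ : IsFlow R Φ)
    (b : M → Bil E) (hb : IsSymForm b) (hl : ∀ x, IsLorentzOn (α x) (b x))
    (hc : ConfPreserves α Φ b) :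
    ∃ (c₁ c₂ : ℝ → M) (T₁ T₂ : ℝ), IsPeriodicOrbit R c₁ T₁ ∧ IsPeriodicOrbit R c₂ T₂ ∧
      Disjoint (Set.range c₁) (Set.range c₂) := by
  obtain ⟨g, hg, hl, hinv, hgR⟩ :=
    H31.LR.sl_thm E (by omega) M α hα R hR Φ hΦ b hb hl hc
  exact main_red' hdim α hα R hR Φ hΦ g hg hl hinv hgR

end Pool.Agent.H75.LR
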